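import Mathlib

set_option autoImplicit false

namespace Pool.Agent.Helper426.Mertens

open Finset Real

lemma log_factorial_eq (n : ℕ) :
    Real.log (n.factorial : ℝ) = ∑ p ∈ (Finset.Icc 1 n).filter Nat.Prime,
      (n.factorial.factorization p : ℝ) * Real.log p := by
  rw [Real.log_nat_eq_sum_factorization, Finsupp.sum]
  apply Finset.sum_subset
  · intro p hp
    rw [Nat.support_factorization, Nat.mem_primeFactors] at hp
    rw [Finset.mem_filter, Finset.mem_Icc]
    exact ⟨⟨hp.1.one_lt.le, (hp.1.dvd_factorial).1 hp.2.1⟩, hp.1⟩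
  · intro p _ hp
    rw [Finsupp.notMem_support_iff] at hp
    rw [hp]; simp

lemma fac_lower (n p : ℕ) (hp : p.Prime) : n / p ≤ n.factorial.factorization p := by
  haveI := Fact.mk hp
  rw [Nat.factorization_def _ hp, padicValNat_factorial (p := p) (n := n) (b := Nat.log p n + 2) (by omega)]
  have h : n / p = n / p ^ 1 := by rw [pow_one]
  rw [h]
  exact Finset.single_le_sum (f := fun i => n / p ^ i) (fun _ _ => Nat.zero_le _)
    (by rw [Finset.mem_Ico]; omega)

lemma fac_upper (n p : ℕ) (hp : p.Prime) :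
    ((p : ℝ) - 1) * (n.factorial.factorization p : ℝ) ≤ n := by
  haveI := Fact.mk hp
  rw [Nat.factorization_def _ hp]
  have h := sub_one_mul_padicValNat_factorial (p := p) n
  have h2 : (p - 1) * padicValNat p n.factorial ≤ n := by omega
  have h3 : (((p - 1) * padicValNat p n.factorial : ℕ) : ℝ) ≤ n := by exact_mod_cast h2
  rw [Nat.cast_mul, Nat.cast_sub hp.one_lt.le, Nat.cast_one] at h3
  exact h3

lemma K_bound : ∃ K : ℝ, 0 ≤ K ∧ ∀ n : ℕ, ∑ p ∈ (Finset.Icc 1 n).filter Nat.Prime,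
    Real.log p / (p * (p - 1)) ≤ K := by
  have hs : Summable (fun k : ℕ => 4 * (1 / (k : ℝ) ^ (3/2 : ℝ))) :=
    (Real.summable_one_div_nat_rpow.2 (by norm_num)).mul_left 4
  refine ⟨∑' k : ℕ, 4 * (1 / (k : ℝ) ^ (3/2 : ℝ)), tsum_nonneg (fun k => by positivity), ?_⟩
  intro n
  refine le_trans (Finset.sum_le_sum ?_) (hs.sum_le_tsum ((Finset.Icc 1 n).filter Nat.Prime)
    (fun k _ => by positivity))
  intro p hp
  rw [Finset.mem_filter] at hp
  have hp2 : (2 : ℝ) ≤ p := by exact_mod_cast hp.2.two_le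
  have hp0 : (0 : ℝ) < p := by linarith
  have hlog : Real.log p ≤ 2 * (p : ℝ) ^ (1/2 : ℝ) := by
    have := Real.log_le_rpow_div hp0.le (show (0:ℝ) < 1/2 by norm_num)
    linarith
  have h32 : (p : ℝ) ^ (3/2 : ℝ) * (p : ℝ) ^ (1/2 : ℝ) = p * p := by
    rw [← Real.rpow_add hp0]
    norm_num
    ring
  have h1 : 0 < (p : ℝ) ^ (3/2 : ℝ) := Real.rpow_pos_of_pos hp0 _
  have h2 : 0 < (p : ℝ) ^ (1/2 : ℝ) := Real.rpow_pos_of_pos hp0 _
  rw [mul_one_div, div_le_div_iff₀ (by nlinarith) h1]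
  calc Real.log p * (p : ℝ) ^ (3/2 : ℝ) ≤ 2 * (p : ℝ) ^ (1/2 : ℝ) * (p : ℝ) ^ (3/2 : ℝ) := by
        gcongr
    _ = 2 * (p * p) := by rw [← h32]; ring
    _ ≤ 4 * (p * (p - 1)) := by nlinarith

/-- Mertens first theorem, both bounds, with some constant. -/
theorem sum_log_div : ∃ C : ℝ, ∀ n : ℕ, 1 ≤ n →
    |∑ p ∈ (Finset.Icc 1 n).filter Nat.Prime, Real.log p / p - Real.log n| ≤ C := by
  obtain ⟨K, hK0, hK⟩ := K_bound
  refine ⟨1 + K + Real.log 4, ?_⟩
  intro n hn
  have hn0 : (0 : ℝ) < n := by exact_mod_cast hn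
  set S := ∑ p ∈ (Finset.Icc 1 n).filter Nat.Prime, Real.log p / p with hS
  have hlog4 : 0 ≤ Real.log 4 := Real.log_nonneg (by norm_num)
  -- upper
  have hup : S ≤ Real.log n + Real.log 4 := by
    have h1 : (n : ℝ) * S - Chebyshev.theta n ≤ Real.log (n.factorial : ℝ) := by
      rw [log_factorial_eq, Chebyshev.theta_eq_sum_Icc, hS, Finset.mul_sum]
      have e : ((Finset.Icc 0 ⌊(n:ℝ)⌋₊).filter Nat.Prime) = (Finset.Icc 1 n).filter Nat.Prime := by
        ext p
        simp only [Finset.mem_filter, Finset.mem_Icc, Nat.floor_natCast]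
        constructor
        · rintro ⟨⟨_, h⟩, hp⟩
          exact ⟨⟨hp.one_lt.le, h⟩, hp⟩
        · rintro ⟨⟨_, h⟩, hp⟩
          exact ⟨⟨Nat.zero_le _, h⟩, hp⟩
      rw [e, ← Finset.sum_sub_distrib]
      apply Finset.sum_le_sum
      intro p hp
      rw [Finset.mem_filter] at hp
      have hp0 : (0 : ℝ) < p := by exact_mod_cast hp.2.pos
      have hl : 0 ≤ Real.log p := Real.log_natCast_nonneg p
      have h2 : ((n / p : ℕ) : ℝ) ≤ (n.factorial.factorization p : ℝ) := by
        exact_mod_cast fac_lower n p hp.2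
      have h3 : (n : ℝ) / p - 1 ≤ ((n / p : ℕ) : ℝ) := by
        have := Nat.lt_floor_add_one ((n : ℝ) / p)
        rw [Nat.floor_div_natCast, Nat.floor_natCast] at this
        linarith
      calc (n : ℝ) * (Real.log p / p) - Real.log p = ((n : ℝ) / p - 1) * Real.log p := by
            field_simp
        _ ≤ (n.factorial.factorization p : ℝ) * Real.log p := by
            apply mul_le_mul_of_nonneg_right (h3.trans h2) hl
    have h2 : Chebyshev.theta n ≤ Real.log 4 * n := Chebyshev.theta_le_log4_mul_x hn0.le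
    have h3 : Real.log (n.factorial : ℝ) ≤ n * Real.log n := by
      have : (n.factorial : ℝ) ≤ (n : ℝ) ^ n := by exact_mod_cast Nat.factorial_le_pow n
      have h4 := Real.log_le_log (by exact_mod_cast Nat.factorial_pos n) this
      rwa [Real.log_pow] at h4
    have h5 : (n : ℝ) * S ≤ n * (Real.log n + Real.log 4) := by linarith
    exact le_of_mul_le_mul_left h5 hn0
  have hlow : Real.log n - 1 - K ≤ S := by
    have h1 : Real.log (n.factorial : ℝ) ≤ n * (S + K) := by
      have h2 : Real.log (n.factorial : ℝ) ≤ n * (S + ∑ p ∈ (Finset.Icc 1 n).filter Nat.Prime,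
          Real.log p / (p * (p - 1))) := by
        rw [log_factorial_eq, hS, ← Finset.sum_add_distrib, Finset.mul_sum]
        apply Finset.sum_le_sum
        intro p hp
        rw [Finset.mem_filter] at hp
        have hp2 : (2 : ℝ) ≤ p := by exact_mod_cast hp.2.two_le
        have hp0 : (0 : ℝ) < p := by linarith
        have hp1 : (0 : ℝ) < (p : ℝ) - 1 := by linarith
        have hl : 0 ≤ Real.log p := Real.log_natCast_nonneg p
        have h3 := fac_upper n p hp.2
        have h4 : (n.factorial.factorization p : ℝ) ≤ n / (p - 1) := by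
          rw [le_div_iff₀ hp1]; linarith
        calc (n.factorial.factorization p : ℝ) * Real.log p ≤ n / (p - 1) * Real.log p := by
              gcongr
          _ = n * (Real.log p / p + Real.log p / (p * (p - 1))) := by
              field_simp
              ring
      refine h2.trans ?_
      have := hK n
      gcongr
    have h6 : (n : ℝ) * Real.log n - n ≤ Real.log (n.factorial : ℝ) := by
      have h7 : ((n : ℝ) / Real.exp 1) ^ n ≤ n.factorial := by
        have h8 := Real.pow_div_factorial_le_exp (n : ℝ) hn0.le n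
        rw [div_pow, ← Real.exp_nat_mul, mul_one, div_le_iff₀ (Real.exp_pos _)]
        rw [div_le_iff₀ (by positivity)] at h8
        linarith
      have h9 := Real.log_le_log (by positivity) h7
      rw [Real.log_pow, Real.log_div hn0.ne' (Real.exp_pos _).ne', Real.log_exp] at h9
      linarith
    have h10 : (n : ℝ) * (Real.log n - 1) ≤ n * (S + K) := by linarith
    have := le_of_mul_le_mul_left h10 hn0
    linarith
  rw [abs_le]
  constructor <;> linarith


/-- mass of primes in an interval -/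
noncomputable def M (y z : ℝ) : ℝ :=
  ∑ p ∈ (Finset.Icc 1 ⌊z⌋₊).filter (fun p : ℕ => p.Prime ∧ y < (p : ℝ)), (1 : ℝ) / p

lemma M_nonneg (y z : ℝ) : 0 ≤ M y z := Finset.sum_nonneg fun p _ => by positivity

lemma M_add_le (x y z : ℝ) (hxy : x ≤ y) (hyz : y ≤ z) (hy : 0 ≤ y) : M x y + M y z ≤ M x z := by
  unfold M
  rw [← Finset.sum_union]
  · apply Finset.sum_le_sum_of_subset_of_nonneg
    · intro p hp
      simp only [Finset.mem_union, Finset.mem_filter, Finset.mem_Icc] at hp ⊢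
      rcases hp with hp | hp
      · exact ⟨⟨hp.1.1, hp.1.2.trans (Nat.floor_le_floor hyz)⟩, hp.2⟩
      · exact ⟨hp.1, hp.2.1, by linarith [hp.2.2]⟩
    · intro p _ _; positivity
  · rw [Finset.disjoint_left]
    intro p hp hp'
    simp only [Finset.mem_filter, Finset.mem_Icc] at hp hp'
    have := (Nat.le_floor_iff hy).1 hp.1.2
    linarith [hp'.2.2]

lemma M_piece (C : ℝ) (hC : ∀ n : ℕ, 1 ≤ n →
    |∑ p ∈ (Finset.Icc 1 n).filter Nat.Prime, Real.log p / p - Real.log n| ≤ C)
    (y z : ℝ) (hy : 1 < y) (hyz : y ≤ z) :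
    (Real.log z - Real.log y - (2 * C + 1)) / Real.log z ≤ M y z := by
  have hly : 0 < Real.log y := Real.log_pos hy
  have hlz : 0 < Real.log z := Real.log_pos (by linarith)
  have hy0 : 0 < y := by linarith
  have hz0 : 0 < z := by linarith
  rw [div_le_iff₀ hlz]
  have hfy : 1 ≤ ⌊y⌋₊ := Nat.le_floor (by simpa using hy.le)
  have hfz : 1 ≤ ⌊z⌋₊ := Nat.le_floor (by simpa using (hy.le.trans hyz))
  have h1 : ∑ p ∈ (Finset.Icc 1 ⌊z⌋₊).filter (fun p : ℕ => p.Prime ∧ y < (p : ℝ)),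
      Real.log p / p ≤ M y z * Real.log z := by
    unfold M
    rw [Finset.sum_mul]
    apply Finset.sum_le_sum
    intro p hp
    simp only [Finset.mem_filter, Finset.mem_Icc] at hp
    have hp0 : (0 : ℝ) < p := by linarith [hp.2.2]
    rw [one_div, inv_mul_eq_div]
    have h2 := (Nat.le_floor_iff hz0.le).1 hp.1.2
    have := Real.log_le_log hp0 h2
    gcongr
  have h2 : ∑ p ∈ (Finset.Icc 1 ⌊z⌋₊).filter (fun p : ℕ => p.Prime ∧ y < (p : ℝ)),
      Real.log p / p + ∑ p ∈ (Finset.Icc 1 ⌊y⌋₊).filter Nat.Prime, Real.log p / p =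
      ∑ p ∈ (Finset.Icc 1 ⌊z⌋₊).filter Nat.Prime, Real.log p / p := by
    rw [← Finset.sum_filter_add_sum_filter_not
      ((Finset.Icc 1 ⌊z⌋₊).filter Nat.Prime) (fun p : ℕ => y < (p : ℝ))]
    congr 1
    · apply Finset.sum_congr _ (fun _ _ => rfl)
      rw [Finset.filter_filter]
    · apply Finset.sum_congr _ (fun _ _ => rfl)
      ext p
      simp only [Finset.mem_filter, Finset.mem_Icc, not_lt]
      constructor
      · rintro ⟨⟨h1, h2⟩, h3⟩
        have h4 := (Nat.le_floor_iff hy0.le).1 h2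
        exact ⟨⟨⟨h1, Nat.le_floor (h4.trans hyz)⟩, h3⟩, h4⟩
      · rintro ⟨⟨⟨h1, h2⟩, h3⟩, h4⟩
        exact ⟨⟨h1, Nat.le_floor h4⟩, h3⟩
  have h3 := (abs_le.1 (hC _ hfz)).1
  have h4 := (abs_le.1 (hC _ hfy)).2
  have h5 : Real.log (⌊y⌋₊ : ℝ) ≤ Real.log y := by
    apply Real.log_le_log
    · exact_mod_cast hfy
    · exact Nat.floor_le hy0.le
  have h6 : Real.log z - 1 ≤ Real.log (⌊z⌋₊ : ℝ) := by
    have e1 : z ≤ 2 * (⌊z⌋₊ : ℝ) := by
      have := Nat.lt_floor_add_one z
      have e2 : (1 : ℝ) ≤ ⌊z⌋₊ := by exact_mod_cast hfz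
      linarith
    have e3 := Real.log_le_log hz0 e1
    rw [Real.log_mul (by norm_num) (by positivity)] at e3
    have e4 : Real.log 2 ≤ 1 := by
      have := Real.log_two_lt_d9
      linarith
    linarith
  linarith

theorem key_steps (C : ℝ) (hC : ∀ n : ℕ, 1 ≤ n →
    |∑ p ∈ (Finset.Icc 1 n).filter Nat.Prime, Real.log p / p - Real.log n| ≤ C)
    (T : ℝ) (hT : 1 < T) (i : ℕ) :
    (i : ℝ) * (1 / 101 - (2 * C + 1) / Real.log T) ≤ M T (T ^ (((101 : ℝ) / 100) ^ i)) := by
  have hC0 : 0 ≤ C := (abs_nonneg _).trans (hC 1 le_rfl)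
  have hlT : 0 < Real.log T := Real.log_pos hT
  have hT0 : 0 < T := by linarith
  induction i with
  | zero => simp only [Nat.cast_zero, zero_mul]; exact M_nonneg _ _
  | succ i ih =>
    have hρ1 : (1 : ℝ) ≤ 101 / 100 := by norm_num
    have hρi : (1 : ℝ) ≤ (101 / 100) ^ i := one_le_pow₀ hρ1
    have h1 : 1 < T ^ (((101 : ℝ) / 100) ^ i) := Real.one_lt_rpow hT (by positivity)
    have h2 : T ^ (((101 : ℝ) / 100) ^ i) ≤ T ^ (((101 : ℝ) / 100) ^ (i + 1)) := by
      apply Real.rpow_le_rpow_of_exponent_le (by linarith)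
      exact pow_le_pow_right₀ hρ1 (Nat.le_succ i)
    have h3 := M_piece C hC _ _ h1 h2
    rw [Real.log_rpow hT0, Real.log_rpow hT0] at h3
    have h4 : 1 / 101 - (2 * C + 1) / Real.log T ≤ ((101 / 100) ^ (i + 1) * Real.log T - (101 / 100) ^ i * Real.log T - (2 * C + 1)) /
        ((101 / 100) ^ (i + 1) * Real.log T) := by
      have e1 : (((101:ℝ) / 100) ^ (i + 1) * Real.log T - (101 / 100) ^ i * Real.log T - (2 * C + 1)) /
        ((101 / 100) ^ (i + 1) * Real.log T) = 1 / 101 - (2 * C + 1) / ((101 / 100) ^ (i + 1) * Real.log T) := by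
        rw [pow_succ]
        field_simp
        ring
      rw [e1]
      have e2 : Real.log T ≤ ((101 : ℝ) / 100) ^ (i + 1) * Real.log T := by
        have : (1 : ℝ) ≤ (101 / 100) ^ (i + 1) := one_le_pow₀ hρ1
        nlinarith
      gcongr
    have h0 : T ≤ T ^ (((101 : ℝ) / 100) ^ i) := by
      calc T = T ^ (1 : ℝ) := (Real.rpow_one T).symm
        _ ≤ _ := Real.rpow_le_rpow_of_exponent_le (by linarith) hρi
    have h5 := M_add_le T (T ^ (((101 : ℝ) / 100) ^ i)) (T ^ (((101 : ℝ) / 100) ^ (i + 1))) h0 h2 (by linarith)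
    push_cast
    linarith

/-- Lower bound in Mertens' second theorem on ranges `(y, y ^ 25]`. -/
theorem mertens_lower : ∃ y0 : ℕ, 2 ≤ y0 ∧ ∀ y : ℕ, y0 ≤ y →
    (318 / 100 : ℝ) ≤ ∑ p ∈ (Finset.Ioc y (y ^ 25)).filter Nat.Prime, (1 : ℝ) / p := by
  obtain ⟨C, hC⟩ := sum_log_div
  have hC0 : 0 ≤ C := (abs_nonneg _).trans (hC 1 le_rfl)
  obtain ⟨y1, hy1⟩ := exists_nat_ge (Real.exp (323 * (2 * C + 1) * 100))
  refine ⟨max y1 2, le_max_right _ _, ?_⟩
  intro y hy
  have hy2 : 2 ≤ y := (le_max_right _ _).trans hy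
  have hyy : Real.exp (323 * (2 * C + 1) * 100) ≤ y := hy1.trans (by exact_mod_cast (le_max_left _ _).trans hy)
  have hT : (1 : ℝ) < y := by exact_mod_cast hy2
  have hlT : 0 < Real.log y := Real.log_pos hT
  have hl : 323 * (2 * C + 1) * 100 ≤ Real.log y := by
    rw [Real.le_log_iff_exp_le (by linarith)]; exact hyy
  have h := key_steps C hC y hT 323
  have h1 : (318 / 100 : ℝ) ≤ ((323 : ℕ) : ℝ) * (1 / 101 - (2 * C + 1) / Real.log y) := by
    have e1 : 323 * ((2 * C + 1) / Real.log y) ≤ 1 / 100 := by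
      rw [mul_div_assoc', div_le_iff₀ hlT]
      linarith
    push_cast
    linarith
  refine h1.trans (h.trans ?_)
  unfold M
  apply Finset.sum_le_sum_of_subset_of_nonneg
  · intro p hp
    simp only [Finset.mem_filter, Finset.mem_Icc, Finset.mem_Ioc] at hp ⊢
    refine ⟨⟨by exact_mod_cast hp.2.2, ?_⟩, hp.2.1⟩
    have h3 := (Nat.le_floor_iff (by positivity)).1 hp.1.2
    have h4 : (y : ℝ) ^ (((101 : ℝ) / 100) ^ 323) ≤ (y : ℝ) ^ (25 : ℝ) := by
      apply Real.rpow_le_rpow_of_exponent_le hT.le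
      have e : ((101 : ℝ) / 100) ^ 323 = (((101 : ℝ) / 100) ^ 17) ^ 19 := by rw [← pow_mul]
      rw [e]
      norm_num
    have h5 : (p : ℝ) ≤ ((y ^ 25 : ℕ) : ℝ) := by
      push_cast
      refine h3.trans (h4.trans (le_of_eq ?_))
      rw [← Real.rpow_natCast]
      norm_num
    exact_mod_cast h5
  · intro p _ _; positivity

end Pool.Agent.Helper426.Mertens
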