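import Mathlib
import Pool.Agent.Helper426.Mertens

set_option autoImplicit false

namespace Pool.Agent.Helper426

open Finset

/-- Chebyshev bound in a short multiplicative window -/
lemma cheb_window (P : Finset ℕ) (hP : ∀ p ∈ P, p.Prime) (x e : ℝ) (hx : 1 < x) (he : 0 < e)
    (h1 : ∀ p ∈ P, x ≤ (p : ℝ)) (h2 : ∀ p ∈ P, (p : ℝ) ≤ e * x) :
    ∑ p ∈ P, (1 : ℝ) / p ≤ Real.log 4 * e / Real.log x := by
  have hlx : 0 < Real.log x := Real.log_pos hx
  have hx0 : 0 < x := by linarith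
  have hex : 0 ≤ e * x := by positivity
  have hth : ∑ p ∈ P, Real.log p ≤ Real.log 4 * (e * x) := by
    refine le_trans ?_ (Chebyshev.theta_le_log4_mul_x hex)
    rw [Chebyshev.theta_eq_sum_Icc]
    apply Finset.sum_le_sum_of_subset_of_nonneg
    · intro p hp
      simp only [Finset.mem_filter, Finset.mem_Icc]
      exact ⟨⟨Nat.zero_le _, Nat.le_floor (h2 p hp)⟩, hP p hp⟩
    · intro p _ _
      exact Real.log_natCast_nonneg p
  have h3 : ∀ p ∈ P, (1 : ℝ) / p ≤ Real.log p / (x * Real.log x) := by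
    intro p hp
    have hp1 := h1 p hp
    have hp0 : (0 : ℝ) < p := by linarith
    rw [div_le_div_iff₀ hp0 (by positivity), one_mul]
    have hl := Real.log_le_log hx0 hp1
    nlinarith
  calc ∑ p ∈ P, (1 : ℝ) / p ≤ ∑ p ∈ P, Real.log p / (x * Real.log x) := Finset.sum_le_sum h3
    _ = (∑ p ∈ P, Real.log p) / (x * Real.log x) := by rw [Finset.sum_div]
    _ ≤ (Real.log 4 * (e * x)) / (x * Real.log x) := div_le_div_of_nonneg_right hth (by positivity)
    _ = Real.log 4 * e / Real.log x := by field_simp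

/-- concentration of `log p` -/
lemma cheb_conc (P : Finset ℕ) (hP : ∀ p ∈ P, p.Prime) (x r y : ℝ) (hx : 1 < x)
    (h1 : ∀ p ∈ P, x ≤ (p : ℝ)) (h2 : ∀ p ∈ P, |Real.log p - y| ≤ r) :
    ∑ p ∈ P, (1 : ℝ) / p ≤ Real.log 4 * Real.exp (2 * r) / Real.log x := by
  rcases P.eq_empty_or_nonempty with h | ⟨p0, hp0⟩
  · rw [h, Finset.sum_empty]
    have hlx : 0 < Real.log x := Real.log_pos hx
    have : 0 ≤ Real.log 4 := Real.log_nonneg (by norm_num)
    positivity
  have hr : 0 ≤ r := (abs_nonneg _).trans (h2 p0 hp0)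
  set x' : ℝ := max x (Real.exp (y - r)) with hx'
  have hx1 : 1 < x' := lt_of_lt_of_le hx (le_max_left _ _)
  have hpos : ∀ p ∈ P, (0 : ℝ) < p := fun p hp => by have := h1 p hp; linarith
  have h3 := cheb_window P hP x' (Real.exp (2 * r)) hx1 (Real.exp_pos _)
    (fun p hp => by
      refine max_le (h1 p hp) ?_
      rw [← Real.le_log_iff_exp_le (hpos p hp)]
      have := (abs_le.1 (h2 p hp)).1
      linarith)
    (fun p hp => by
      have h4 : (p : ℝ) ≤ Real.exp (y + r) := by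
        rw [← Real.log_le_iff_le_exp (hpos p hp)]
        have := (abs_le.1 (h2 p hp)).2
        linarith
      refine h4.trans ?_
      have h5 : Real.exp (y + r) = Real.exp (2 * r) * Real.exp (y - r) := by
        rw [← Real.exp_add]; congr 1; ring
      rw [h5]
      exact mul_le_mul_of_nonneg_left (le_max_right _ _) (Real.exp_pos _).le)
  refine h3.trans ?_
  have hlx : 0 < Real.log x := Real.log_pos hx
  have hle : Real.log x ≤ Real.log x' := Real.log_le_log (by linarith) (le_max_left _ _)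
  have : 0 ≤ Real.log 4 := Real.log_nonneg (by norm_num)
  exact div_le_div_of_nonneg_left (by positivity) hlx hle

/-- iterated Mertens lower bound -/
lemma mertens_iter : ∃ y0 : ℕ, 2 ≤ y0 ∧ ∀ y : ℕ, y0 ≤ y → ∀ g : ℕ,
    (318 / 100 : ℝ) * g ≤ ∑ p ∈ (Finset.Ioc y (y ^ (25 ^ g))).filter Nat.Prime, (1 : ℝ) / p := by
  obtain ⟨y0, hy0, h⟩ := Mertens.mertens_lower
  refine ⟨y0, hy0, fun y hy g => ?_⟩
  have hy1 : 1 ≤ y := by omega
  induction g with
  | zero => simp
  | succ g ih =>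
    have h1 := h (y ^ (25 ^ g)) (hy.trans (Nat.le_self_pow (by positivity) _))
    rw [← pow_mul, ← pow_succ] at h1
    have h2 : ∑ p ∈ (Finset.Ioc y (y ^ (25 ^ g))).filter Nat.Prime, (1 : ℝ) / p +
        ∑ p ∈ (Finset.Ioc (y ^ (25 ^ g)) (y ^ (25 ^ (g + 1)))).filter Nat.Prime, (1 : ℝ) / p ≤
        ∑ p ∈ (Finset.Ioc y (y ^ (25 ^ (g + 1)))).filter Nat.Prime, (1 : ℝ) / p := by
      rw [← Finset.sum_union]
      · apply Finset.sum_le_sum_of_subset_of_nonneg
        · intro p hp
          simp only [Finset.mem_union, Finset.mem_filter, Finset.mem_Ioc] at hp ⊢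
          have h3 : y ^ (25 ^ g) ≤ y ^ (25 ^ (g + 1)) := Nat.pow_le_pow_right hy1 (Nat.pow_le_pow_right (by norm_num) (Nat.le_succ g))
          have h4 : y ≤ y ^ (25 ^ g) := Nat.le_self_pow (by positivity) _
          rcases hp with ⟨⟨a, b⟩, c⟩ | ⟨⟨a, b⟩, c⟩
          · exact ⟨⟨a, b.trans h3⟩, c⟩
          · exact ⟨⟨lt_of_le_of_lt h4 a, b⟩, c⟩
        · intro p _ _; positivity
      · rw [Finset.disjoint_left]
        intro p hp hp'
        simp only [Finset.mem_filter, Finset.mem_Ioc] at hp hp'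
        omega
    push_cast
    linarith

/-- the trinomial bound -/
lemma trinom (g : ℕ) (hg : 1 ≤ g) : g.factorial ^ 3 * 27 ^ g ≤ 5 * g * (3 * g).factorial := by
  induction g, hg using Nat.le_induction with
  | base => norm_num [Nat.factorial]
  | succ g hg ih =>
    have e1 : (3 * (g + 1)).factorial = (3 * g + 3) * ((3 * g + 2) * ((3 * g + 1) * (3 * g).factorial)) := by
      rw [show 3 * (g + 1) = (3 * g + 2) + 1 by ring, Nat.factorial_succ, Nat.factorial_succ, Nat.factorial_succ]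
    rw [e1, Nat.factorial_succ, pow_succ 27 g, mul_pow]
    have h1 : (g + 1) ^ 3 * g.factorial ^ 3 * (27 ^ g * 27) = (27 * (g + 1) ^ 3) * (g.factorial ^ 3 * 27 ^ g) := by ring
    rw [h1]
    refine (Nat.mul_le_mul_left _ ih).trans ?_
    have h2 : 27 * (g + 1) ^ 3 * (5 * g * (3 * g).factorial) = (135 * (g + 1) ^ 2) * (3 * g).factorial * ((g + 1) * g) := by ring
    have h3 : 5 * (g + 1) * ((3 * g + 3) * ((3 * g + 2) * ((3 * g + 1) * (3 * g).factorial))) =
      (15 * (g + 1) ^ 2) * (3 * g).factorial * ((3 * g + 2) * (3 * g + 1)) := by ring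
    rw [h2, h3, show (135 * (g + 1) ^ 2) * (3 * g).factorial * ((g + 1) * g) = (15 * (g + 1) ^ 2) * (3 * g).factorial * (9 * ((g + 1) * g)) by ring]
    exact Nat.mul_le_mul_left _ (by nlinarith)

lemma trinom2 (g n : ℕ) (hg : 1 ≤ g) (hn : g ≤ n) :
    (n.factorial * (g.factorial * g.factorial)) * 27 ^ g ≤ 5 * g * (n + (g + g)).factorial := by
  induction n, hn using Nat.le_induction with
  | base =>
    have := trinom g hg
    have e : g + (g + g) = 3 * g := by ring
    rw [e]
    refine le_trans (le_of_eq (by ring)) this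
  | succ n hn ih =>
    have e : n + 1 + (g + g) = (n + (g + g)) + 1 := by ring
    rw [e, Nat.factorial_succ, Nat.factorial_succ (n + (g + g))]
    calc (n + 1) * n.factorial * (g.factorial * g.factorial) * 27 ^ g
        = (n + 1) * ((n.factorial * (g.factorial * g.factorial)) * 27 ^ g) := by ring
      _ ≤ (n + (g + g) + 1) * (5 * g * (n + (g + g)).factorial) := Nat.mul_le_mul (by omega) ih
      _ = 5 * g * ((n + (g + g) + 1) * (n + (g + g)).factorial) := by ring

lemma trinom3 (g n : ℕ) (hg : 1 ≤ g) (hn : g ≤ n) :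
    ((Nat.factorial n * (Nat.factorial g * Nat.factorial g) : ℕ) : ℝ) / (Nat.factorial (n + (g + g)) : ℕ) ≤
      5 * g / 27 ^ g := by
  rw [div_le_div_iff₀ (by exact_mod_cast Nat.factorial_pos _) (by positivity)]
  exact_mod_cast trinom2 g n hg hn

/-- Poisson lower tail -/
lemma poisson_tail (s : ℝ) (g : ℕ) (hs : (318 / 100 : ℝ) * g ≤ s) :
    ∑ n ∈ range (3 * g), s ^ n / n.factorial ≤ Real.exp s * (996 / 1000 : ℝ) ^ g := by
  have hs0 : 0 ≤ s := le_trans (by positivity) hs
  set l : ℝ := 94 / 100 with hl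
  have h1 : ∑ n ∈ range (3 * g), s ^ n / n.factorial ≤ ∑ n ∈ range (3 * g), (l * s) ^ n / n.factorial * (1 / l) ^ (3 * g) := by
    refine Finset.sum_le_sum fun n hn => ?_
    rw [mem_range] at hn
    have h2 : (1 : ℝ) ≤ l ^ n * (1 / l) ^ (3 * g) := by
      have h3 : (1 / l) ^ (3 * g) = (1 / l) ^ n * (1 / l) ^ (3 * g - n) := by
        rw [← pow_add]; congr 1; omega
      rw [h3, ← mul_assoc, ← mul_pow, mul_one_div_cancel (by norm_num [hl]), one_pow, one_mul]
      exact one_le_pow₀ (by norm_num [hl])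
    rw [mul_pow]
    have h4 : 0 ≤ s ^ n / n.factorial := by positivity
    calc s ^ n / n.factorial = s ^ n / n.factorial * 1 := by ring
      _ ≤ s ^ n / n.factorial * (l ^ n * (1 / l) ^ (3 * g)) := mul_le_mul_of_nonneg_left h2 h4
      _ = l ^ n * s ^ n / n.factorial * (1 / l) ^ (3 * g) := by ring
  refine h1.trans ?_
  rw [← Finset.sum_mul]
  have h5 : ∑ n ∈ range (3 * g), (l * s) ^ n / n.factorial ≤ Real.exp (l * s) :=
    Real.sum_le_exp_of_nonneg (by positivity) _
  have h6 : Real.exp (l * s) * (1 / l) ^ (3 * g) ≤ Real.exp s * (996 / 1000 : ℝ) ^ g := by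
    have e1 : Real.exp (l * s) = Real.exp s * Real.exp (-(6 / 100) * s) := by
      rw [← Real.exp_add]; congr 1; rw [hl]; ring
    have e2 : Real.exp (-(6 / 100) * s) ≤ Real.exp (-(6 / 100) * (318 / 100)) ^ g := by
      rw [← Real.exp_nat_mul]
      apply Real.exp_le_exp.2
      nlinarith
    have e3 : Real.exp (-(6 / 100 : ℝ) * (318 / 100)) * (1 / l) ^ 3 ≤ 996 / 1000 := by
      have h7 : Real.exp (-(6 / 100 : ℝ) * (318 / 100)) = (Real.exp (6 / 100 * (318 / 100)))⁻¹ := by
        rw [← Real.exp_neg]; congr 1; ring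
      rw [h7]
      have h8 : (121 / 100 : ℝ) ≤ Real.exp (6 / 100 * (318 / 100)) := by
        have := Real.quadratic_le_exp_of_nonneg (show (0 : ℝ) ≤ 6 / 100 * (318 / 100) by norm_num)
        have h9 := Real.sum_le_exp_of_nonneg (show (0 : ℝ) ≤ 6 / 100 * (318 / 100) by norm_num) 5
        refine le_trans ?_ h9
        norm_num [Finset.sum_range_succ, Nat.factorial]
      have h10 : (Real.exp (6 / 100 * (318 / 100)))⁻¹ ≤ (121 / 100 : ℝ)⁻¹ := inv_anti₀ (by norm_num) h8
      calc (Real.exp (6 / 100 * (318 / 100)))⁻¹ * (1 / l) ^ 3 ≤ (121 / 100 : ℝ)⁻¹ * (1 / l) ^ 3 := by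
            refine mul_le_mul_of_nonneg_right h10 (by positivity)
        _ ≤ 996 / 1000 := by rw [hl]; norm_num
    rw [e1, pow_mul, mul_assoc]
    refine mul_le_mul_of_nonneg_left ?_ (Real.exp_pos _).le
    calc Real.exp (-(6 / 100) * s) * ((1 / l) ^ 3) ^ g ≤ Real.exp (-(6 / 100) * (318 / 100)) ^ g * ((1 / l) ^ 3) ^ g :=
          mul_le_mul_of_nonneg_right e2 (by positivity)
      _ = (Real.exp (-(6 / 100) * (318 / 100)) * (1 / l) ^ 3) ^ g := by rw [mul_pow]
      _ ≤ (996 / 1000) ^ g := pow_le_pow_left₀ (by positivity) e3 g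
  exact (mul_le_mul_of_nonneg_right h5 (by positivity)).trans h6

end Pool.Agent.Helper426
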