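import Mathlib

set_option autoImplicit false
set_option linter.unusedSectionVars false

namespace Pool.Agent.Helper426

open Finset

section Weights

variable {ι α : Type} [Fintype ι] [DecidableEq ι] [Fintype α] [DecidableEq α]

/-- product weight -/
def wt (p : ι → α → ℝ) (t : ι → α) : ℝ := ∏ i, p i (t i)

lemma wt_nonneg {p : ι → α → ℝ} (hp : ∀ i a, 0 ≤ p i a) (t : ι → α) : 0 ≤ wt p t :=
  Finset.prod_nonneg fun i _ => hp i _

lemma sum_wt {p : ι → α → ℝ} (hp : ∀ i, ∑ a, p i a = 1) : ∑ t, wt p t = 1 := by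
  unfold wt
  rw [← Fintype.piFinset_univ, ← Finset.prod_univ_sum]
  simp [hp]

lemma wt_update (p : ι → α → ℝ) (t : ι → α) (i : ι) (a : α) :
    wt p t * p i a = wt p (Function.update t i a) * p i (t i) := by
  unfold wt
  rw [← Finset.mul_prod_erase univ _ (mem_univ i), ← Finset.mul_prod_erase univ
    (fun j => p j (Function.update t i a j)) (mem_univ i)]
  have : ∏ j ∈ univ.erase i, p j (Function.update t i a j) = ∏ j ∈ univ.erase i, p j (t j) := by
    refine Finset.prod_congr rfl fun j hj => ?_
    rw [Function.update_of_ne (Finset.ne_of_mem_erase hj)]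
  rw [this]
  simp only [Function.update_self]
  ring

lemma resample {p : ι → α → ℝ} (hp : ∀ i, ∑ a, p i a = 1) (i : ι) (F : (ι → α) → ℝ) :
    ∑ t, wt p t * F t = ∑ t, wt p t * ∑ a, p i a * F (Function.update t i a) := by
  have h1 : ∑ t, wt p t * ∑ a, p i a * F (Function.update t i a)
      = ∑ x : (ι → α) × α, wt p x.1 * p i x.2 * F (Function.update x.1 i x.2) := by
    rw [Fintype.sum_prod_type]
    refine Finset.sum_congr rfl fun t _ => ?_
    rw [Finset.mul_sum]
    refine Finset.sum_congr rfl fun a _ => by ring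
  have h2 : ∑ t, wt p t * F t = ∑ x : (ι → α) × α, wt p x.1 * p i x.2 * F x.1 := by
    rw [Fintype.sum_prod_type]
    refine Finset.sum_congr rfl fun t _ => ?_
    have : ∑ y, wt p (t, y).1 * p i (t, y).2 * F (t, y).1 = (∑ y, p i y) * (wt p t * F t) := by
      rw [Finset.sum_mul]
      exact Finset.sum_congr rfl fun y _ => by ring
    rw [this, hp, one_mul]
  rw [h1, h2]
  let Φ : (ι → α) × α → (ι → α) × α := fun x => (Function.update x.1 i x.2, x.1 i)
  have hΦ : Function.Involutive Φ := by
    rintro ⟨t, a⟩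
    simp [Φ]
  refine Fintype.sum_equiv hΦ.toPerm _ _ ?_
  rintro ⟨t, a⟩
  simp only [Function.Involutive.coe_toPerm, Φ]
  rw [wt_update p t i a]
  simp

/-- expectation of an indicator of one coordinate event -/
lemma one_coord {p : ι → α → ℝ} (hp0 : ∀ i a, 0 ≤ p i a) (hp : ∀ i, ∑ a, p i a = 1) (i : ι)
    (F : (ι → α) → ℝ) (Q : ℝ) (hQ : ∀ t, ∑ a, p i a * F (Function.update t i a) ≤ Q) :
    ∑ t, wt p t * F t ≤ Q := by
  rw [resample hp i F]
  calc ∑ t, wt p t * ∑ a, p i a * F (Function.update t i a) ≤ ∑ t, wt p t * Q := by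
        refine Finset.sum_le_sum fun t _ => mul_le_mul_of_nonneg_left (hQ t) (wt_nonneg hp0 t)
    _ = Q := by rw [← Finset.sum_mul, sum_wt hp, one_mul]

open Classical in
/-- concentration in a window of radius `r` -/
noncomputable def conc (q : α → ℝ) (f : α → ℝ) (r y : ℝ) : ℝ := ∑ a, q a * (if |f a - y| ≤ r then 1 else 0)

lemma linear_one {p : ι → α → ℝ} (hp0 : ∀ i a, 0 ≤ p i a) (hp : ∀ i, ∑ a, p i a = 1)
    (f : α → ℝ) (c : ι → ℝ) (i : ι) (hi : 1 ≤ |c i|) (r z Q : ℝ)
    (hQ : ∀ y, conc (p i) f r y ≤ Q) :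
    ∑ t, wt p t * (open Classical in if |∑ j, c j * f (t j) - z| ≤ r then (1 : ℝ) else 0) ≤ Q := by
  classical
  refine one_coord hp0 hp i _ Q fun t => ?_
  have hci : c i ≠ 0 := by
    intro h
    rw [h, abs_zero] at hi
    linarith
  -- the rest
  let R : ℝ := ∑ j ∈ univ.erase i, c j * f (t j)
  refine le_trans ?_ (hQ ((z - R) / c i))
  unfold conc
  refine Finset.sum_le_sum fun a _ => mul_le_mul_of_nonneg_left ?_ (hp0 i a)
  have hsum : ∑ j, c j * f (Function.update t i a j) = c i * f a + R := by
    rw [← Finset.add_sum_erase univ _ (mem_univ i), Function.update_self]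
    congr 1
    refine Finset.sum_congr rfl fun j hj => ?_
    rw [Function.update_of_ne (Finset.ne_of_mem_erase hj)]
  rw [hsum]
  by_cases h : |c i * f a + R - z| ≤ r
  · have h2 : |f a - (z - R) / c i| ≤ r := by
      have : f a - (z - R) / c i = (c i * f a + R - z) / c i := by
        field_simp
        ring
      rw [this, abs_div, div_le_iff₀ (by linarith)]
      have hr : 0 ≤ r := le_trans (abs_nonneg _) h
      nlinarith
    rw [if_pos h, if_pos h2]
  · rw [if_neg h]
    split_ifs <;> norm_num

lemma linear_two {p : ι → α → ℝ} (hp0 : ∀ i a, 0 ≤ p i a) (hp : ∀ i, ∑ a, p i a = 1)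
    (f : α → ℝ) (c d : ι → ℝ) (hc : ∀ i, |c i| ≤ 1) (hd : ∀ i, |d i| ≤ 1) (i j : ι) (hij : i ≠ j)
    (hdet : 1 ≤ |c i * d j - c j * d i|) (r Qi Qj : ℝ)
    (hQi : ∀ y, conc (p i) f (2 * r) y ≤ Qi) (hQj : ∀ y, conc (p j) f (2 * r) y ≤ Qj) :
    ∑ t, wt p t * (open Classical in if |∑ k, c k * f (t k)| ≤ r ∧ |∑ k, d k * f (t k)| ≤ r then (1 : ℝ) else 0)
      ≤ Qi * Qj := by
  classical
  have hQi0 : 0 ≤ Qi := le_trans (Finset.sum_nonneg fun a _ => mul_nonneg (hp0 i a) (by split_ifs <;> norm_num)) (hQi 0)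
  have hQj0 : 0 ≤ Qj := le_trans (Finset.sum_nonneg fun a _ => mul_nonneg (hp0 j a) (by split_ifs <;> norm_num)) (hQj 0)
  set D : ℝ := c i * d j - c j * d i with hD
  have hD0 : D ≠ 0 := by
    intro h
    rw [h, abs_zero] at hdet
    linarith
  -- linear forms avoiding one of the two coordinates
  let y1 : (ι → α) → ℝ := fun t => - (∑ k ∈ (univ.erase i).erase j, (d j * c k - c j * d k) * f (t k)) / D
  let y2 : (ι → α) → ℝ := fun t => (∑ k ∈ (univ.erase i).erase j, (d i * c k - c i * d k) * f (t k)) / D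
  let F1 : (ι → α) → ℝ := fun t => if |f (t i) - y1 t| ≤ 2 * r then 1 else 0
  let F2 : (ι → α) → ℝ := fun t => if |f (t j) - y2 t| ≤ 2 * r then 1 else 0
  have hji : j ∈ univ.erase i := Finset.mem_erase.2 ⟨hij.symm, mem_univ j⟩
  have split : ∀ (e : ι → ℝ) (t : ι → α), ∑ k, e k * f (t k) =
      e i * f (t i) + (e j * f (t j) + ∑ k ∈ (univ.erase i).erase j, e k * f (t k)) := by
    intro e t
    rw [← Finset.add_sum_erase univ _ (mem_univ i), ← Finset.add_sum_erase (univ.erase i) _ hji]
  have key : ∀ t, (if |∑ k, c k * f (t k)| ≤ r ∧ |∑ k, d k * f (t k)| ≤ r then (1 : ℝ) else 0) ≤ F1 t * F2 t := by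
    intro t
    by_cases h : |∑ k, c k * f (t k)| ≤ r ∧ |∑ k, d k * f (t k)| ≤ r
    · obtain ⟨h1, h2⟩ := h
      have hr : 0 ≤ r := le_trans (abs_nonneg _) h1
      have hcomb : ∀ (x y : ℝ), |x| ≤ 1 → |y| ≤ 1 →
          |x * (∑ k, c k * f (t k)) - y * (∑ k, d k * f (t k))| ≤ 2 * r := by
        intro x y hx hy
        calc |x * (∑ k, c k * f (t k)) - y * (∑ k, d k * f (t k))|
            ≤ |x * (∑ k, c k * f (t k))| + |y * (∑ k, d k * f (t k))| := abs_sub _ _
          _ = |x| * |∑ k, c k * f (t k)| + |y| * |∑ k, d k * f (t k)| := by rw [abs_mul, abs_mul]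
          _ ≤ 1 * r + 1 * r := by gcongr
          _ = 2 * r := by ring
      have e1 : f (t i) - y1 t = (d j * (∑ k, c k * f (t k)) - c j * (∑ k, d k * f (t k))) / D := by
        simp only [y1]
        rw [split c t, split d t]
        have : ∑ k ∈ (univ.erase i).erase j, (d j * c k - c j * d k) * f (t k)
            = d j * ∑ k ∈ (univ.erase i).erase j, c k * f (t k) - c j * ∑ k ∈ (univ.erase i).erase j, d k * f (t k) := by
          rw [Finset.mul_sum, Finset.mul_sum, ← Finset.sum_sub_distrib]
          exact Finset.sum_congr rfl fun k _ => by ring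
        rw [this, eq_div_iff hD0, sub_mul, div_mul_cancel₀ _ hD0, hD]
        ring
      have e2 : f (t j) - y2 t = (c i * (∑ k, d k * f (t k)) - d i * (∑ k, c k * f (t k))) / D := by
        simp only [y2]
        rw [split c t, split d t]
        have : ∑ k ∈ (univ.erase i).erase j, (d i * c k - c i * d k) * f (t k)
            = d i * ∑ k ∈ (univ.erase i).erase j, c k * f (t k) - c i * ∑ k ∈ (univ.erase i).erase j, d k * f (t k) := by
          rw [Finset.mul_sum, Finset.mul_sum, ← Finset.sum_sub_distrib]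
          exact Finset.sum_congr rfl fun k _ => by ring
        rw [this, eq_div_iff hD0, sub_mul, div_mul_cancel₀ _ hD0, hD]
        ring
      have b1 : |f (t i) - y1 t| ≤ 2 * r := by
        rw [e1, abs_div, div_le_iff₀ (by linarith)]
        have := hcomb (d j) (c j) (hd j) (hc j)
        nlinarith
      have b2 : |f (t j) - y2 t| ≤ 2 * r := by
        rw [e2, abs_div, div_le_iff₀ (by linarith)]
        have := hcomb (d i) (c i) (hd i) (hc i)
        rw [abs_sub_comm] at this
        nlinarith
      simp only [F1, F2]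
      rw [if_pos ⟨h1, h2⟩, if_pos b1, if_pos b2]
      norm_num
    · rw [if_neg h]
      simp only [F1, F2]
      split_ifs <;> norm_num
  have hy1 : ∀ t a, y1 (Function.update t i a) = y1 t := by
    intro t a
    simp only [y1]
    congr 2
    refine Finset.sum_congr rfl fun k hk => ?_
    have hki : k ≠ i := by
      have := Finset.mem_of_mem_erase hk
      exact Finset.ne_of_mem_erase this
    rw [Function.update_of_ne hki]
  have hy1j : ∀ t a, y1 (Function.update t j a) = y1 t := by
    intro t a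
    simp only [y1]
    congr 2
    refine Finset.sum_congr rfl fun k hk => ?_
    rw [Function.update_of_ne (Finset.ne_of_mem_erase hk)]
  have hy2 : ∀ t a, y2 (Function.update t j a) = y2 t := by
    intro t a
    simp only [y2]
    congr 1
    refine Finset.sum_congr rfl fun k hk => ?_
    rw [Function.update_of_ne (Finset.ne_of_mem_erase hk)]
  have hF1 : ∀ t a, F1 (Function.update t j a) = F1 t := by
    intro t a
    simp only [F1, hy1j, Function.update_of_ne hij]
  calc ∑ t, wt p t * (if |∑ k, c k * f (t k)| ≤ r ∧ |∑ k, d k * f (t k)| ≤ r then (1 : ℝ) else 0)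
      ≤ ∑ t, wt p t * (F1 t * F2 t) :=
        Finset.sum_le_sum fun t _ => mul_le_mul_of_nonneg_left (key t) (wt_nonneg hp0 t)
    _ = ∑ t, wt p t * ∑ a, p j a * (F1 (Function.update t j a) * F2 (Function.update t j a)) := resample hp j _
    _ ≤ ∑ t, wt p t * (F1 t * Qj) := by
        refine Finset.sum_le_sum fun t _ => mul_le_mul_of_nonneg_left ?_ (wt_nonneg hp0 t)
        have : ∑ a, p j a * (F1 (Function.update t j a) * F2 (Function.update t j a))
            = F1 t * conc (p j) f (2 * r) (y2 t) := by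
          unfold conc
          rw [Finset.mul_sum]
          refine Finset.sum_congr rfl fun a _ => ?_
          rw [hF1]
          simp only [F2, hy2, Function.update_self]
          ring
        rw [this]
        have hF10 : 0 ≤ F1 t := by simp only [F1]; split_ifs <;> norm_num
        exact mul_le_mul_of_nonneg_left (hQj _) hF10
    _ = (∑ t, wt p t * F1 t) * Qj := by
        rw [Finset.sum_mul]
        exact Finset.sum_congr rfl fun t _ => by ring
    _ ≤ Qi * Qj := by
        refine mul_le_mul_of_nonneg_right ?_ hQj0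
        refine one_coord hp0 hp i F1 Qi fun t => ?_
        refine le_trans (le_of_eq ?_) (hQi (y1 t))
        unfold conc
        refine Finset.sum_congr rfl fun a _ => ?_
        simp only [F1, hy1, Function.update_self]

end Weights

end Pool.Agent.Helper426
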