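import Mathlib
import Pool.Agent.Helper426.Prod

set_option autoImplicit false
set_option linter.unusedSectionVars false

namespace Pool.Agent.Helper426

open Finset

section Sym

variable {α J K : Type} [Fintype α] [DecidableEq α] [Fintype J] [DecidableEq J] [Fintype K]
  [DecidableEq K] {L : ℕ}

/-- assemble three families -/
def asm (S : J → α) (X Y : K → α) : J ⊕ (K ⊕ K) → α := Sum.elim S (Sum.elim X Y)

/-- the block of an index -/
def blk (bJ : J → Fin L) (bK : K → Fin L) : J ⊕ (K ⊕ K) → Fin L := Sum.elim bJ (Sum.elim bK bK)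

/-- block preserving permutations -/
def Gam (bJ : J → Fin L) (bK : K → Fin L) : Finset (Equiv.Perm (J ⊕ (K ⊕ K))) :=
  univ.filter fun σ => ∀ i, blk bJ bK (σ i) = blk bJ bK i

lemma mem_Gam {bJ : J → Fin L} {bK : K → Fin L} {σ : Equiv.Perm (J ⊕ (K ⊕ K))} :
    σ ∈ Gam bJ bK ↔ ∀ i, blk bJ bK (σ i) = blk bJ bK i := by simp [Gam]

lemma one_mem_Gam (bJ : J → Fin L) (bK : K → Fin L) : (1 : Equiv.Perm (J ⊕ (K ⊕ K))) ∈ Gam bJ bK := by
  rw [mem_Gam]; intro i; rfl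

lemma mul_mem_Gam {bJ : J → Fin L} {bK : K → Fin L} {σ τ : Equiv.Perm (J ⊕ (K ⊕ K))}
    (hσ : σ ∈ Gam bJ bK) (hτ : τ ∈ Gam bJ bK) : σ * τ ∈ Gam bJ bK := by
  rw [mem_Gam] at *
  intro i
  rw [Equiv.Perm.mul_apply, hσ, hτ]

lemma inv_mem_Gam {bJ : J → Fin L} {bK : K → Fin L} {σ : Equiv.Perm (J ⊕ (K ⊕ K))}
    (hσ : σ ∈ Gam bJ bK) : σ⁻¹ ∈ Gam bJ bK := by
  rw [mem_Gam] at *
  intro i
  have h1 : σ (σ⁻¹ i) = i := by simp
  have := hσ (σ⁻¹ i)
  rw [h1] at this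
  exact this.symm

/-- weights of all positions -/
def pI (q : Fin L → α → ℝ) (bJ : J → Fin L) (bK : K → Fin L) : J ⊕ (K ⊕ K) → α → ℝ :=
  fun i => q (blk bJ bK i)

lemma wt_asm (q : Fin L → α → ℝ) (bJ : J → Fin L) (bK : K → Fin L) (S : J → α) (X Y : K → α) :
    wt (pI q bJ bK) (asm S X Y) =
      wt (fun j => q (bJ j)) S * (wt (fun k => q (bK k)) X * wt (fun k => q (bK k)) Y) := by
  unfold wt pI
  rw [Fintype.prod_sum_type, Fintype.prod_sum_type]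
  rfl

lemma wt_comp (q : Fin L → α → ℝ) (bJ : J → Fin L) (bK : K → Fin L) (t : J ⊕ (K ⊕ K) → α)
    {σ : Equiv.Perm (J ⊕ (K ⊕ K))} (hσ : σ ∈ Gam bJ bK) :
    wt (pI q bJ bK) (t ∘ σ) = wt (pI q bJ bK) t := by
  unfold wt pI
  rw [mem_Gam] at hσ
  have : ∀ i, q (blk bJ bK i) ((t ∘ σ) i) = (fun i => q (blk bJ bK i) (t i)) (σ i) := by
    intro i
    simp only [Function.comp_apply]
    rw [hσ]
  rw [Finset.prod_congr rfl fun i _ => this i]
  exact Equiv.prod_comp σ (fun i => q (blk bJ bK i) (t i))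

/-- reindexing sums over functions by a permutation of the positions -/
lemma sum_comp_perm (F : (J ⊕ (K ⊕ K) → α) → ℝ) (σ : Equiv.Perm (J ⊕ (K ⊕ K))) :
    ∑ t, F (t ∘ σ) = ∑ t, F t :=
  Fintype.sum_equiv (Equiv.arrowCongr σ.symm (Equiv.refl α)) _ _ (fun t => by
    congr 1)

lemma sum_asm (F : (J ⊕ (K ⊕ K) → α) → ℝ) :
    ∑ t, F t = ∑ S : J → α, ∑ X : K → α, ∑ Y : K → α, F (asm S X Y) := by
  have h1 : ∑ t, F t = ∑ x : (J → α) × ((K → α) × (K → α)), F (asm x.1 x.2.1 x.2.2) := by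
    refine Fintype.sum_equiv ((Equiv.sumArrowEquivProdArrow J (K ⊕ K) α).trans
      (Equiv.prodCongr (Equiv.refl _) (Equiv.sumArrowEquivProdArrow K K α))) _ _ ?_
    intro t
    congr 1
    funext i
    rcases i with j | k | k <;> rfl
  rw [h1, Fintype.sum_prod_type]
  refine Finset.sum_congr rfl fun S _ => ?_
  rw [Fintype.sum_prod_type]

variable (q : Fin L → α → ℝ) (bJ : J → Fin L) (bK : K → Fin L)
  (E : (K → α) → (K → α) → (K → α) → ℝ)

/-- cutoff indicator -/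
noncomputable def cut (C x : ℝ) : ℝ := if x ≤ C then 1 else 0

lemma cut_nonneg (C x : ℝ) : 0 ≤ cut C x := by unfold cut; split_ifs <;> norm_num

lemma cut_le_one (C x : ℝ) : cut C x ≤ 1 := by unfold cut; split_ifs <;> norm_num

lemma mul_cut_le {C x : ℝ} (hC : 0 < C) : x * (cut C x / C) ≤ 1 := by
  unfold cut
  split_ifs with h
  · rw [mul_one_div, div_le_one hC]; exact h
  · simp

lemma mul_one_sub_cut_le {C x : ℝ} (hC : 0 < C) (hx : 0 ≤ x) : x * (1 - cut C x) ≤ x ^ 2 / C := by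
  unfold cut
  split_ifs with h
  · simp; positivity
  · rw [le_div_iff₀ hC]
    push Not at h
    nlinarith

/-- conditional expectation of `E` given the positions -/
noncomputable def eE (t : J ⊕ (K ⊕ K) → α) : ℝ :=
  ∑ Z : K → α, wt (fun k => q (bK k)) Z *
    E (fun k => t (Sum.inr (Sum.inl k))) (fun k => t (Sum.inr (Sum.inr k))) Z

/-- average over block preserving permutations -/
noncomputable def TT (t : J ⊕ (K ⊕ K) → α) : ℝ :=
  (∑ σ ∈ Gam bJ bK, eE q bK E (t ∘ σ)) / (Gam bJ bK).card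

lemma Gam_card_pos : (0 : ℝ) < (Gam bJ bK).card := by
  exact_mod_cast Finset.card_pos.2 ⟨1, one_mem_Gam bJ bK⟩

variable {q} {E}

lemma eE_nonneg (hq0 : ∀ b a, 0 ≤ q b a) (hE : ∀ X Y Z, 0 ≤ E X Y Z) (t : J ⊕ (K ⊕ K) → α) :
    0 ≤ eE q bK E t := by
  unfold eE
  exact Finset.sum_nonneg fun Z _ => mul_nonneg (wt_nonneg (fun k a => hq0 _ _) Z) (hE _ _ _)

lemma TT_nonneg (hq0 : ∀ b a, 0 ≤ q b a) (hE : ∀ X Y Z, 0 ≤ E X Y Z) (t : J ⊕ (K ⊕ K) → α) :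
    0 ≤ TT q bJ bK E t := by
  unfold TT
  exact div_nonneg (Finset.sum_nonneg fun σ _ => eE_nonneg bK hq0 hE _) (by positivity)

lemma TT_comp (t : J ⊕ (K ⊕ K) → α) {τ : Equiv.Perm (J ⊕ (K ⊕ K))} (hτ : τ ∈ Gam bJ bK) :
    TT q bJ bK E (t ∘ τ) = TT q bJ bK E t := by
  unfold TT
  congr 1
  refine Finset.sum_bij' (fun σ _ => τ * σ) (fun σ _ => τ⁻¹ * σ) ?_ ?_ ?_ ?_ ?_
  · intro σ hσ
    exact mul_mem_Gam hτ hσ
  · intro σ hσ
    exact mul_mem_Gam (inv_mem_Gam hτ) hσ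
  · intro σ hσ
    simp
  · intro σ hσ
    simp
  · intro σ hσ
    congr 1

/-- replace `eE` by its average against invariant functions -/
lemma sum_eE_inv (φ : (J ⊕ (K ⊕ K) → α) → ℝ) (hφ : ∀ t, ∀ σ ∈ Gam bJ bK, φ (t ∘ σ) = φ t) :
    ∑ t, wt (pI q bJ bK) t * (eE q bK E t * φ t) = ∑ t, wt (pI q bJ bK) t * (TT q bJ bK E t * φ t) := by
  have h : ∀ σ ∈ Gam bJ bK, ∑ t, wt (pI q bJ bK) t * (eE q bK E t * φ t) =
      ∑ t, wt (pI q bJ bK) t * (eE q bK E (t ∘ σ) * φ t) := by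
    intro σ hσ
    rw [← sum_comp_perm (fun t => wt (pI q bJ bK) t * (eE q bK E t * φ t)) σ]
    refine Finset.sum_congr rfl fun t _ => ?_
    rw [wt_comp q bJ bK t hσ, hφ t σ hσ]
  have hc := Gam_card_pos bJ bK
  have h2 : ((Gam bJ bK).card : ℝ) * ∑ t, wt (pI q bJ bK) t * (eE q bK E t * φ t) =
      ∑ σ ∈ Gam bJ bK, ∑ t, wt (pI q bJ bK) t * (eE q bK E (t ∘ σ) * φ t) := by
    rw [← Finset.sum_congr rfl h, Finset.sum_const, nsmul_eq_mul]
  have h3 : ((Gam bJ bK).card : ℝ) * ∑ t, wt (pI q bJ bK) t * (TT q bJ bK E t * φ t) =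
      ∑ σ ∈ Gam bJ bK, ∑ t, wt (pI q bJ bK) t * (eE q bK E (t ∘ σ) * φ t) := by
    rw [Finset.sum_comm, Finset.mul_sum]
    refine Finset.sum_congr rfl fun t _ => ?_
    unfold TT
    rw [← Finset.mul_sum, ← Finset.sum_mul]
    field_simp
  exact mul_left_cancel₀ hc.ne' (h2.trans h3.symm)

/-- second moment bound -/
lemma second_moment (hq0 : ∀ b a, 0 ≤ q b a) (hE : ∀ X Y Z, 0 ≤ E X Y Z)
    (u : (J ⊕ (K ⊕ K) → α) → ℝ) (hu : ∀ t, 0 ≤ u t) (ρ : ℝ) (hρ : 0 ≤ ρ)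
    (he : ∀ t, eE q bK E t ≤ ρ * u t) :
    ∑ t, wt (pI q bJ bK) t * (TT q bJ bK E t) ^ 2 ≤
      ρ ^ 2 * ((∑ σ ∈ Gam bJ bK, ∑ t, wt (pI q bJ bK) t * (u t * u (t ∘ σ))) / (Gam bJ bK).card) := by
  have hc := Gam_card_pos bJ bK
  have h1 : ∑ t, wt (pI q bJ bK) t * (TT q bJ bK E t) ^ 2 =
      ∑ t, wt (pI q bJ bK) t * (eE q bK E t * TT q bJ bK E t) := by
    rw [sum_eE_inv bJ bK (TT q bJ bK E) (fun t σ hσ => TT_comp bJ bK t hσ)]
    refine Finset.sum_congr rfl fun t _ => by ring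
  rw [h1]
  have h2 : ∑ t, wt (pI q bJ bK) t * (eE q bK E t * TT q bJ bK E t) =
      (∑ σ ∈ Gam bJ bK, ∑ t, wt (pI q bJ bK) t * (eE q bK E t * eE q bK E (t ∘ σ))) / (Gam bJ bK).card := by
    rw [Finset.sum_comm, Finset.sum_div]
    refine Finset.sum_congr rfl fun t _ => ?_
    unfold TT
    rw [← Finset.mul_sum, ← Finset.mul_sum]
    ring
  rw [h2, mul_div_assoc']
  refine div_le_div_of_nonneg_right ?_ hc.le
  rw [Finset.mul_sum]
  refine Finset.sum_le_sum fun σ _ => ?_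
  rw [Finset.mul_sum]
  refine Finset.sum_le_sum fun t _ => ?_
  have hw : 0 ≤ wt (pI q bJ bK) t := wt_nonneg (fun i a => hq0 _ _) t
  calc wt (pI q bJ bK) t * (eE q bK E t * eE q bK E (t ∘ σ))
      ≤ wt (pI q bJ bK) t * ((ρ * u t) * (ρ * u (t ∘ σ))) := by
        refine mul_le_mul_of_nonneg_left ?_ hw
        exact mul_le_mul (he t) (he _) (eE_nonneg bK hq0 hE _) (mul_nonneg hρ (hu t))
    _ = ρ ^ 2 * (wt (pI q bJ bK) t * (u t * u (t ∘ σ))) := by ring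

/-- integrate out the third family -/
lemma sum_out (φ : (J ⊕ (K ⊕ K) → α) → ℝ) :
    ∑ S, ∑ X, ∑ Y, ∑ Z, wt (pI q bJ bK) (asm S X Y) * wt (fun k => q (bK k)) Z * E X Y Z * φ (asm S X Y) =
      ∑ t, wt (pI q bJ bK) t * (eE q bK E t * φ t) := by
  rw [sum_asm]
  refine Finset.sum_congr rfl fun S _ => Finset.sum_congr rfl fun X _ => Finset.sum_congr rfl fun Y _ => ?_
  unfold eE
  rw [Finset.sum_mul, Finset.mul_sum]
  refine Finset.sum_congr rfl fun Z _ => ?_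
  simp only [asm, Sum.elim_inr, Sum.elim_inl]
  ring

/-- the basic domination -/
lemma dom_basic (hq0 : ∀ b a, 0 ≤ q b a) (C : ℝ) (hC : 0 < C)
    (W : (J → α) → (K → α) → (K → α) → (K → α) → ℝ)
    (hW : ∀ S X Y Z, W S X Y Z ≤ 
      wt (pI q bJ bK) (asm S X Y) * wt (fun k => q (bK k)) Z * E X Y Z *
        (cut C (TT q bJ bK E (asm S X Y)) / C))
    (h : (J ⊕ (K ⊕ K) → α) → ℝ) (hh : ∀ t, 0 ≤ h t) (hinv : ∀ t, ∀ σ ∈ Gam bJ bK, h (t ∘ σ) = h t) :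
    ∑ S, ∑ X, ∑ Y, ∑ Z, W S X Y Z * h (asm S X Y) ≤ ∑ t, wt (pI q bJ bK) t * h t := by
  let φ : (J ⊕ (K ⊕ K) → α) → ℝ := fun t => cut C (TT q bJ bK E t) / C * h t
  have hφ : ∀ t, ∀ σ ∈ Gam bJ bK, φ (t ∘ σ) = φ t := by
    intro t σ hσ
    simp only [φ]
    rw [TT_comp bJ bK t hσ, hinv t σ hσ]
  calc ∑ S, ∑ X, ∑ Y, ∑ Z, W S X Y Z * h (asm S X Y)
      ≤ ∑ S, ∑ X, ∑ Y, ∑ Z, wt (pI q bJ bK) (asm S X Y) * wt (fun k => q (bK k)) Z * E X Y Z *
        φ (asm S X Y) := by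
        refine Finset.sum_le_sum fun S _ => Finset.sum_le_sum fun X _ => Finset.sum_le_sum fun Y _ =>
          Finset.sum_le_sum fun Z _ => ?_
        have := mul_le_mul_of_nonneg_right (hW S X Y Z) (hh (asm S X Y))
        simp only [φ]
        linarith
    _ = ∑ t, wt (pI q bJ bK) t * (eE q bK E t * φ t) := sum_out bJ bK φ
    _ = ∑ t, wt (pI q bJ bK) t * (TT q bJ bK E t * φ t) := sum_eE_inv bJ bK φ hφ
    _ ≤ ∑ t, wt (pI q bJ bK) t * h t := by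
        refine Finset.sum_le_sum fun t _ => mul_le_mul_of_nonneg_left ?_ (wt_nonneg (fun i a => hq0 _ _) t)
        simp only [φ]
        have h1 := mul_cut_le (x := TT q bJ bK E t) hC
        have h2 := mul_le_mul_of_nonneg_right h1 (hh t)
        linarith

/-- tail bound -/
lemma tail_basic (hq0 : ∀ b a, 0 ≤ q b a) (hE : ∀ X Y Z, 0 ≤ E X Y Z) (C V : ℝ) (hC : 0 < C)
    (hV : ∑ t, wt (pI q bJ bK) t * (TT q bJ bK E t) ^ 2 ≤ V) :
    ∑ S, ∑ X, ∑ Y, ∑ Z, wt (pI q bJ bK) (asm S X Y) * wt (fun k => q (bK k)) Z * E X Y Z *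
        (1 - cut C (TT q bJ bK E (asm S X Y))) ≤ V / C := by
  let φ : (J ⊕ (K ⊕ K) → α) → ℝ := fun t => 1 - cut C (TT q bJ bK E t)
  have hφ : ∀ t, ∀ σ ∈ Gam bJ bK, φ (t ∘ σ) = φ t := by
    intro t σ hσ
    simp only [φ]
    rw [TT_comp bJ bK t hσ]
  calc ∑ S, ∑ X, ∑ Y, ∑ Z, wt (pI q bJ bK) (asm S X Y) * wt (fun k => q (bK k)) Z * E X Y Z *
        φ (asm S X Y)
      = ∑ t, wt (pI q bJ bK) t * (eE q bK E t * φ t) := sum_out bJ bK φ
    _ = ∑ t, wt (pI q bJ bK) t * (TT q bJ bK E t * φ t) := sum_eE_inv bJ bK φ hφ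
    _ ≤ ∑ t, wt (pI q bJ bK) t * ((TT q bJ bK E t) ^ 2 / C) := by
        refine Finset.sum_le_sum fun t _ => mul_le_mul_of_nonneg_left ?_ (wt_nonneg (fun i a => hq0 _ _) t)
        exact mul_one_sub_cut_le hC (TT_nonneg bJ bK hq0 hE t)
    _ = (∑ t, wt (pI q bJ bK) t * (TT q bJ bK E t) ^ 2) / C := by
        rw [Finset.sum_div]
        exact Finset.sum_congr rfl fun t _ => by ring
    _ ≤ V / C := div_le_div_of_nonneg_right hV hC.le

lemma swap13 {β : Type} [Fintype β] (G : β → β → β → ℝ) :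
    ∑ X, ∑ Y, ∑ Z, G X Y Z = ∑ X, ∑ Y, ∑ Z, G Z Y X := by
  calc ∑ X, ∑ Y, ∑ Z, G X Y Z = ∑ Y, ∑ X, ∑ Z, G X Y Z := Finset.sum_comm
    _ = ∑ Y, ∑ Z, ∑ X, G X Y Z := Finset.sum_congr rfl fun Y _ => Finset.sum_comm
    _ = ∑ Z, ∑ Y, ∑ X, G X Y Z := Finset.sum_comm

lemma swap23 {β : Type} [Fintype β] (G : β → β → β → ℝ) :
    ∑ X, ∑ Y, ∑ Z, G X Y Z = ∑ X, ∑ Y, ∑ Z, G X Z Y :=
  Finset.sum_congr rfl fun _ _ => Finset.sum_comm

/-- truncated weights of configurations -/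
noncomputable def WW (q : Fin L → α → ℝ) (bJ : J → Fin L) (bK : K → Fin L)
    (E Es : (K → α) → (K → α) → (K → α) → ℝ) (C : ℝ) (S : J → α) (X Y Z : K → α) : ℝ :=
  wt (fun j => q (bJ j)) S * (wt (fun k => q (bK k)) X * wt (fun k => q (bK k)) Y * wt (fun k => q (bK k)) Z) *
    Es X Y Z * (cut C (TT q bJ bK E (asm S X Y)) * cut C (TT q bJ bK E (asm S Z Y)) *
      cut C (TT q bJ bK E (asm S X Z))) / C

variable {Es : (K → α) → (K → α) → (K → α) → ℝ}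

lemma WW_nonneg (hq0 : ∀ b a, 0 ≤ q b a) (hEs : ∀ X Y Z, 0 ≤ Es X Y Z) (C : ℝ) (hC : 0 < C)
    (S : J → α) (X Y Z : K → α) : 0 ≤ WW q bJ bK E Es C S X Y Z := by
  unfold WW
  have h1 : 0 ≤ wt (fun j => q (bJ j)) S := wt_nonneg (fun _ _ => hq0 _ _) _
  have h2 : ∀ U : K → α, 0 ≤ wt (fun k => q (bK k)) U := fun U => wt_nonneg (fun _ _ => hq0 _ _) _
  have h3 := hEs X Y Z
  have := h2 X
  have := h2 Y
  have := h2 Z
  have := cut_nonneg C (TT q bJ bK E (asm S X Y))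
  have := cut_nonneg C (TT q bJ bK E (asm S Z Y))
  have := cut_nonneg C (TT q bJ bK E (asm S X Z))
  positivity

lemma three_cut (C a b c : ℝ) : cut C a * cut C b * cut C c ≤ cut C a := by
  unfold cut; split_ifs <;> norm_num

lemma WW_le (hq0 : ∀ b a, 0 ≤ q b a) (hEs : ∀ X Y Z, 0 ≤ Es X Y Z) (hEE : ∀ X Y Z, Es X Y Z ≤ E X Y Z)
    (C : ℝ) (hC : 0 < C) (S : J → α) (X Y Z : K → α) :
    WW q bJ bK E Es C S X Y Z ≤ wt (pI q bJ bK) (asm S X Y) * wt (fun k => q (bK k)) Z * E X Y Z *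
        (cut C (TT q bJ bK E (asm S X Y)) / C) := by
  unfold WW
  rw [wt_asm]
  have h1 : 0 ≤ wt (fun j => q (bJ j)) S := wt_nonneg (fun _ _ => hq0 _ _) _
  have h2 : ∀ U : K → α, 0 ≤ wt (fun k => q (bK k)) U := fun U => wt_nonneg (fun _ _ => hq0 _ _) _
  have h4 := h2 X
  have h5 := h2 Y
  have h6 := h2 Z
  have h7 : wt (fun j => q (bJ j)) S * (wt (fun k => q (bK k)) X * wt (fun k => q (bK k)) Y * wt (fun k => q (bK k)) Z) *
      Es X Y Z ≤ wt (fun j => q (bJ j)) S * (wt (fun k => q (bK k)) X * wt (fun k => q (bK k)) Y * wt (fun k => q (bK k)) Z) *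
      E X Y Z := mul_le_mul_of_nonneg_left (hEE X Y Z) (by positivity)
  have h8 := three_cut C (TT q bJ bK E (asm S X Y)) (TT q bJ bK E (asm S Z Y)) (TT q bJ bK E (asm S X Z))
  have h9 := cut_nonneg C (TT q bJ bK E (asm S X Y))
  have h10 : 0 ≤ E X Y Z := (hEs X Y Z).trans (hEE X Y Z)
  calc _ ≤ wt (fun j => q (bJ j)) S * (wt (fun k => q (bK k)) X * wt (fun k => q (bK k)) Y * wt (fun k => q (bK k)) Z) *
      E X Y Z * cut C (TT q bJ bK E (asm S X Y)) / C := by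
        refine div_le_div_of_nonneg_right ?_ hC.le
        refine mul_le_mul h7 h8 ?_ (by positivity)
        have := cut_nonneg C (TT q bJ bK E (asm S Z Y))
        have := cut_nonneg C (TT q bJ bK E (asm S X Z))
        positivity
    _ = _ := by ring

lemma WW_swap13 (hEs1 : ∀ X Y Z, Es X Y Z = Es Z Y X) (hEs2 : ∀ X Y Z, Es X Y Z = Es X Z Y)
    (C : ℝ) (hC : 0 < C) (hq0 : ∀ b a, 0 ≤ q b a) (hEs : ∀ X Y Z, 0 ≤ Es X Y Z) (hEE : ∀ X Y Z, Es X Y Z ≤ E X Y Z)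
    (S : J → α) (X Y Z : K → α) :
    WW q bJ bK E Es C S Z Y X ≤ wt (pI q bJ bK) (asm S X Y) * wt (fun k => q (bK k)) Z * E X Y Z *
        (cut C (TT q bJ bK E (asm S X Y)) / C) := by
  unfold WW
  rw [wt_asm, ← hEs1]
  have h1 : 0 ≤ wt (fun j => q (bJ j)) S := wt_nonneg (fun _ _ => hq0 _ _) _
  have h2 : ∀ U : K → α, 0 ≤ wt (fun k => q (bK k)) U := fun U => wt_nonneg (fun _ _ => hq0 _ _) _
  have h4 := h2 X
  have h5 := h2 Y
  have h6 := h2 Z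
  have h7 : wt (fun j => q (bJ j)) S * (wt (fun k => q (bK k)) Z * wt (fun k => q (bK k)) Y * wt (fun k => q (bK k)) X) *
      Es X Y Z ≤ wt (fun j => q (bJ j)) S * (wt (fun k => q (bK k)) Z * wt (fun k => q (bK k)) Y * wt (fun k => q (bK k)) X) *
      E X Y Z := mul_le_mul_of_nonneg_left (hEE X Y Z) (by positivity)
  have h8 := three_cut C (TT q bJ bK E (asm S X Y)) (TT q bJ bK E (asm S Z Y)) (TT q bJ bK E (asm S Z X))
  have h9 := cut_nonneg C (TT q bJ bK E (asm S X Y))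
  have h10 : 0 ≤ E X Y Z := (hEs X Y Z).trans (hEE X Y Z)
  have h11 : cut C (TT q bJ bK E (asm S Z Y)) * cut C (TT q bJ bK E (asm S X Y)) * cut C (TT q bJ bK E (asm S Z X))
      ≤ cut C (TT q bJ bK E (asm S X Y)) := by linarith
  calc _ ≤ wt (fun j => q (bJ j)) S * (wt (fun k => q (bK k)) Z * wt (fun k => q (bK k)) Y * wt (fun k => q (bK k)) X) *
      E X Y Z * cut C (TT q bJ bK E (asm S X Y)) / C := by
        refine div_le_div_of_nonneg_right ?_ hC.le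
        refine mul_le_mul h7 h11 ?_ (by positivity)
        have := cut_nonneg C (TT q bJ bK E (asm S Z Y))
        have := cut_nonneg C (TT q bJ bK E (asm S Z X))
        positivity
    _ = _ := by ring

lemma WW_swap23 (hEs1 : ∀ X Y Z, Es X Y Z = Es Z Y X) (hEs2 : ∀ X Y Z, Es X Y Z = Es X Z Y)
    (C : ℝ) (hC : 0 < C) (hq0 : ∀ b a, 0 ≤ q b a) (hEs : ∀ X Y Z, 0 ≤ Es X Y Z) (hEE : ∀ X Y Z, Es X Y Z ≤ E X Y Z)
    (S : J → α) (X Y Z : K → α) :
    WW q bJ bK E Es C S X Z Y ≤ wt (pI q bJ bK) (asm S X Y) * wt (fun k => q (bK k)) Z * E X Y Z *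
        (cut C (TT q bJ bK E (asm S X Y)) / C) := by
  unfold WW
  rw [wt_asm, ← hEs2]
  have h1 : 0 ≤ wt (fun j => q (bJ j)) S := wt_nonneg (fun _ _ => hq0 _ _) _
  have h2 : ∀ U : K → α, 0 ≤ wt (fun k => q (bK k)) U := fun U => wt_nonneg (fun _ _ => hq0 _ _) _
  have h4 := h2 X
  have h5 := h2 Y
  have h6 := h2 Z
  have h7 : wt (fun j => q (bJ j)) S * (wt (fun k => q (bK k)) X * wt (fun k => q (bK k)) Z * wt (fun k => q (bK k)) Y) *
      Es X Y Z ≤ wt (fun j => q (bJ j)) S * (wt (fun k => q (bK k)) X * wt (fun k => q (bK k)) Z * wt (fun k => q (bK k)) Y) *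
      E X Y Z := mul_le_mul_of_nonneg_left (hEE X Y Z) (by positivity)
  have h8 := three_cut C (TT q bJ bK E (asm S X Y)) (TT q bJ bK E (asm S X Z)) (TT q bJ bK E (asm S Y Z))
  have h9 := cut_nonneg C (TT q bJ bK E (asm S X Y))
  have h10 : 0 ≤ E X Y Z := (hEs X Y Z).trans (hEE X Y Z)
  have h11 : cut C (TT q bJ bK E (asm S X Z)) * cut C (TT q bJ bK E (asm S Y Z)) * cut C (TT q bJ bK E (asm S X Y))
      ≤ cut C (TT q bJ bK E (asm S X Y)) := by linarith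
  calc _ ≤ wt (fun j => q (bJ j)) S * (wt (fun k => q (bK k)) X * wt (fun k => q (bK k)) Z * wt (fun k => q (bK k)) Y) *
      E X Y Z * cut C (TT q bJ bK E (asm S X Y)) / C := by
        refine div_le_div_of_nonneg_right ?_ hC.le
        refine mul_le_mul h7 h11 ?_ (by positivity)
        have := cut_nonneg C (TT q bJ bK E (asm S X Z))
        have := cut_nonneg C (TT q bJ bK E (asm S Y Z))
        positivity
    _ = _ := by ring

/-- domination for the three marginals -/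
lemma WW_dom (hEs1 : ∀ X Y Z, Es X Y Z = Es Z Y X) (hEs2 : ∀ X Y Z, Es X Y Z = Es X Z Y)
    (C : ℝ) (hC : 0 < C) (hq0 : ∀ b a, 0 ≤ q b a) (hEs : ∀ X Y Z, 0 ≤ Es X Y Z) (hEE : ∀ X Y Z, Es X Y Z ≤ E X Y Z)
    (h : (J ⊕ (K ⊕ K) → α) → ℝ) (hh : ∀ t, 0 ≤ h t) (hinv : ∀ t, ∀ σ ∈ Gam bJ bK, h (t ∘ σ) = h t) :
    (∑ S, ∑ X, ∑ Y, ∑ Z, WW q bJ bK E Es C S X Y Z * h (asm S X Y) ≤ ∑ t, wt (pI q bJ bK) t * h t) ∧
    (∑ S, ∑ X, ∑ Y, ∑ Z, WW q bJ bK E Es C S X Y Z * h (asm S Z Y) ≤ ∑ t, wt (pI q bJ bK) t * h t) ∧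
    (∑ S, ∑ X, ∑ Y, ∑ Z, WW q bJ bK E Es C S X Y Z * h (asm S X Z) ≤ ∑ t, wt (pI q bJ bK) t * h t) := by
  refine ⟨?_, ?_, ?_⟩
  · exact dom_basic bJ bK hq0 C hC _ (fun S X Y Z => WW_le bJ bK hq0 hEs hEE C hC S X Y Z) h hh hinv
  · have e : ∑ S, ∑ X, ∑ Y, ∑ Z, WW q bJ bK E Es C S X Y Z * h (asm S Z Y) =
        ∑ S, ∑ X, ∑ Y, ∑ Z, WW q bJ bK E Es C S Z Y X * h (asm S X Y) :=
      Finset.sum_congr rfl fun S _ => swap13 (fun X Y Z => WW q bJ bK E Es C S X Y Z * h (asm S Z Y))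
    rw [e]
    exact dom_basic bJ bK hq0 C hC (fun S X Y Z => WW q bJ bK E Es C S Z Y X)
      (fun S X Y Z => WW_swap13 bJ bK hEs1 hEs2 C hC hq0 hEs hEE S X Y Z) h hh hinv
  · have e : ∑ S, ∑ X, ∑ Y, ∑ Z, WW q bJ bK E Es C S X Y Z * h (asm S X Z) =
        ∑ S, ∑ X, ∑ Y, ∑ Z, WW q bJ bK E Es C S X Z Y * h (asm S X Y) :=
      Finset.sum_congr rfl fun S _ => swap23 (fun X Y Z => WW q bJ bK E Es C S X Y Z * h (asm S X Z))
    rw [e]
    exact dom_basic bJ bK hq0 C hC (fun S X Y Z => WW q bJ bK E Es C S X Z Y)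
      (fun S X Y Z => WW_swap23 bJ bK hEs1 hEs2 C hC hq0 hEs hEE S X Y Z) h hh hinv

lemma three_cut_lower (C a b c : ℝ) : 1 - (1 - cut C a) - (1 - cut C b) - (1 - cut C c) ≤ cut C a * cut C b * cut C c := by
  unfold cut; split_ifs <;> norm_num

/-- lower bound for the total truncated mass -/
lemma WW_mass (hE1 : ∀ X Y Z, E X Y Z = E Z Y X) (hE2 : ∀ X Y Z, E X Y Z = E X Z Y)
    (C V : ℝ) (hC : 0 < C) (hq0 : ∀ b a, 0 ≤ q b a) (hq1 : ∀ b, ∑ a, q b a = 1)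
    (hEs : ∀ X Y Z, 0 ≤ Es X Y Z) (hEE : ∀ X Y Z, Es X Y Z ≤ E X Y Z)
    (hV : ∑ t, wt (pI q bJ bK) t * (TT q bJ bK E t) ^ 2 ≤ V) :
    ((∑ X, ∑ Y, ∑ Z, wt (fun k => q (bK k)) X * wt (fun k => q (bK k)) Y * wt (fun k => q (bK k)) Z * Es X Y Z)
      - 3 * (V / C)) / C ≤ ∑ S, ∑ X, ∑ Y, ∑ Z, WW q bJ bK E Es C S X Y Z := by
  have hE : ∀ X Y Z, 0 ≤ E X Y Z := fun X Y Z => (hEs X Y Z).trans (hEE X Y Z)
  have ht := tail_basic bJ bK hq0 hE C V hC hV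
  -- three tails
  have t1 : ∑ S, ∑ X, ∑ Y, ∑ Z, wt (fun j => q (bJ j)) S * (wt (fun k => q (bK k)) X * wt (fun k => q (bK k)) Y * wt (fun k => q (bK k)) Z) * E X Y Z *
        (1 - cut C (TT q bJ bK E (asm S X Y))) ≤ V / C := by
    refine le_trans (le_of_eq ?_) ht
    refine Finset.sum_congr rfl fun S _ => Finset.sum_congr rfl fun X _ => Finset.sum_congr rfl fun Y _ =>
      Finset.sum_congr rfl fun Z _ => ?_
    rw [wt_asm]; ring
  have t2 : ∑ S, ∑ X, ∑ Y, ∑ Z, wt (fun j => q (bJ j)) S * (wt (fun k => q (bK k)) X * wt (fun k => q (bK k)) Y * wt (fun k => q (bK k)) Z) * E X Y Z *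
        (1 - cut C (TT q bJ bK E (asm S Z Y))) ≤ V / C := by
    refine le_trans (le_of_eq ?_) t1
    refine Finset.sum_congr rfl fun S _ => ?_
    rw [swap13]
    refine Finset.sum_congr rfl fun X _ => Finset.sum_congr rfl fun Y _ =>
      Finset.sum_congr rfl fun Z _ => ?_
    rw [← hE1]; ring
  have t3 : ∑ S, ∑ X, ∑ Y, ∑ Z, wt (fun j => q (bJ j)) S * (wt (fun k => q (bK k)) X * wt (fun k => q (bK k)) Y * wt (fun k => q (bK k)) Z) * E X Y Z *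
        (1 - cut C (TT q bJ bK E (asm S X Z))) ≤ V / C := by
    refine le_trans (le_of_eq ?_) t1
    refine Finset.sum_congr rfl fun S _ => ?_
    rw [swap23]
    refine Finset.sum_congr rfl fun X _ => Finset.sum_congr rfl fun Y _ =>
      Finset.sum_congr rfl fun Z _ => ?_
    rw [← hE2]; ring
  have t0 : ∑ X, ∑ Y, ∑ Z, wt (fun k => q (bK k)) X * wt (fun k => q (bK k)) Y * wt (fun k => q (bK k)) Z * Es X Y Z
      = ∑ S, ∑ X, ∑ Y, ∑ Z, wt (fun j => q (bJ j)) S * (wt (fun k => q (bK k)) X * wt (fun k => q (bK k)) Y * wt (fun k => q (bK k)) Z) * Es X Y Z := by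
    have : ∀ S : J → α, ∑ X, ∑ Y, ∑ Z, wt (fun j => q (bJ j)) S * (wt (fun k => q (bK k)) X * wt (fun k => q (bK k)) Y * wt (fun k => q (bK k)) Z) * Es X Y Z
        = wt (fun j => q (bJ j)) S * ∑ X, ∑ Y, ∑ Z, wt (fun k => q (bK k)) X * wt (fun k => q (bK k)) Y * wt (fun k => q (bK k)) Z * Es X Y Z := by
      intro S
      rw [Finset.mul_sum]
      refine Finset.sum_congr rfl fun X _ => ?_
      rw [Finset.mul_sum]
      refine Finset.sum_congr rfl fun Y _ => ?_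
      rw [Finset.mul_sum]
      refine Finset.sum_congr rfl fun Z _ => by ring
    rw [Finset.sum_congr rfl fun S _ => this S, ← Finset.sum_mul, sum_wt (fun j => hq1 _), one_mul]
  rw [div_le_iff₀ hC, Finset.sum_mul]
  have key : ∑ S, ∑ X, ∑ Y, ∑ Z, (wt (fun j => q (bJ j)) S * (wt (fun k => q (bK k)) X * wt (fun k => q (bK k)) Y * wt (fun k => q (bK k)) Z) * Es X Y Z
      - wt (fun j => q (bJ j)) S * (wt (fun k => q (bK k)) X * wt (fun k => q (bK k)) Y * wt (fun k => q (bK k)) Z) * E X Y Z *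
        (1 - cut C (TT q bJ bK E (asm S X Y)))
      - wt (fun j => q (bJ j)) S * (wt (fun k => q (bK k)) X * wt (fun k => q (bK k)) Y * wt (fun k => q (bK k)) Z) * E X Y Z *
        (1 - cut C (TT q bJ bK E (asm S Z Y)))
      - wt (fun j => q (bJ j)) S * (wt (fun k => q (bK k)) X * wt (fun k => q (bK k)) Y * wt (fun k => q (bK k)) Z) * E X Y Z *
        (1 - cut C (TT q bJ bK E (asm S X Z)))) ≤ ∑ S, (∑ X, ∑ Y, ∑ Z, WW q bJ bK E Es C S X Y Z) * C := by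
    refine Finset.sum_le_sum fun S _ => ?_
    rw [Finset.sum_mul]
    refine Finset.sum_le_sum fun X _ => ?_
    rw [Finset.sum_mul]
    refine Finset.sum_le_sum fun Y _ => ?_
    rw [Finset.sum_mul]
    refine Finset.sum_le_sum fun Z _ => ?_
    unfold WW
    rw [div_mul_cancel₀ _ hC.ne']
    have h1 : 0 ≤ wt (fun j => q (bJ j)) S := wt_nonneg (fun _ _ => hq0 _ _) _
    have h2 : ∀ U : K → α, 0 ≤ wt (fun k => q (bK k)) U := fun U => wt_nonneg (fun _ _ => hq0 _ _) _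
    have h4 := h2 X
    have h5 := h2 Y
    have h6 := h2 Z
    set w := wt (fun j => q (bJ j)) S * (wt (fun k => q (bK k)) X * wt (fun k => q (bK k)) Y * wt (fun k => q (bK k)) Z) with hw
    have hw0 : 0 ≤ w := by positivity
    have h7 := three_cut_lower C (TT q bJ bK E (asm S X Y)) (TT q bJ bK E (asm S Z Y)) (TT q bJ bK E (asm S X Z))
    set a := cut C (TT q bJ bK E (asm S X Y))
    set b := cut C (TT q bJ bK E (asm S Z Y))
    set c := cut C (TT q bJ bK E (asm S X Z))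
    have ha : 0 ≤ 1 - a := by have := cut_le_one C (TT q bJ bK E (asm S X Y)); simp only [a]; linarith
    have hb : 0 ≤ 1 - b := by have := cut_le_one C (TT q bJ bK E (asm S Z Y)); simp only [b]; linarith
    have hc : 0 ≤ 1 - c := by have := cut_le_one C (TT q bJ bK E (asm S X Z)); simp only [c]; linarith
    have h8 : w * Es X Y Z * (1 - (1 - a) - (1 - b) - (1 - c)) ≤ w * Es X Y Z * (a * b * c) :=
      mul_le_mul_of_nonneg_left h7 (mul_nonneg hw0 (hEs X Y Z))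
    have h9 : w * Es X Y Z ≤ w * E X Y Z := mul_le_mul_of_nonneg_left (hEE X Y Z) hw0
    have h10 := mul_le_mul_of_nonneg_right h9 ha
    have h11 := mul_le_mul_of_nonneg_right h9 hb
    have h12 := mul_le_mul_of_nonneg_right h9 hc
    nlinarith
  refine le_trans ?_ key
  simp only [Finset.sum_sub_distrib]
  rw [t0]
  linarith

end Sym

end Pool.Agent.Helper426
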