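import Mathlib
import Pool.Agent.Helper426.Sym

set_option autoImplicit false
set_option linter.unusedSectionVars false

namespace Pool.Agent.Helper426

open Finset

section Count

variable {I V : Type} [Fintype I] [DecidableEq I] [Fintype V] [DecidableEq V]

lemma count_le (F1 F2 : I → V) :
    (univ.filter fun τ : Equiv.Perm I => F1 ∘ τ = F2).card ≤
      ∏ v, (Nat.factorial (univ.filter fun i => F1 i = v).card) := by
  have hst : Fintype.card {g : Equiv.Perm I // F1 ∘ g = F1} = ∏ v, (Nat.factorial (univ.filter fun i => F1 i = v).card) := by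
    rw [DomMulAct.stabilizer_card]
    refine Finset.prod_congr rfl fun v _ => ?_
    rw [Fintype.card_subtype]
  rw [← hst, Fintype.card_subtype]
  rcases (univ.filter fun τ : Equiv.Perm I => F1 ∘ τ = F2).eq_empty_or_nonempty with h | ⟨τ0, h0⟩
  · rw [h]; simp
  · have h0' : F1 ∘ τ0 = F2 := (Finset.mem_filter.1 h0).2
    refine Finset.card_le_card_of_injOn (fun τ => τ * τ0⁻¹) ?_ ?_
    · intro τ hτ
      have hτ' : F1 ∘ τ = F2 := (Finset.mem_filter.1 hτ).2
      simp only [Finset.coe_filter, Finset.mem_univ, true_and, Set.mem_ofPred_eq]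
      funext i
      have h1 : F1 (τ (τ0⁻¹ i)) = F2 (τ0⁻¹ i) := congrFun hτ' _
      have h2 : F1 (τ0 (τ0⁻¹ i)) = F2 (τ0⁻¹ i) := congrFun h0' _
      have h3 : τ0 (τ0⁻¹ i) = i := by simp
      rw [h3] at h2
      show F1 ((τ * τ0⁻¹) i) = F1 i
      rw [Equiv.Perm.mul_apply, h1, h2]
    · intro τ _ τ' _ h
      exact mul_right_cancel h

end Count

section Second

variable {α J K : Type} [Fintype α] [DecidableEq α] [Fintype J] [DecidableEq J] [Fintype K]
  [DecidableEq K] {M : ℕ}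

/-- signs -/
def sg : J ⊕ (K ⊕ K) → ℤ := Sum.elim (fun _ => 0) (Sum.elim (fun _ => 1) (fun _ => -1))

/-- marks -/
def mk3 : J ⊕ (K ⊕ K) → Fin 3 := Sum.elim (fun _ => 0) (Sum.elim (fun _ => 1) (fun _ => 2))

/-- swap of the marks one and two -/
def sw (s : Bool) (c : Fin 3) : Fin 3 := if s then c else (if c = 0 then 0 else if c = 1 then 2 else 1)

/-- sign attached to a boolean -/
def sgb (s : Bool) : ℤ := if s then 1 else -1

lemma sg_eq_iff (s : Bool) (i j : J ⊕ (K ⊕ K)) : sg j = sgb s * sg i ↔ mk3 j = sw s (mk3 i) := by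
  rcases i with i | i | i <;> rcases j with j | j | j <;> cases s <;> simp [sg, mk3, sw, sgb]

/-- agreement of two markings on the blocks with index less than `m` -/
def Agree (bJ : J → Fin (M + 1)) (bK : K → Fin (M + 1)) (s : Bool) (m : ℕ) (σ : Equiv.Perm (J ⊕ (K ⊕ K))) : Prop :=
  ∀ i, (blk bJ bK i).val < m → sg (σ⁻¹ i) = sgb s * sg i

instance (bJ : J → Fin (M + 1)) (bK : K → Fin (M + 1)) (s : Bool) (m : ℕ) :
    DecidablePred (Agree bJ bK s m) := fun σ => by unfold Agree; infer_instance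

variable (bJ : J → Fin (M + 1)) (bK : K → Fin (M + 1)) (n g : Fin (M + 1) → ℕ)

lemma card_filter_sum (P : J ⊕ (K ⊕ K) → Prop) [DecidablePred P] :
    (univ.filter P).card = (univ.filter fun j : J => P (Sum.inl j)).card +
      ((univ.filter fun k : K => P (Sum.inr (Sum.inl k))).card + (univ.filter fun k : K => P (Sum.inr (Sum.inr k))).card) := by
  simp only [Finset.card_filter]
  rw [Fintype.sum_sum_type, Fintype.sum_sum_type]

lemma Gam_card (hn : ∀ b, (univ.filter fun j => bJ j = b).card = n b)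
    (hg : ∀ b, (univ.filter fun k => bK k = b).card = g b) :
    (Gam bJ bK).card = ∏ b, Nat.factorial (n b + (g b + g b)) := by
  have h1 : (Gam bJ bK).card = Fintype.card {σ : Equiv.Perm (J ⊕ (K ⊕ K)) // blk bJ bK ∘ σ = blk bJ bK} := by
    rw [Fintype.card_subtype]
    congr 1
    ext σ
    simp only [mem_Gam, Finset.mem_filter, Finset.mem_univ, true_and, funext_iff, Function.comp_apply]
  rw [h1, DomMulAct.stabilizer_card]
  refine Finset.prod_congr rfl fun b _ => ?_
  rw [Fintype.card_subtype, card_filter_sum]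
  rw [show (univ.filter fun j : J => blk bJ bK (Sum.inl j) = b) = univ.filter (fun j => bJ j = b) from rfl,
    show (univ.filter fun k : K => blk bJ bK (Sum.inr (Sum.inl k)) = b) = univ.filter (fun k => bK k = b) from rfl,
    show (univ.filter fun k : K => blk bJ bK (Sum.inr (Sum.inr k)) = b) = univ.filter (fun k => bK k = b) from rfl,
    hn, hg]

/-- reduced label -/
def lab (m : ℕ) (s : Bool) (i : J ⊕ (K ⊕ K)) : Fin (M + 1) × Fin 3 :=
  (blk bJ bK i, if (blk bJ bK i).val < m then sw s (mk3 i) else 0)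

lemma agree_count (hn : ∀ b, (univ.filter fun j => bJ j = b).card = n b)
    (hg : ∀ b, (univ.filter fun k => bK k = b).card = g b) (s : Bool) (m : ℕ) :
    ((Gam bJ bK).filter (Agree bJ bK s m)).card ≤
      ∏ b : Fin (M + 1), (if b.val < m then Nat.factorial (n b) * (Nat.factorial (g b) * Nat.factorial (g b))
        else Nat.factorial (n b + (g b + g b))) := by
  have h1 : ((Gam bJ bK).filter (Agree bJ bK s m)).card ≤
      (univ.filter fun τ : Equiv.Perm (J ⊕ (K ⊕ K)) => lab bJ bK m true ∘ τ = lab bJ bK m s).card := by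
    refine Finset.card_le_card_of_injOn (fun σ => σ⁻¹) ?_ ?_
    · intro σ hσ
      simp only [Finset.coe_filter, Set.mem_ofPred_eq] at hσ
      simp only [Finset.coe_filter, Finset.mem_univ, true_and, Set.mem_ofPred_eq]
      have h2 := mem_Gam.1 (inv_mem_Gam hσ.1)
      funext i
      simp only [lab, Function.comp_apply, h2 i]
      congr 1
      by_cases hi : (blk bJ bK i).val < m
      · rw [if_pos hi, if_pos hi]
        have h3 := (sg_eq_iff s i (σ⁻¹ i)).1 (hσ.2 i hi)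
        rw [← h3]
        simp [sw]
      · rw [if_neg hi, if_neg hi]
    · intro σ _ τ _ h
      exact inv_injective h
  refine h1.trans ((count_le _ _).trans (le_of_eq ?_))
  rw [Fintype.prod_prod_type]
  refine Finset.prod_congr rfl fun b _ => ?_
  rw [Fin.prod_univ_three]
  have hK : ∀ c : Fin 3, (univ.filter fun i : J ⊕ (K ⊕ K) => lab bJ bK m true i = (b, c)).card =
      (univ.filter fun j : J => bJ j = b ∧ (if (bJ j).val < m then (0 : Fin 3) else 0) = c).card +
      ((univ.filter fun k : K => bK k = b ∧ (if (bK k).val < m then (1 : Fin 3) else 0) = c).card +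
       (univ.filter fun k : K => bK k = b ∧ (if (bK k).val < m then (2 : Fin 3) else 0) = c).card) := by
    intro c
    rw [card_filter_sum]
    simp only [lab, blk, mk3, sw, Sum.elim_inl, Sum.elim_inr, if_true, Prod.mk.injEq]
  rw [hK, hK, hK]
  by_cases hb : b.val < m
  · rw [if_pos hb]
    have e0 : ∀ (bX : K → Fin (M + 1)) (c d : Fin 3), (univ.filter fun k : K => bX k = b ∧ (if (bX k).val < m then d else 0) = c) =
        univ.filter fun k : K => bX k = b ∧ d = c := by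
      intro bX c d
      ext k
      simp only [Finset.mem_filter, Finset.mem_univ, true_and]
      constructor
      · rintro ⟨h, h'⟩
        rw [h, if_pos hb] at h'
        exact ⟨h, h'⟩
      · rintro ⟨h, h'⟩
        rw [h, if_pos hb]
        exact ⟨rfl, h'⟩
    have e1 : ∀ (c d : Fin 3), (univ.filter fun j : J => bJ j = b ∧ (if (bJ j).val < m then d else 0) = c) =
        univ.filter fun j : J => bJ j = b ∧ d = c := by
      intro c d
      ext k
      simp only [Finset.mem_filter, Finset.mem_univ, true_and]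
      constructor
      · rintro ⟨h, h'⟩
        rw [h, if_pos hb] at h'
        exact ⟨h, h'⟩
      · rintro ⟨h, h'⟩
        rw [h, if_pos hb]
        exact ⟨rfl, h'⟩
    simp only [e0, e1]
    simp [hn, hg]
    ring
  · rw [if_neg hb]
    have e0 : ∀ (c d : Fin 3), (univ.filter fun k : K => bK k = b ∧ (if (bK k).val < m then d else 0) = c) =
        univ.filter fun k : K => bK k = b ∧ 0 = c := by
      intro c d
      ext k
      simp only [Finset.mem_filter, Finset.mem_univ, true_and]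
      constructor
      · rintro ⟨h, h'⟩
        rw [h, if_neg hb] at h'
        exact ⟨h, h'⟩
      · rintro ⟨h, h'⟩
        rw [h, if_neg hb]
        exact ⟨rfl, h'⟩
    have e1 : ∀ (c d : Fin 3), (univ.filter fun j : J => bJ j = b ∧ (if (bJ j).val < m then d else 0) = c) =
        univ.filter fun j : J => bJ j = b ∧ 0 = c := by
      intro c d
      ext k
      simp only [Finset.mem_filter, Finset.mem_univ, true_and]
      constructor
      · rintro ⟨h, h'⟩
        rw [h, if_neg hb] at h'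
        exact ⟨h, h'⟩
      · rintro ⟨h, h'⟩
        rw [h, if_neg hb]
        exact ⟨rfl, h'⟩
    simp only [e0, e1]
    simp [hn, hg]

/-- ratio bound -/
lemma agree_ratio (hn : ∀ b, (univ.filter fun j => bJ j = b).card = n b)
    (hg : ∀ b, (univ.filter fun k => bK k = b).card = g b) (s : Bool) (m : ℕ) :
    ((((Gam bJ bK).filter (Agree bJ bK s m)).card : ℕ) : ℝ) / (Gam bJ bK).card ≤
      ∏ b : Fin (M + 1), (if b.val < m then
        ((Nat.factorial (n b) * (Nat.factorial (g b) * Nat.factorial (g b)) : ℕ) : ℝ) / (Nat.factorial (n b + (g b + g b)) : ℕ)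
        else 1) := by
  have hc := Gam_card_pos bJ bK
  rw [div_le_iff₀ hc]
  have h1 := agree_count bJ bK n g hn hg s m
  have h2 : ((((Gam bJ bK).filter (Agree bJ bK s m)).card : ℕ) : ℝ) ≤ ((∏ b : Fin (M + 1), (if b.val < m then Nat.factorial (n b) * (Nat.factorial (g b) * Nat.factorial (g b))
        else Nat.factorial (n b + (g b + g b))) : ℕ) : ℝ) := by exact_mod_cast h1
  refine h2.trans (le_of_eq ?_)
  rw [Gam_card bJ bK n g hn hg]
  push_cast
  rw [← Finset.prod_mul_distrib]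
  refine Finset.prod_congr rfl fun b _ => ?_
  split_ifs with hb
  · have : ((Nat.factorial (n b + (g b + g b)) : ℕ) : ℝ) ≠ 0 := by exact_mod_cast Nat.factorial_ne_zero _
    field_simp
    try push_cast
    try rfl
  · simp

variable (f : α → ℝ) (q : Fin (M + 1) → α → ℝ) (δ : ℝ)

/-- signed sum -/
noncomputable def Uf (t : J ⊕ (K ⊕ K) → α) : ℝ := ∑ i, ((sg i : ℤ) : ℝ) * f (t i)

/-- indicator of a small signed sum -/
noncomputable def uu (t : J ⊕ (K ⊕ K) → α) : ℝ := if |Uf f t| ≤ δ then 1 else 0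

lemma uu_nonneg (t : J ⊕ (K ⊕ K) → α) : 0 ≤ uu f δ t := by unfold uu; split_ifs <;> norm_num

lemma Uf_comp (t : J ⊕ (K ⊕ K) → α) (σ : Equiv.Perm (J ⊕ (K ⊕ K))) :
    Uf f (t ∘ σ) = ∑ i, ((sg (σ⁻¹ i) : ℤ) : ℝ) * f (t i) := by
  unfold Uf
  rw [← Equiv.sum_comp σ (fun i => ((sg (σ⁻¹ i) : ℤ) : ℝ) * f (t i))]
  refine Finset.sum_congr rfl fun i _ => ?_
  simp

lemma sg_abs (i : J ⊕ (K ⊕ K)) : |((sg i : ℤ) : ℝ)| ≤ 1 := by
  rcases i with i | i | i <;> simp [sg]

/-- the three cases -/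
lemma cases_lemma (hK : ∃ k, bK k = 0) (σ : Equiv.Perm (J ⊕ (K ⊕ K))) (hσ : σ ∈ Gam bJ bK) :
    (∃ i j, blk bJ bK i = 0 ∧ blk bJ bK j = 0 ∧ sg i * sg (σ⁻¹ j) - sg j * sg (σ⁻¹ i) ≠ 0) ∨
    (∃ s : Bool, ∃ m : Fin (M + 1), Agree bJ bK s m.val σ ∧ ∃ i j, blk bJ bK i = 0 ∧ blk bJ bK j = m ∧
      sg i * sg (σ⁻¹ j) - sg j * sg (σ⁻¹ i) ≠ 0) ∨
    (∃ s : Bool, Agree bJ bK s (M + 1) σ) := by
  classical
  obtain ⟨k0, hk0⟩ := hK
  let i0 : J ⊕ (K ⊕ K) := Sum.inr (Sum.inl k0)
  have hi0 : blk bJ bK i0 = 0 := hk0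
  have hsi0 : sg i0 = 1 := rfl
  by_cases hA : ∃ i j, blk bJ bK i = 0 ∧ blk bJ bK j = 0 ∧ sg i * sg (σ⁻¹ j) - sg j * sg (σ⁻¹ i) ≠ 0
  · exact Or.inl hA
  right
  push Not at hA
  have h1 : ∀ i, blk bJ bK i = 0 → sg (σ⁻¹ i) = sg i * sg (σ⁻¹ i0) := by
    intro i hi
    have := hA i0 i hi0 hi
    rw [hsi0] at this
    linarith
  have hne : sg (σ⁻¹ i0) ≠ 0 := by
    intro h0
    have hb : blk bJ bK (σ i0) = 0 := by rw [mem_Gam.1 hσ]; exact hi0
    have h2 := h1 (σ i0) hb
    rw [h0, mul_zero] at h2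
    have h3 : σ⁻¹ (σ i0) = i0 := by simp
    rw [h3, hsi0] at h2
    exact one_ne_zero h2
  have hs : ∃ s : Bool, sg (σ⁻¹ i0) = sgb s := by
    rcases h : σ⁻¹ i0 with i | i | i
    · exfalso
      apply hne
      rw [h]; rfl
    · exact ⟨true, rfl⟩
    · exact ⟨false, rfl⟩
  obtain ⟨s, hs⟩ := hs
  by_cases hC : Agree bJ bK s (M + 1) σ
  · exact Or.inr ⟨s, hC⟩
  left
  have hex : ∃ m, ¬ Agree bJ bK s m σ := ⟨M + 1, hC⟩
  obtain ⟨hm1, hm2⟩ : ¬ Agree bJ bK s (Nat.find hex) σ ∧ ∀ m < Nat.find hex, Agree bJ bK s m σ :=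
    ⟨Nat.find_spec hex, fun m hm => by_contra fun h => Nat.find_min hex hm h⟩
  set m1 := Nat.find hex with hm1def
  have hm1pos : 0 < m1 := by
    rcases Nat.eq_zero_or_pos m1 with h | h
    · exfalso
      apply hm1
      rw [h]
      intro i hi
      omega
    · exact h
  have hm1le : m1 ≤ M + 1 := Nat.find_min' hex hC
  refine ⟨s, ⟨m1 - 1, by omega⟩, hm2 (m1 - 1) (by omega), ?_⟩
  unfold Agree at hm1
  push Not at hm1
  obtain ⟨j, hj1, hj2⟩ := hm1
  have hjeq : (blk bJ bK j).val = m1 - 1 := by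
    by_contra hne2
    have : (blk bJ bK j).val < m1 - 1 := by omega
    exact hj2 (hm2 (m1 - 1) (by omega) j this)
  refine ⟨i0, j, hi0, Fin.ext hjeq, ?_⟩
  rw [hsi0, hs]
  intro h
  apply hj2
  linarith

variable {f q δ}

lemma conc_mono {q0 : α → ℝ} (hq0 : ∀ a, 0 ≤ q0 a) {r1 r2 : ℝ} (h : r1 ≤ r2) (y : ℝ) :
    conc q0 f r1 y ≤ conc q0 f r2 y := by
  unfold conc
  refine Finset.sum_le_sum fun a _ => mul_le_mul_of_nonneg_left ?_ (hq0 a)
  by_cases h1 : |f a - y| ≤ r1
  · rw [if_pos h1, if_pos (h1.trans h)]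
  · rw [if_neg h1]
    split_ifs <;> norm_num

lemma conc_nonneg {q0 : α → ℝ} (hq0 : ∀ a, 0 ≤ q0 a) (r y : ℝ) : 0 ≤ conc q0 f r y :=
  Finset.sum_nonneg fun a _ => mul_nonneg (hq0 a) (by split_ifs <;> norm_num)

/-- indicator of agreement -/
noncomputable def chi (s : Bool) (m : ℕ) (σ : Equiv.Perm (J ⊕ (K ⊕ K))) : ℝ := if Agree bJ bK s m σ then 1 else 0

lemma chi_nonneg (s : Bool) (m : ℕ) (σ : Equiv.Perm (J ⊕ (K ⊕ K))) : 0 ≤ chi bJ bK s m σ := by
  unfold chi; split_ifs <;> norm_num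

lemma pair_bound (hK : ∃ k, bK k = 0) (hq0 : ∀ b a, 0 ≤ q b a) (hq1 : ∀ b, ∑ a, q b a = 1) (hδ : 0 ≤ δ)
    (Q : Fin (M + 1) → ℝ) (hQ : ∀ b y, conc (q b) f (2 * δ) y ≤ Q b)
    (σ : Equiv.Perm (J ⊕ (K ⊕ K))) (hσ : σ ∈ Gam bJ bK) :
    ∑ t, wt (pI q bJ bK) t * (uu f δ t * uu f δ (t ∘ σ)) ≤
      ∑ m : Fin (M + 1), Q 0 * Q m * (chi bJ bK true m.val σ + chi bJ bK false m.val σ) +
      Q 0 * (chi bJ bK true (M + 1) σ + chi bJ bK false (M + 1) σ) := by
  classical
  have hQ0 : ∀ b, 0 ≤ Q b := fun b => (conc_nonneg (hq0 b) _ 0).trans (hQ b 0)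
  have hpI0 : ∀ i a, 0 ≤ pI q bJ bK i a := fun i a => hq0 _ _
  have hpI1 : ∀ i, ∑ a, pI q bJ bK i a = 1 := fun i => hq1 _
  have hterm : ∀ m : Fin (M + 1), 0 ≤ Q 0 * Q m * (chi bJ bK true m.val σ + chi bJ bK false m.val σ) := by
    intro m
    have := chi_nonneg bJ bK true m.val σ
    have := chi_nonneg bJ bK false m.val σ
    have := hQ0 0
    have := hQ0 m
    positivity
  have hlast : 0 ≤ Q 0 * (chi bJ bK true (M + 1) σ + chi bJ bK false (M + 1) σ) := by
    have := chi_nonneg bJ bK true (M + 1) σ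
    have := chi_nonneg bJ bK false (M + 1) σ
    have := hQ0 0
    positivity
  have two : ∀ i j, sg i * sg (σ⁻¹ j) - sg j * sg (σ⁻¹ i) ≠ 0 →
      ∑ t, wt (pI q bJ bK) t * (uu f δ t * uu f δ (t ∘ σ)) ≤ Q (blk bJ bK i) * Q (blk bJ bK j) := by
    intro i j hdet
    have hij : i ≠ j := by
      rintro rfl
      apply hdet
      ring
    have hdet' : 1 ≤ |((sg i : ℤ) : ℝ) * ((sg (σ⁻¹ j) : ℤ) : ℝ) - ((sg j : ℤ) : ℝ) * ((sg (σ⁻¹ i) : ℤ) : ℝ)| := by
      have h1 := Int.one_le_abs hdet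
      have : ((1 : ℤ) : ℝ) ≤ ((|sg i * sg (σ⁻¹ j) - sg j * sg (σ⁻¹ i)| : ℤ) : ℝ) := by exact_mod_cast h1
      push_cast at this
      exact this
    have h := linear_two hpI0 hpI1 f (fun i => ((sg i : ℤ) : ℝ)) (fun i => ((sg (σ⁻¹ i) : ℤ) : ℝ))
      (fun i => sg_abs i) (fun i => sg_abs _) i j hij hdet' δ (Q (blk bJ bK i)) (Q (blk bJ bK j))
      (fun y => hQ _ y) (fun y => hQ _ y)
    refine le_trans (Finset.sum_le_sum fun t _ => mul_le_mul_of_nonneg_left ?_ (wt_nonneg hpI0 t)) h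
    unfold uu
    rw [Uf_comp]
    unfold Uf
    by_cases h1 : |∑ i, ((sg i : ℤ) : ℝ) * f (t i)| ≤ δ
    · by_cases h2 : |∑ i, ((sg (σ⁻¹ i) : ℤ) : ℝ) * f (t i)| ≤ δ
      · rw [if_pos h1, if_pos h2, if_pos ⟨h1, h2⟩]; norm_num
      · rw [if_neg h2]; split_ifs <;> norm_num
    · rw [if_neg h1, zero_mul]; split_ifs <;> norm_num
  rcases cases_lemma bJ bK hK σ hσ with ⟨i, j, hi, hj, hdet⟩ | ⟨s, m, hAg, i, j, hi, hj, hdet⟩ | ⟨s, hAg⟩
  · have h := two i j hdet
    rw [hi, hj] at h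
    have h0 : Q 0 * Q 0 ≤ Q 0 * Q 0 * (chi bJ bK true (0 : Fin (M + 1)).val σ + chi bJ bK false (0 : Fin (M + 1)).val σ) := by
      have : chi bJ bK true (0 : Fin (M + 1)).val σ = 1 := by
        unfold chi
        rw [if_pos]
        intro i hi
        simp at hi
      rw [this]
      have := chi_nonneg bJ bK false (0 : Fin (M + 1)).val σ
      have h3 : 0 ≤ Q 0 * Q 0 := mul_nonneg (hQ0 0) (hQ0 0)
      nlinarith
    have h1 := Finset.single_le_sum (f := fun m : Fin (M + 1) => Q 0 * Q m * (chi bJ bK true m.val σ + chi bJ bK false m.val σ))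
      (fun m _ => hterm m) (mem_univ 0)
    linarith
  · have h := two i j hdet
    rw [hi, hj] at h
    have h0 : Q 0 * Q m ≤ Q 0 * Q m * (chi bJ bK true m.val σ + chi bJ bK false m.val σ) := by
      have h4 : 1 ≤ chi bJ bK true m.val σ + chi bJ bK false m.val σ := by
        cases s
        · have : chi bJ bK false m.val σ = 1 := by unfold chi; rw [if_pos hAg]
          have := chi_nonneg bJ bK true m.val σ
          linarith
        · have : chi bJ bK true m.val σ = 1 := by unfold chi; rw [if_pos hAg]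
          have := chi_nonneg bJ bK false m.val σ
          linarith
      have h3 : 0 ≤ Q 0 * Q m := mul_nonneg (hQ0 0) (hQ0 m)
      nlinarith
    have h1 := Finset.single_le_sum (f := fun m : Fin (M + 1) => Q 0 * Q m * (chi bJ bK true m.val σ + chi bJ bK false m.val σ))
      (fun m _ => hterm m) (mem_univ m)
    linarith
  · obtain ⟨k0, hk0⟩ := hK
    have h := linear_one hpI0 hpI1 f (fun i => ((sg i : ℤ) : ℝ)) (Sum.inr (Sum.inl k0)) (by simp [sg]) δ 0 (Q 0)
      (fun y => by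
        refine le_trans (conc_mono (hpI0 _) (by linarith : δ ≤ 2 * δ) y) ?_
        have := hQ 0 y
        unfold pI
        simp only [blk, Sum.elim_inr, Sum.elim_inl]
        rw [hk0]
        exact this)
    have h5 : ∑ t, wt (pI q bJ bK) t * (uu f δ t * uu f δ (t ∘ σ)) ≤ Q 0 := by
      refine le_trans (Finset.sum_le_sum fun t _ => mul_le_mul_of_nonneg_left ?_ (wt_nonneg hpI0 t)) h
      unfold uu
      simp only [sub_zero]
      unfold Uf
      by_cases h1 : |∑ i, ((sg i : ℤ) : ℝ) * f (t i)| ≤ δ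
      · rw [if_pos h1]; split_ifs <;> norm_num
      · rw [if_neg h1]; split_ifs <;> norm_num
    have h0 : Q 0 ≤ Q 0 * (chi bJ bK true (M + 1) σ + chi bJ bK false (M + 1) σ) := by
      have h4 : 1 ≤ chi bJ bK true (M + 1) σ + chi bJ bK false (M + 1) σ := by
        cases s
        · have : chi bJ bK false (M + 1) σ = 1 := by unfold chi; rw [if_pos hAg]
          have := chi_nonneg bJ bK true (M + 1) σ
          linarith
        · have : chi bJ bK true (M + 1) σ = 1 := by unfold chi; rw [if_pos hAg]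
          have := chi_nonneg bJ bK false (M + 1) σ
          linarith
      nlinarith [hQ0 0]
    have h1 : 0 ≤ ∑ m : Fin (M + 1), Q 0 * Q m * (chi bJ bK true m.val σ + chi bJ bK false m.val σ) :=
      Finset.sum_nonneg fun m _ => hterm m
    linarith

/-- factorial ratio -/
noncomputable def mmr (b : Fin (M + 1)) : ℝ :=
  ((Nat.factorial (n b) * (Nat.factorial (g b) * Nat.factorial (g b)) : ℕ) : ℝ) / (Nat.factorial (n b + (g b + g b)) : ℕ)

lemma chi_avg (hn : ∀ b, (univ.filter fun j => bJ j = b).card = n b)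
    (hg : ∀ b, (univ.filter fun k => bK k = b).card = g b) (s : Bool) (m : ℕ) :
    (∑ σ ∈ Gam bJ bK, chi bJ bK s m σ) / (Gam bJ bK).card ≤ ∏ b : Fin (M + 1), (if b.val < m then mmr n g b else 1) := by
  have : ∑ σ ∈ Gam bJ bK, chi bJ bK s m σ = (((Gam bJ bK).filter (Agree bJ bK s m)).card : ℕ) := by
    unfold chi
    rw [Finset.sum_ite, Finset.sum_const_zero, add_zero, Finset.sum_const, nsmul_eq_mul, mul_one]
  rw [this]
  exact agree_ratio bJ bK n g hn hg s m

/-- averaged pair bound -/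
lemma avg_bound (hn : ∀ b, (univ.filter fun j => bJ j = b).card = n b)
    (hg : ∀ b, (univ.filter fun k => bK k = b).card = g b)
    (hK : ∃ k, bK k = 0) (hq0 : ∀ b a, 0 ≤ q b a) (hq1 : ∀ b, ∑ a, q b a = 1) (hδ : 0 ≤ δ)
    (Q : Fin (M + 1) → ℝ) (hQ : ∀ b y, conc (q b) f (2 * δ) y ≤ Q b) :
    (∑ σ ∈ Gam bJ bK, ∑ t, wt (pI q bJ bK) t * (uu f δ t * uu f δ (t ∘ σ))) / (Gam bJ bK).card ≤
      ∑ m : Fin (M + 1), Q 0 * Q m * (2 * ∏ b : Fin (M + 1), (if b.val < m.val then mmr n g b else 1)) +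
      Q 0 * (2 * ∏ b : Fin (M + 1), mmr n g b) := by
  have hQ0 : ∀ b, 0 ≤ Q b := fun b => (conc_nonneg (hq0 b) _ 0).trans (hQ b 0)
  have hc := Gam_card_pos bJ bK
  have h1 : (∑ σ ∈ Gam bJ bK, ∑ t, wt (pI q bJ bK) t * (uu f δ t * uu f δ (t ∘ σ))) / (Gam bJ bK).card ≤
      (∑ σ ∈ Gam bJ bK, (∑ m : Fin (M + 1), Q 0 * Q m * (chi bJ bK true m.val σ + chi bJ bK false m.val σ) +
      Q 0 * (chi bJ bK true (M + 1) σ + chi bJ bK false (M + 1) σ))) / (Gam bJ bK).card :=
    div_le_div_of_nonneg_right (Finset.sum_le_sum fun σ hσ => pair_bound bJ bK hK hq0 hq1 hδ Q hQ σ hσ) hc.le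
  refine h1.trans ?_
  have h2 : (∑ σ ∈ Gam bJ bK, (∑ m : Fin (M + 1), Q 0 * Q m * (chi bJ bK true m.val σ + chi bJ bK false m.val σ) +
      Q 0 * (chi bJ bK true (M + 1) σ + chi bJ bK false (M + 1) σ))) / (Gam bJ bK).card =
      ∑ m : Fin (M + 1), Q 0 * Q m * ((∑ σ ∈ Gam bJ bK, chi bJ bK true m.val σ) / (Gam bJ bK).card +
        (∑ σ ∈ Gam bJ bK, chi bJ bK false m.val σ) / (Gam bJ bK).card) +
      Q 0 * ((∑ σ ∈ Gam bJ bK, chi bJ bK true (M + 1) σ) / (Gam bJ bK).card +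
        (∑ σ ∈ Gam bJ bK, chi bJ bK false (M + 1) σ) / (Gam bJ bK).card) := by
    rw [Finset.sum_add_distrib, add_div, Finset.sum_comm, Finset.sum_div]
    congr 1
    · refine Finset.sum_congr rfl fun m _ => ?_
      rw [← Finset.mul_sum, Finset.sum_add_distrib]
      ring
    · rw [← Finset.mul_sum, Finset.sum_add_distrib]
      ring
  rw [h2]
  refine add_le_add (Finset.sum_le_sum fun m _ => ?_) ?_
  · refine mul_le_mul_of_nonneg_left ?_ (mul_nonneg (hQ0 _) (hQ0 _))
    have a1 := chi_avg bJ bK n g hn hg true m.val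
    have a2 := chi_avg bJ bK n g hn hg false m.val
    linarith
  · refine mul_le_mul_of_nonneg_left ?_ (hQ0 _)
    have a1 := chi_avg bJ bK n g hn hg true (M + 1)
    have a2 := chi_avg bJ bK n g hn hg false (M + 1)
    have e : ∏ b : Fin (M + 1), (if b.val < M + 1 then mmr n g b else 1) = ∏ b : Fin (M + 1), mmr n g b :=
      Finset.prod_congr rfl fun b _ => if_pos b.isLt
    rw [e] at a1 a2
    linarith

end Second

end Pool.Agent.Helper426
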