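import Mathlib
import Pool.Agent.Helper426.Second

set_option autoImplicit false
set_option linter.unusedSectionVars false

namespace Pool.Agent.Helper426

open Finset

section Cells

variable {β : Type} [Fintype β]

/-- three independent values fall into a common cell with not too small weight -/
lemma cells (v : β → ℝ) (hv : ∀ X, 0 ≤ v X) (hv1 : ∑ X, v X = 1) (c : β → ℕ) (n : ℕ) (hn : 0 < n)
    (hc : ∀ X, v X ≠ 0 → c X < n) (F : β → β → β → ℝ) (hF0 : ∀ X Y Z, 0 ≤ F X Y Z)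
    (hF : ∀ X Y Z, v X ≠ 0 → v Y ≠ 0 → v Z ≠ 0 → c X = c Y → c Y = c Z → 1 ≤ F X Y Z) :
    1 / (n : ℝ) ^ 2 ≤ ∑ X, ∑ Y, ∑ Z, v X * v Y * v Z * F X Y Z := by
  classical
  let p : ℕ → ℝ := fun j => ∑ X, (if c X = j then v X else 0)
  have hp0 : ∀ j, 0 ≤ p j := fun j => Finset.sum_nonneg fun X _ => by split_ifs; exacts [hv X, le_rfl]
  have hpsum : ∑ j ∈ range n, p j = 1 := by
    simp only [p]
    rw [Finset.sum_comm, ← hv1]
    refine Finset.sum_congr rfl fun X _ => ?_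
    by_cases h : v X = 0
    · rw [h]; simp
    · rw [Finset.sum_ite_eq, if_pos (mem_range.2 (hc X h))]
  have hcube : ∑ j ∈ range n, (p j) ^ 3 ≤ ∑ X, ∑ Y, ∑ Z, v X * v Y * v Z * F X Y Z := by
    have h1 : ∀ j, (p j) ^ 3 = ∑ X, ∑ Y, ∑ Z, (if c X = j then v X else 0) * (if c Y = j then v Y else 0) *
        (if c Z = j then v Z else 0) := by
      intro j
      simp only [p]
      rw [pow_succ, pow_two, Finset.sum_mul_sum, Finset.sum_mul]
      refine Finset.sum_congr rfl fun X _ => ?_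
      rw [Finset.sum_mul]
      refine Finset.sum_congr rfl fun Y _ => ?_
      rw [Finset.mul_sum]
    rw [Finset.sum_congr rfl fun j _ => h1 j, Finset.sum_comm]
    refine Finset.sum_le_sum fun X _ => ?_
    rw [Finset.sum_comm]
    refine Finset.sum_le_sum fun Y _ => ?_
    rw [Finset.sum_comm]
    refine Finset.sum_le_sum fun Z _ => ?_
    have h0 : 0 ≤ v X * v Y * v Z * F X Y Z := mul_nonneg (mul_nonneg (mul_nonneg (hv X) (hv Y)) (hv Z)) (hF0 X Y Z)
    by_cases hX : v X = 0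
    · simp [hX]
    by_cases hY : v Y = 0
    · simp [hY]
    by_cases hZ : v Z = 0
    · simp [hZ]
    by_cases h : c X = c Y ∧ c Y = c Z
    · obtain ⟨h2, h3⟩ := h
      have h4 : ∀ j ∈ range n, (if c X = j then v X else 0) * (if c Y = j then v Y else 0) * (if c Z = j then v Z else 0)
          = if c X = j then v X * v Y * v Z else 0 := by
        intro j _
        rw [← h3, ← h2]
        split_ifs <;> simp
      rw [Finset.sum_congr rfl h4, Finset.sum_ite_eq, if_pos (mem_range.2 (hc X hX))]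
      have h5 := hF X Y Z hX hY hZ h2 h3
      have h6 : 0 ≤ v X * v Y * v Z := mul_nonneg (mul_nonneg (hv X) (hv Y)) (hv Z)
      nlinarith
    · have h4 : ∀ j ∈ range n, (if c X = j then v X else 0) * (if c Y = j then v Y else 0) * (if c Z = j then v Z else 0)
          = 0 := by
        intro j _
        by_cases h1 : c X = j
        · by_cases h2 : c Y = j
          · have h3 : c Z ≠ j := fun h3 => h ⟨h1.trans h2.symm, h2.trans h3.symm⟩
            rw [if_neg h3, mul_zero]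
          · rw [if_neg h2, mul_zero, zero_mul]
        · rw [if_neg h1, zero_mul, zero_mul]
      rw [Finset.sum_congr rfl h4]
      simpa using h0
  refine le_trans ?_ hcube
  have hn' : (0 : ℝ) < n := by exact_mod_cast hn
  have ht : ∀ j ∈ range n, 3 / (n : ℝ) ^ 2 * p j - 2 / (n : ℝ) ^ 3 ≤ (p j) ^ 3 := by
    intro j _
    have hx := hp0 j
    set x := p j
    set a : ℝ := 1 / n with ha
    have ha0 : 0 < a := by positivity
    have e1 : 3 / (n : ℝ) ^ 2 * x - 2 / (n : ℝ) ^ 3 = 3 * a ^ 2 * x - 2 * a ^ 3 := by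
      rw [ha]; field_simp
    rw [e1]
    have : 0 ≤ (x - a) ^ 2 * (x + 2 * a) := by positivity
    nlinarith
  refine le_trans (le_of_eq ?_) (Finset.sum_le_sum ht)
  rw [Finset.sum_sub_distrib, ← Finset.mul_sum, hpsum, Finset.sum_const, card_range, nsmul_eq_mul]
  field_simp
  ring

end Cells

section Lower

variable {α J K : Type} [Fintype α] [DecidableEq α] [Fintype J] [DecidableEq J] [Fintype K]
  [DecidableEq K] {M : ℕ}

variable (f : α → ℝ) (δ : ℝ)

/-- the sum of logs -/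
noncomputable def SS (X : K → α) : ℝ := ∑ k, f (X k)

open Classical in
/-- closeness event -/
noncomputable def EE (X Y Z : K → α) : ℝ :=
  if |SS f X - SS f Y| ≤ δ ∧ |SS f Y - SS f Z| ≤ δ ∧ |SS f X - SS f Z| ≤ δ then 1 else 0

open Classical in
/-- closeness event without coincidences -/
noncomputable def EEs (X Y Z : K → α) : ℝ :=
  if (|SS f X - SS f Y| ≤ δ ∧ |SS f Y - SS f Z| ≤ δ ∧ |SS f X - SS f Z| ≤ δ) ∧
    ((∀ k k', X k ≠ Y k') ∧ (∀ k k', Y k ≠ Z k') ∧ (∀ k k', X k ≠ Z k')) then 1 else 0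

lemma EE_swap13 (X Y Z : K → α) : EE f δ X Y Z = EE f δ Z Y X := by
  unfold EE
  congr 1
  rw [abs_sub_comm (SS f X) (SS f Y), abs_sub_comm (SS f Y) (SS f Z), abs_sub_comm (SS f X) (SS f Z)]
  simp only [eq_iff_iff]
  tauto

lemma EE_swap23 (X Y Z : K → α) : EE f δ X Y Z = EE f δ X Z Y := by
  unfold EE
  congr 1
  rw [abs_sub_comm (SS f Y) (SS f Z)]
  simp only [eq_iff_iff]
  tauto

lemma EEs_swap13 (X Y Z : K → α) : EEs f δ X Y Z = EEs f δ Z Y X := by
  unfold EEs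
  congr 1
  rw [abs_sub_comm (SS f X) (SS f Y), abs_sub_comm (SS f Y) (SS f Z), abs_sub_comm (SS f X) (SS f Z)]
  simp only [eq_iff_iff]
  constructor
  · rintro ⟨⟨h1, h2, h3⟩, h4, h5, h6⟩
    exact ⟨⟨h2, h1, h3⟩, fun k k' => (h5 k' k).symm, fun k k' => (h4 k' k).symm, fun k k' => (h6 k' k).symm⟩
  · rintro ⟨⟨h1, h2, h3⟩, h4, h5, h6⟩
    exact ⟨⟨h2, h1, h3⟩, fun k k' => (h5 k' k).symm, fun k k' => (h4 k' k).symm, fun k k' => (h6 k' k).symm⟩

lemma EEs_swap23 (X Y Z : K → α) : EEs f δ X Y Z = EEs f δ X Z Y := by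
  unfold EEs
  congr 1
  rw [abs_sub_comm (SS f Y) (SS f Z)]
  simp only [eq_iff_iff]
  constructor
  · rintro ⟨⟨h1, h2, h3⟩, h4, h5, h6⟩
    exact ⟨⟨h3, h2, h1⟩, h6, fun k k' => (h5 k' k).symm, h4⟩
  · rintro ⟨⟨h1, h2, h3⟩, h4, h5, h6⟩
    exact ⟨⟨h3, h2, h1⟩, h6, fun k k' => (h5 k' k).symm, h4⟩

lemma EE_nonneg (X Y Z : K → α) : 0 ≤ EE f δ X Y Z := by unfold EE; split_ifs <;> norm_num
lemma EEs_nonneg (X Y Z : K → α) : 0 ≤ EEs f δ X Y Z := by unfold EEs; split_ifs <;> norm_num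

lemma EEs_le (X Y Z : K → α) : EEs f δ X Y Z ≤ EE f δ X Y Z := by
  unfold EEs EE
  split_ifs with h1 h2 h2
  · exact le_rfl
  · exact absurd h1.1 h2
  · norm_num
  · exact le_rfl

variable {f δ}

/-- concentration for the sum -/
lemma SS_conc {p : K → α → ℝ} (hp0 : ∀ i a, 0 ≤ p i a) (hp : ∀ i, ∑ a, p i a = 1) (k0 : K) (hδ : 0 ≤ δ) (y Q : ℝ)
    (hQ : ∀ y, conc (p k0) f (2 * δ) y ≤ Q) :
    ∑ Z, wt p Z * (open Classical in if |SS f Z - y| ≤ δ then (1 : ℝ) else 0) ≤ Q := by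
  classical
  have h := linear_one hp0 hp f (fun _ => 1) k0 (by norm_num) δ y Q (fun y => by
    refine le_trans (conc_mono (hp0 _) (by linarith : δ ≤ 2 * δ) y) (hQ y))
  refine le_trans (le_of_eq ?_) h
  refine Finset.sum_congr rfl fun Z _ => ?_
  unfold SS
  simp only [one_mul]

/-- concentration for the sum together with a value of one coordinate -/
lemma SS_conc_coord {p : K → α → ℝ} (hp0 : ∀ i a, 0 ≤ p i a) (hp : ∀ i, ∑ a, p i a = 1) (k0 k1 : K) (hk : k0 ≠ k1)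
    (hδ : 0 ≤ δ) (y Q : ℝ) (a : α)
    (hQ : ∀ y, conc (p k0) f (2 * δ) y ≤ Q) :
    ∑ Z, wt p Z * ((open Classical in if |SS f Z - y| ≤ δ then (1 : ℝ) else 0) * (if Z k1 = a then 1 else 0)) ≤ Q * p k1 a := by
  classical
  have hQ0 : 0 ≤ Q := (conc_nonneg (hp0 k0) _ 0).trans (hQ 0)
  rw [resample hp k0]
  have h1 : ∑ t, wt p t * ∑ a_1, p k0 a_1 * ((if |SS f (Function.update t k0 a_1) - y| ≤ δ then (1 : ℝ) else 0) *
      (if Function.update t k0 a_1 k1 = a then 1 else 0)) ≤ ∑ t, wt p t * (Q * (if t k1 = a then 1 else 0)) := by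
    refine Finset.sum_le_sum fun t _ => mul_le_mul_of_nonneg_left ?_ (wt_nonneg hp0 t)
    have h2 : ∀ b, Function.update t k0 b k1 = t k1 := fun b => Function.update_of_ne hk.symm _ _
    simp only [h2]
    rw [show (∑ a_1, p k0 a_1 * ((if |SS f (Function.update t k0 a_1) - y| ≤ δ then (1 : ℝ) else 0) *
      (if t k1 = a then 1 else 0))) = (∑ a_1, p k0 a_1 * (if |SS f (Function.update t k0 a_1) - y| ≤ δ then (1 : ℝ) else 0)) *
      (if t k1 = a then 1 else 0) from by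
        rw [Finset.sum_mul]; exact Finset.sum_congr rfl fun _ _ => by ring]
    refine mul_le_mul_of_nonneg_right ?_ (by split_ifs <;> norm_num)
    refine le_trans ?_ (hQ (y - ∑ k ∈ univ.erase k0, f (t k)))
    unfold conc
    refine Finset.sum_le_sum fun b _ => mul_le_mul_of_nonneg_left ?_ (hp0 _ _)
    have e : SS f (Function.update t k0 b) = f b + ∑ k ∈ univ.erase k0, f (t k) := by
      unfold SS
      rw [← Finset.add_sum_erase univ _ (mem_univ k0), Function.update_self]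
      congr 1
      refine Finset.sum_congr rfl fun j hj => ?_
      rw [Function.update_of_ne (Finset.ne_of_mem_erase hj)]
    rw [e]
    by_cases h : |f b + ∑ k ∈ univ.erase k0, f (t k) - y| ≤ δ
    · rw [if_pos h, if_pos]
      rw [show f b - (y - ∑ k ∈ univ.erase k0, f (t k)) = f b + ∑ k ∈ univ.erase k0, f (t k) - y by ring]
      linarith
    · rw [if_neg h]; split_ifs <;> norm_num
  refine h1.trans ?_
  rw [show ∑ t, wt p t * (Q * (if t k1 = a then (1 : ℝ) else 0)) = Q * ∑ t, wt p t * (if t k1 = a then (1 : ℝ) else 0) from by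
    rw [Finset.mul_sum]; exact Finset.sum_congr rfl fun _ _ => by ring]
  refine mul_le_mul_of_nonneg_left ?_ hQ0
  refine one_coord hp0 hp k1 _ _ fun t => ?_
  simp only [Function.update_self]
  rw [Finset.sum_congr rfl (fun b _ => show p k1 b * (if b = a then (1 : ℝ) else 0) = if b = a then p k1 b else 0 by
    split_ifs <;> simp)]
  rw [Finset.sum_ite_eq' univ a (fun b => p k1 b), if_pos (mem_univ _)]

/-- one coincidence -/
lemma coincide {p : K → α → ℝ} (hp0 : ∀ i a, 0 ≤ p i a) (hp : ∀ i, ∑ a, p i a = 1) (k0 k1 : K) (h01 : k0 ≠ k1)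
    (hδ : 0 ≤ δ) (Q ε : ℝ) (hε : ∀ k a, p k a ≤ ε)
    (hQ0 : ∀ y, conc (p k0) f (2 * δ) y ≤ Q) (hQ1 : ∀ y, conc (p k1) f (2 * δ) y ≤ Q) (k k' : K) :
    ∑ X, ∑ Y, ∑ Z, wt p X * wt p Y * wt p Z * (EE f δ X Y Z * (if X k = Y k' then 1 else 0)) ≤ Q * (Q * ε) := by
  classical
  have hQn : 0 ≤ Q := (conc_nonneg (hp0 k0) _ 0).trans (hQ0 0)
  have hw : ∀ X, 0 ≤ wt p X := fun X => wt_nonneg hp0 X
  -- bound the sum over Z
  have hZ : ∀ X Y : K → α, ∑ Z, wt p X * wt p Y * wt p Z * (EE f δ X Y Z * (if X k = Y k' then 1 else 0)) ≤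
      wt p X * wt p Y * ((if |SS f X - SS f Y| ≤ δ then (1 : ℝ) else 0) * (if X k = Y k' then 1 else 0)) * Q := by
    intro X Y
    have h := SS_conc hp0 hp k0 hδ (SS f X) Q hQ0
    have h2 : ∀ Z, wt p X * wt p Y * wt p Z * (EE f δ X Y Z * (if X k = Y k' then 1 else 0)) ≤
        (wt p X * wt p Y * ((if |SS f X - SS f Y| ≤ δ then (1 : ℝ) else 0) * (if X k = Y k' then 1 else 0))) *
        (wt p Z * (if |SS f Z - SS f X| ≤ δ then (1 : ℝ) else 0)) := by
      intro Z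
      have h3 : EE f δ X Y Z ≤ (if |SS f X - SS f Y| ≤ δ then (1 : ℝ) else 0) * (if |SS f Z - SS f X| ≤ δ then (1 : ℝ) else 0) := by
        unfold EE
        by_cases h4 : |SS f X - SS f Y| ≤ δ ∧ |SS f Y - SS f Z| ≤ δ ∧ |SS f X - SS f Z| ≤ δ
        · rw [if_pos h4, if_pos h4.1, if_pos (by rw [abs_sub_comm]; exact h4.2.2)]; norm_num
        · rw [if_neg h4]; split_ifs <;> norm_num
      have h5 : 0 ≤ wt p X * wt p Y * wt p Z * (if X k = Y k' then (1 : ℝ) else 0) := by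
        have := hw X; have := hw Y; have := hw Z
        split_ifs
        · positivity
        · simp
      have h6 := mul_le_mul_of_nonneg_left h3 h5
      nlinarith
    refine (Finset.sum_le_sum fun Z _ => h2 Z).trans ?_
    rw [← Finset.mul_sum]
    refine mul_le_mul_of_nonneg_left h ?_
    have := hw X; have := hw Y
    split_ifs <;> simp <;> positivity
  refine (Finset.sum_le_sum fun X _ => Finset.sum_le_sum fun Y _ => hZ X Y).trans ?_
  rw [Finset.sum_comm]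
  -- choose a concentrating coordinate different from k
  obtain ⟨k2, hk2, hQ2⟩ : ∃ k2, k2 ≠ k ∧ ∀ y, conc (p k2) f (2 * δ) y ≤ Q := by
    by_cases h : k0 = k
    · exact ⟨k1, fun h' => h01 (h.trans h'.symm), hQ1⟩
    · exact ⟨k0, h, hQ0⟩
  have hY : ∀ Y : K → α, ∑ X, wt p X * wt p Y * ((if |SS f X - SS f Y| ≤ δ then (1 : ℝ) else 0) * (if X k = Y k' then 1 else 0)) * Q
      ≤ wt p Y * (Q * (Q * ε)) := by
    intro Y
    have h := SS_conc_coord hp0 hp k2 k hk2 hδ (SS f Y) Q (Y k') hQ2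
    have h2 : ∑ X, wt p X * wt p Y * ((if |SS f X - SS f Y| ≤ δ then (1 : ℝ) else 0) * (if X k = Y k' then 1 else 0)) * Q =
      wt p Y * (Q * ∑ X, wt p X * ((if |SS f X - SS f Y| ≤ δ then (1 : ℝ) else 0) * (if X k = Y k' then 1 else 0))) := by
      rw [Finset.mul_sum, Finset.mul_sum]
      exact Finset.sum_congr rfl fun _ _ => by ring
    rw [h2]
    refine mul_le_mul_of_nonneg_left (mul_le_mul_of_nonneg_left (h.trans ?_) hQn) (hw Y)
    exact mul_le_mul_of_nonneg_left (hε _ _) hQn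
  refine (Finset.sum_le_sum fun Y _ => hY Y).trans ?_
  rw [← Finset.sum_mul, sum_wt hp, one_mul]

/-- lower bound for the clean event -/
lemma EEs_lower {p : K → α → ℝ} (hp0 : ∀ i a, 0 ≤ p i a) (hp : ∀ i, ∑ a, p i a = 1) (k0 k1 : K) (h01 : k0 ≠ k1)
    (hδ : 0 < δ) (Q ε : ℝ) (hε : ∀ k a, p k a ≤ ε)
    (hQ0 : ∀ y, conc (p k0) f (2 * δ) y ≤ Q) (hQ1 : ∀ y, conc (p k1) f (2 * δ) y ≤ Q)
    (R : ℝ) (hR : ∀ X : K → α, wt p X ≠ 0 → 0 ≤ SS f X ∧ SS f X ≤ R) (hR0 : 0 ≤ R) :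
    1 / (⌊R / δ⌋₊ + 1 : ℝ) ^ 2 - 3 * ((Fintype.card K : ℝ) ^ 2 * (Q * (Q * ε))) ≤
      ∑ X : K → α, ∑ Y, ∑ Z, wt p X * wt p Y * wt p Z * EEs f δ X Y Z := by
  classical
  have hw : ∀ X, 0 ≤ wt p X := fun X => wt_nonneg hp0 X
  have h1 := cells (fun X => wt p X) hw (sum_wt hp) (fun X => ⌊SS f X / δ⌋₊) (⌊R / δ⌋₊ + 1) (Nat.succ_pos _)
    (fun X hX => by
      have h2 := (hR X hX).2
      have h3 : ⌊SS f X / δ⌋₊ ≤ ⌊R / δ⌋₊ := Nat.floor_le_floor (div_le_div_of_nonneg_right h2 hδ.le)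
      show ⌊SS f X / δ⌋₊ < ⌊R / δ⌋₊ + 1
      omega)
    (EE f δ) (EE_nonneg f δ)
    (fun X Y Z hX hY hZ hXY hYZ => by
      have key : ∀ A B : K → α, wt p A ≠ 0 → wt p B ≠ 0 → ⌊SS f A / δ⌋₊ = ⌊SS f B / δ⌋₊ → |SS f A - SS f B| ≤ δ := by
        intro A B hA hB hAB
        have a1 := Nat.floor_le (div_nonneg (hR A hA).1 hδ.le)
        have a2 := Nat.lt_floor_add_one (SS f A / δ)
        have b1 := Nat.floor_le (div_nonneg (hR B hB).1 hδ.le)
        have b2 := Nat.lt_floor_add_one (SS f B / δ)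
        rw [hAB] at a1 a2
        have c1 : SS f A / δ - SS f B / δ ≤ 1 := by linarith
        have c2 : SS f B / δ - SS f A / δ ≤ 1 := by linarith
        rw [← sub_div, div_le_iff₀ hδ, one_mul] at c1 c2
        exact abs_le.2 ⟨by linarith, c1⟩
      unfold EE
      rw [if_pos ⟨key X Y hX hY hXY, key Y Z hY hZ hYZ, key X Z hX hZ (hXY.trans hYZ)⟩])
  have hsplit : ∀ X Y Z : K → α, EE f δ X Y Z ≤ EEs f δ X Y Z +
      ((∑ k, ∑ k', EE f δ X Y Z * (if X k = Y k' then (1 : ℝ) else 0)) +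
       (∑ k, ∑ k', EE f δ X Y Z * (if Z k = Y k' then (1 : ℝ) else 0)) +
       (∑ k, ∑ k', EE f δ X Y Z * (if X k = Z k' then (1 : ℝ) else 0))) := by
    intro X Y Z
    have hE0 := EE_nonneg f δ X Y Z
    have hs : ∀ A B : K → α, 0 ≤ ∑ k, ∑ k', EE f δ X Y Z * (if A k = B k' then (1 : ℝ) else 0) := fun A B =>
      Finset.sum_nonneg fun _ _ => Finset.sum_nonneg fun _ _ => mul_nonneg hE0 (by split_ifs <;> norm_num)
    have hs1 : ∀ (A B : K → α) (k k' : K), A k = B k' → EE f δ X Y Z ≤ ∑ k, ∑ k', EE f δ X Y Z * (if A k = B k' then (1 : ℝ) else 0) := by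
      intro A B k k' h
      have h1 : EE f δ X Y Z * (if A k = B k' then (1 : ℝ) else 0) ≤ ∑ k', EE f δ X Y Z * (if A k = B k' then (1 : ℝ) else 0) :=
        Finset.single_le_sum (f := fun k' => EE f δ X Y Z * (if A k = B k' then (1 : ℝ) else 0))
          (fun _ _ => mul_nonneg hE0 (by split_ifs <;> norm_num)) (mem_univ k')
      have h2 : ∑ k', EE f δ X Y Z * (if A k = B k' then (1 : ℝ) else 0) ≤ ∑ k, ∑ k', EE f δ X Y Z * (if A k = B k' then (1 : ℝ) else 0) :=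
        Finset.single_le_sum (f := fun k => ∑ k', EE f δ X Y Z * (if A k = B k' then (1 : ℝ) else 0))
          (fun _ _ => Finset.sum_nonneg fun _ _ => mul_nonneg hE0 (by split_ifs <;> norm_num)) (mem_univ k)
      rw [if_pos h, mul_one] at h1
      exact h1.trans h2
    have i1 := hs X Y
    have i2 := hs Z Y
    have i3 := hs X Z
    have i4 := EEs_nonneg f δ X Y Z
    by_cases c1 : ∀ k k', X k ≠ Y k'
    · by_cases c2 : ∀ k k', Y k ≠ Z k'
      · by_cases c3 : ∀ k k', X k ≠ Z k'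
        · have : EEs f δ X Y Z = EE f δ X Y Z := by
            unfold EEs EE
            by_cases h : |SS f X - SS f Y| ≤ δ ∧ |SS f Y - SS f Z| ≤ δ ∧ |SS f X - SS f Z| ≤ δ
            · rw [if_pos h, if_pos ⟨h, c1, c2, c3⟩]
            · rw [if_neg h, if_neg fun h' => h h'.1]
          linarith
        · push Not at c3
          obtain ⟨k, k', h⟩ := c3
          have := hs1 X Z k k' h
          linarith
      · push Not at c2
        obtain ⟨k, k', h⟩ := c2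
        have := hs1 Z Y k' k h.symm
        linarith
    · push Not at c1
      obtain ⟨k, k', h⟩ := c1
      have := hs1 X Y k k' h
      linarith
  have hco := coincide hp0 hp k0 k1 h01 hδ.le Q ε hε hQ0 hQ1
  have hcard : ∀ G : K → K → ℝ, (∀ k k', G k k' ≤ Q * (Q * ε)) → ∑ k, ∑ k', G k k' ≤ (Fintype.card K : ℝ) ^ 2 * (Q * (Q * ε)) := by
    intro G hG
    calc ∑ k, ∑ k', G k k' ≤ ∑ _k : K, ∑ _k' : K, Q * (Q * ε) := Finset.sum_le_sum fun k _ => Finset.sum_le_sum fun k' _ => hG k k'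
      _ = (Fintype.card K : ℝ) ^ 2 * (Q * (Q * ε)) := by
        simp only [Finset.sum_const, Finset.card_univ, nsmul_eq_mul]; ring
  -- interchange of sums
  have hex : ∀ H : K → K → (K → α) → (K → α) → (K → α) → ℝ,
      ∑ X, ∑ Y, ∑ Z, wt p X * wt p Y * wt p Z * (∑ k, ∑ k', H k k' X Y Z) =
      ∑ k, ∑ k', ∑ X, ∑ Y, ∑ Z, wt p X * wt p Y * wt p Z * H k k' X Y Z := by
    intro H
    simp only [Finset.mul_sum]
    calc ∑ X, ∑ Y, ∑ Z, ∑ k, ∑ k', wt p X * wt p Y * wt p Z * H k k' X Y Z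
        = ∑ X, ∑ Y, ∑ k, ∑ Z, ∑ k', wt p X * wt p Y * wt p Z * H k k' X Y Z :=
          Finset.sum_congr rfl fun _ _ => Finset.sum_congr rfl fun _ _ => Finset.sum_comm
      _ = ∑ X, ∑ k, ∑ Y, ∑ Z, ∑ k', wt p X * wt p Y * wt p Z * H k k' X Y Z :=
          Finset.sum_congr rfl fun _ _ => Finset.sum_comm
      _ = ∑ k, ∑ X, ∑ Y, ∑ Z, ∑ k', wt p X * wt p Y * wt p Z * H k k' X Y Z := Finset.sum_comm
      _ = ∑ k, ∑ X, ∑ Y, ∑ k', ∑ Z, wt p X * wt p Y * wt p Z * H k k' X Y Z :=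
          Finset.sum_congr rfl fun _ _ => Finset.sum_congr rfl fun _ _ => Finset.sum_congr rfl fun _ _ => Finset.sum_comm
      _ = ∑ k, ∑ X, ∑ k', ∑ Y, ∑ Z, wt p X * wt p Y * wt p Z * H k k' X Y Z :=
          Finset.sum_congr rfl fun _ _ => Finset.sum_congr rfl fun _ _ => Finset.sum_comm
      _ = ∑ k, ∑ k', ∑ X, ∑ Y, ∑ Z, wt p X * wt p Y * wt p Z * H k k' X Y Z :=
          Finset.sum_congr rfl fun _ _ => Finset.sum_comm
  have c1 : ∑ X, ∑ Y, ∑ Z, wt p X * wt p Y * wt p Z * (∑ k, ∑ k', EE f δ X Y Z * (if X k = Y k' then (1 : ℝ) else 0)) ≤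
      (Fintype.card K : ℝ) ^ 2 * (Q * (Q * ε)) := by
    rw [hex (fun k k' X Y Z => EE f δ X Y Z * (if X k = Y k' then (1 : ℝ) else 0))]
    exact hcard _ hco
  have c2 : ∑ X, ∑ Y, ∑ Z, wt p X * wt p Y * wt p Z * (∑ k, ∑ k', EE f δ X Y Z * (if Z k = Y k' then (1 : ℝ) else 0)) ≤
      (Fintype.card K : ℝ) ^ 2 * (Q * (Q * ε)) := by
    rw [swap13]
    refine le_trans (le_of_eq ?_) c1
    refine Finset.sum_congr rfl fun X _ => Finset.sum_congr rfl fun Y _ => Finset.sum_congr rfl fun Z _ => ?_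
    rw [← EE_swap13]
    ring
  have c3 : ∑ X, ∑ Y, ∑ Z, wt p X * wt p Y * wt p Z * (∑ k, ∑ k', EE f δ X Y Z * (if X k = Z k' then (1 : ℝ) else 0)) ≤
      (Fintype.card K : ℝ) ^ 2 * (Q * (Q * ε)) := by
    rw [swap23]
    refine le_trans (le_of_eq ?_) c1
    refine Finset.sum_congr rfl fun X _ => Finset.sum_congr rfl fun Y _ => Finset.sum_congr rfl fun Z _ => ?_
    rw [← EE_swap23]
    ring
  have htot : ∑ X, ∑ Y, ∑ Z, wt p X * wt p Y * wt p Z * EE f δ X Y Z ≤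
      ∑ X, ∑ Y, ∑ Z, wt p X * wt p Y * wt p Z * EEs f δ X Y Z +
      (∑ X, ∑ Y, ∑ Z, wt p X * wt p Y * wt p Z * (∑ k, ∑ k', EE f δ X Y Z * (if X k = Y k' then (1 : ℝ) else 0)) +
       ∑ X, ∑ Y, ∑ Z, wt p X * wt p Y * wt p Z * (∑ k, ∑ k', EE f δ X Y Z * (if Z k = Y k' then (1 : ℝ) else 0)) +
       ∑ X, ∑ Y, ∑ Z, wt p X * wt p Y * wt p Z * (∑ k, ∑ k', EE f δ X Y Z * (if X k = Z k' then (1 : ℝ) else 0))) := by
    simp only [← Finset.sum_add_distrib]
    refine Finset.sum_le_sum fun X _ => Finset.sum_le_sum fun Y _ => Finset.sum_le_sum fun Z _ => ?_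
    have h2 := mul_le_mul_of_nonneg_left (hsplit X Y Z) (mul_nonneg (mul_nonneg (hw X) (hw Y)) (hw Z))
    refine h2.trans (le_of_eq (by ring))
  push_cast at h1
  linarith

/-- conditional expectation bound -/
lemma eE_le (bK : K → Fin (M + 1)) (q : Fin (M + 1) → α → ℝ) (hq0 : ∀ b a, 0 ≤ q b a) (hq1 : ∀ b, ∑ a, q b a = 1)
    (hδ : 0 ≤ δ) (Q : ℝ) (hQ : ∀ y, conc (q 0) f (2 * δ) y ≤ Q) (k0 : K) (hk0 : bK k0 = 0)
    (t : J ⊕ (K ⊕ K) → α) : eE q bK (EE f δ) t ≤ Q * uu f δ t := by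
  classical
  have hU : Uf f t = SS f (fun k => t (Sum.inr (Sum.inl k))) - SS f (fun k => t (Sum.inr (Sum.inr k))) := by
    unfold Uf SS
    rw [Fintype.sum_sum_type, Fintype.sum_sum_type]
    simp only [sg, Sum.elim_inl, Sum.elim_inr]
    simp
    ring
  unfold eE
  set X : K → α := fun k => t (Sum.inr (Sum.inl k))
  set Y : K → α := fun k => t (Sum.inr (Sum.inr k))
  have h := SS_conc (p := fun k => q (bK k)) (fun _ _ => hq0 _ _) (fun _ => hq1 _) k0 hδ (SS f X) Q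
    (by rw [hk0]; exact hQ)
  have hQn : 0 ≤ Q := (conc_nonneg (hq0 0) _ 0).trans (hQ 0)
  unfold uu
  rw [hU]
  by_cases hc : |SS f X - SS f Y| ≤ δ
  · rw [if_pos hc, mul_one]
    refine le_trans (Finset.sum_le_sum fun Z _ => mul_le_mul_of_nonneg_left ?_ (wt_nonneg (fun _ _ => hq0 _ _) Z)) h
    unfold EE
    by_cases h4 : |SS f X - SS f Y| ≤ δ ∧ |SS f Y - SS f Z| ≤ δ ∧ |SS f X - SS f Z| ≤ δ
    · rw [if_pos h4, if_pos (by rw [abs_sub_comm]; exact h4.2.2)]
    · rw [if_neg h4]; split_ifs <;> norm_num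
  · rw [if_neg hc, mul_zero]
    refine le_of_eq (Finset.sum_eq_zero fun Z _ => ?_)
    unfold EE
    rw [if_neg fun h' => hc h'.1, mul_zero]

end Lower

end Pool.Agent.Helper426
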