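import Mathlib
import Pool.Agent.Helper426.Lower

set_option autoImplicit false
set_option linter.unusedSectionVars false

namespace Pool.Agent.Helper426

open Finset

/-- the Euler density -/
noncomputable def kap (T : Finset ℕ) : ℝ := ∏ p ∈ T, (1 - 1 / (p : ℝ))

/-- systems of weighted triples -/
def TriSys (T : Finset ℕ) (lam a : ℝ) : Prop :=
  ∃ (Ω : Type) (_ : Fintype Ω) (w : Ω → ℝ) (r : Fin 3 → Ω → ℕ),
    (∀ ω, 0 ≤ w ω) ∧
    (∀ ω, w ω ≠ 0 → (∀ i, r i ω ∈ Nat.factoredNumbers T) ∧ (∀ i j, (r i ω : ℝ) ≤ lam * r j ω) ∧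
      (∀ i j, i ≠ j → r i ω ≠ r j ω) ∧ (∃ L, ∀ i j, i ≠ j → Nat.lcm (r i ω) (r j ω) = L)) ∧
    (∀ i d, ∑ ω, (if r i ω = d then w ω else 0) ≤ kap T / d) ∧ a ≤ ∑ ω, w ω

section CountPerm

lemma fact_prod {I : Type} [Fintype I] (t : I → ℕ) (ht : ∀ i, (t i).Prime) (p : ℕ) :
    (∏ i, t i).factorization p = (univ.filter fun i => t i = p).card := by
  rw [Nat.factorization_prod (fun i _ => (ht i).ne_zero), Finsupp.finsetSum_apply, Finset.card_filter]
  refine Finset.sum_congr rfl fun i _ => ?_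
  rw [(ht i).factorization, Finsupp.single_apply]

lemma exists_perm {I : Type} [Fintype I] [DecidableEq I] (t t' : I → ℕ) (ht : ∀ i, (t i).Prime) (ht' : ∀ i, (t' i).Prime)
    (h : ∏ i, t i = ∏ i, t' i) : ∃ σ : Equiv.Perm I, t' = t ∘ σ := by
  have hc : ∀ p, Fintype.card {i // t' i = p} = Fintype.card {i // t i = p} := by
    intro p
    rw [Fintype.card_subtype, Fintype.card_subtype, ← fact_prod t ht, ← fact_prod t' ht', h]
  let e : ∀ p, {i // t' i = p} ≃ {i // t i = p} := fun p => Fintype.equivOfCardEq (hc p)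
  let σ : Equiv.Perm I := (Equiv.sigmaFiberEquiv t').symm.trans ((Equiv.sigmaCongrRight e).trans (Equiv.sigmaFiberEquiv t))
  refine ⟨σ, ?_⟩
  funext i
  show t' i = t ((e (t' i)) ⟨i, rfl⟩).1
  exact ((e (t' i)) ⟨i, rfl⟩).2.symm

end CountPerm

section Window

variable {M : ℕ} (g : Fin (M + 1) → ℕ) (Qb : Fin (M + 1) → Finset ℕ)

/-- all primes of the window -/
abbrev Tw : Finset ℕ := univ.biUnion Qb

/-- reciprocal sums -/
noncomputable def sb (b : Fin (M + 1)) : ℝ := ∑ p ∈ Qb b, (1 : ℝ) / p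

/-- block weights -/
noncomputable def qq (b : Fin (M + 1)) (a : Tw Qb) : ℝ := if (a : ℕ) ∈ Qb b then 1 / ((a : ℕ) * sb Qb b) else 0

/-- logarithm -/
noncomputable def ff (a : Tw Qb) : ℝ := Real.log (a : ℕ)

/-- free positions -/
abbrev JJ (N : Fin (M + 1) → ℕ) : Type := Σ b : Fin (M + 1), Fin (N b - 2 * g b)

/-- exchanged positions -/
abbrev KK : Type := Σ b : Fin (M + 1), Fin (g b)

/-- block of a free position -/
abbrev bJ (N : Fin (M + 1) → ℕ) : JJ g N → Fin (M + 1) := Sigma.fst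

/-- block of an exchanged position -/
abbrev bK : KK g → Fin (M + 1) := Sigma.fst

lemma card_sigma_fiber (n : Fin (M + 1) → ℕ) (b : Fin (M + 1)) :
    (univ.filter fun j : (Σ b : Fin (M + 1), Fin (n b)) => j.1 = b).card = n b := by
  rw [← Fintype.card_subtype]
  have e : {j : (Σ b : Fin (M + 1), Fin (n b)) // j.1 = b} ≃ Fin (n b) := by
    exact Equiv.sigmaSubtype b
  rw [Fintype.card_congr e, Fintype.card_fin]

variable {g Qb}

lemma qq_nonneg (hs : ∀ b, 0 < sb Qb b) (b : Fin (M + 1)) (a : Tw Qb) : 0 ≤ qq Qb b a := by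
  unfold qq
  have := hs b
  split_ifs
  · positivity
  · exact le_rfl

lemma qq_sum (hs : ∀ b, 0 < sb Qb b) (b : Fin (M + 1)) : ∑ a, qq Qb b a = 1 := by
  unfold qq
  rw [Finset.sum_coe_sort (Tw Qb) (fun p : ℕ => if p ∈ Qb b then 1 / ((p : ℝ) * sb Qb b) else 0)]
  rw [← Finset.sum_filter]
  have h1 : (Tw Qb).filter (fun p => p ∈ Qb b) = Qb b := by
    ext p
    simp only [Finset.mem_filter, Finset.mem_biUnion, Finset.mem_univ, true_and, and_iff_right_iff_imp]
    exact fun h => ⟨b, h⟩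
  rw [h1]
  have h2 : ∀ p ∈ Qb b, 1 / ((p : ℝ) * sb Qb b) = (1 / (p : ℝ)) / sb Qb b := fun p _ => by rw [div_div]
  rw [Finset.sum_congr rfl h2, ← Finset.sum_div]
  exact div_self (hs b).ne'

/-- total product of a configuration -/
def RR {I : Type} [Fintype I] (t : I → Tw Qb) : ℕ := ∏ i, ((t i : Tw Qb) : ℕ)

variable (hprime : ∀ b, ∀ p ∈ Qb b, p.Prime)

include hprime in
lemma prime_of_mem (a : Tw Qb) : (a : ℕ).Prime := by
  have := a.2
  rw [Finset.mem_biUnion] at this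
  obtain ⟨b, _, h⟩ := this
  exact hprime b _ h

include hprime in
lemma RR_factored {I : Type} [Fintype I] (t : I → Tw Qb) : RR t ∈ Nat.factoredNumbers (Tw Qb) := by
  rw [Nat.mem_factoredNumbers_iff_forall_le]
  unfold RR
  refine ⟨Finset.prod_ne_zero_iff.2 fun i _ => (prime_of_mem hprime (t i)).ne_zero, ?_⟩
  intro p _ hp hd
  rw [Prime.dvd_finsetProd_iff hp.prime] at hd
  obtain ⟨i, _, h⟩ := hd
  rw [Nat.prime_dvd_prime_iff_eq hp (prime_of_mem hprime (t i))] at h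
  rw [h]
  exact (t i).2

lemma RR_asm {J K : Type} [Fintype J] [Fintype K] (S : J → Tw Qb) (X Y : K → Tw Qb) :
    RR (asm S X Y) = RR S * (RR X * RR Y) := by
  unfold RR
  rw [Fintype.prod_sum_type, Fintype.prod_sum_type]
  rfl

include hprime in
lemma log_RR {K : Type} [Fintype K] (X : K → Tw Qb) : Real.log (RR X : ℝ) = SS (ff Qb) X := by
  unfold RR SS ff
  push_cast
  rw [Real.log_prod]
  intro i _
  exact_mod_cast (prime_of_mem hprime (X i)).ne_zero

include hprime in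
lemma RR_pos {K : Type} [Fintype K] (X : K → Tw Qb) : 0 < RR X :=
  Nat.pos_of_ne_zero (Finset.prod_ne_zero_iff.2 fun i _ => (prime_of_mem hprime (X i)).ne_zero)

include hprime in
lemma RR_coprime {K : Type} [Fintype K] (X Y : K → Tw Qb) (h : ∀ k k', X k ≠ Y k') : Nat.Coprime (RR X) (RR Y) := by
  unfold RR
  refine Nat.Coprime.prod_left fun i _ => Nat.Coprime.prod_right fun j _ => ?_
  rw [Nat.coprime_primes (prime_of_mem hprime _) (prime_of_mem hprime _)]
  intro h'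
  exact h i j (Subtype.ext h')

include hprime in
lemma RR_one_lt {K : Type} [Fintype K] (k0 : K) (X : K → Tw Qb) : 1 < RR X := by
  classical
  unfold RR
  rw [← Finset.mul_prod_erase univ _ (mem_univ k0)]
  have h1 := (prime_of_mem hprime (X k0)).one_lt
  have h2 : 0 < ∏ i ∈ univ.erase k0, ((X i : Tw Qb) : ℕ) :=
    Nat.pos_of_ne_zero (Finset.prod_ne_zero_iff.2 fun i _ => (prime_of_mem hprime (X i)).ne_zero)
  nlinarith

variable (hdisj : ∀ b b', ∀ p, p ∈ Qb b → p ∈ Qb b' → b = b')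

/-- configuration respecting the blocks -/
def Good {I : Type} (β : I → Fin (M + 1)) (t : I → Tw Qb) : Prop := ∀ i, ((t i : Tw Qb) : ℕ) ∈ Qb (β i)

include hprime hdisj in
lemma good_count (N : Fin (M + 1) → ℕ) (d : ℕ) :
    open Classical in
    ((univ.filter fun t : JJ g N ⊕ (KK g ⊕ KK g) → Tw Qb => Good (blk (bJ g N) (bK g)) t ∧ RR t = d).card) ≤
      (Gam (bJ g N) (bK g)).card := by
  classical
  rcases (univ.filter fun t : JJ g N ⊕ (KK g ⊕ KK g) → Tw Qb => Good (blk (bJ g N) (bK g)) t ∧ RR t = d).eq_empty_or_nonempty with h | ⟨t0, h0⟩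
  · rw [h]; simp
  simp only [Finset.mem_filter, Finset.mem_univ, true_and] at h0
  have hex : ∀ t : JJ g N ⊕ (KK g ⊕ KK g) → Tw Qb, Good (blk (bJ g N) (bK g)) t ∧ RR t = d →
      ∃ σ ∈ Gam (bJ g N) (bK g), t = t0 ∘ σ := by
    intro t ht
    obtain ⟨σ, hσ⟩ := exists_perm (fun i => ((t0 i : Tw Qb) : ℕ)) (fun i => ((t i : Tw Qb) : ℕ))
      (fun i => prime_of_mem hprime _) (fun i => prime_of_mem hprime _) (h0.2.trans ht.2.symm)
    refine ⟨σ, ?_, ?_⟩
    · rw [mem_Gam]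
      intro i
      have h1 := ht.1 i
      have h2 := h0.1 (σ i)
      have h3 : ((t i : Tw Qb) : ℕ) = ((t0 (σ i) : Tw Qb) : ℕ) := congrFun hσ i
      rw [h3] at h1
      exact hdisj _ _ _ h2 h1
    · funext i
      exact Subtype.ext (congrFun hσ i)
  let φ : (JJ g N ⊕ (KK g ⊕ KK g) → Tw Qb) → Equiv.Perm (JJ g N ⊕ (KK g ⊕ KK g)) := fun t =>
    if h : Good (blk (bJ g N) (bK g)) t ∧ RR t = d then (hex t h).choose else 1
  refine Finset.card_le_card_of_injOn φ ?_ ?_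
  · intro t ht
    simp only [Finset.coe_filter, Finset.mem_univ, true_and, Set.mem_ofPred_eq] at ht
    simp only [φ, dif_pos ht]
    exact (hex t ht).choose_spec.1
  · intro t ht t' ht' hφ
    simp only [Finset.coe_filter, Finset.mem_univ, true_and, Set.mem_ofPred_eq] at ht ht'
    simp only [φ, dif_pos ht, dif_pos ht'] at hφ
    rw [(hex t ht).choose_spec.2, (hex t' ht').choose_spec.2, hφ]

/-- the block multiplicities of an integer -/
def nu (Qb : Fin (M + 1) → Finset ℕ) (d : ℕ) (b : Fin (M + 1)) : ℕ := ∑ p ∈ Qb b, d.factorization p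

include hprime hdisj in
lemma nu_eq (N : Fin (M + 1) → ℕ) (hN : ∀ b, 3 * g b ≤ N b) (t : JJ g N ⊕ (KK g ⊕ KK g) → Tw Qb)
    (ht : Good (blk (bJ g N) (bK g)) t) (b : Fin (M + 1)) : nu Qb (RR t) b = N b := by
  unfold nu RR
  have h1 : ∀ p ∈ Qb b, (∏ i, ((t i : Tw Qb) : ℕ)).factorization p = (univ.filter fun i => ((t i : Tw Qb) : ℕ) = p).card :=
    fun p _ => fact_prod _ (fun i => prime_of_mem hprime _) p
  rw [Finset.sum_congr rfl h1, ← Finset.card_biUnion]
  · have h2 : (Qb b).biUnion (fun p => univ.filter fun i => ((t i : Tw Qb) : ℕ) = p) =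
        univ.filter fun i => blk (bJ g N) (bK g) i = b := by
      ext i
      simp only [Finset.mem_biUnion, Finset.mem_filter, Finset.mem_univ, true_and]
      constructor
      · rintro ⟨p, hp, rfl⟩
        exact hdisj _ _ _ (ht i) hp
      · intro h
        refine ⟨_, ?_, rfl⟩
        rw [← h]
        exact ht i
    rw [h2, card_filter_sum]
    have e1 := card_sigma_fiber (fun b => N b - 2 * g b) b
    have e2 := card_sigma_fiber g b
    rw [show (univ.filter fun j : JJ g N => blk (bJ g N) (bK g) (Sum.inl j) = b) = univ.filter (fun j => j.1 = b) from rfl,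
      show (univ.filter fun k : KK g => blk (bJ g N) (bK g) (Sum.inr (Sum.inl k)) = b) = univ.filter (fun k => k.1 = b) from rfl,
      show (univ.filter fun k : KK g => blk (bJ g N) (bK g) (Sum.inr (Sum.inr k)) = b) = univ.filter (fun k => k.1 = b) from rfl,
      e1, e2]
    have := hN b
    omega
  · intro p _ p' _ hpp
    rw [Function.onFun, Finset.disjoint_left]
    intro i hi hi'
    simp only [Finset.mem_filter, Finset.mem_univ, true_and] at hi hi'
    exact hpp (hi.symm.trans hi')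

lemma wt_good (N : Fin (M + 1) → ℕ) (hN : ∀ b, 3 * g b ≤ N b)
    (t : JJ g N ⊕ (KK g ⊕ KK g) → Tw Qb) (ht : Good (blk (bJ g N) (bK g)) t) :
    wt (pI (qq Qb) (bJ g N) (bK g)) t = 1 / ((RR t : ℝ) * ∏ b, (sb Qb b) ^ (N b)) := by
  unfold wt pI qq
  rw [Finset.prod_congr rfl fun i _ => if_pos (ht i), Finset.prod_div_distrib, Finset.prod_const_one,
    Finset.prod_mul_distrib]
  congr 2
  · unfold RR; push_cast; rfl
  · rw [Fintype.prod_sum_type, Fintype.prod_sum_type]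
    have hsig : ∀ n : Fin (M + 1) → ℕ, ∏ j : (Σ b : Fin (M + 1), Fin (n b)), sb Qb j.1 = ∏ b, (sb Qb b) ^ (n b) := by
      intro n
      rw [Fintype.prod_sigma]
      refine Finset.prod_congr rfl fun b _ => ?_
      have h0 : ∏ y : Fin (n b), sb Qb (⟨b, y⟩ : (Σ b : Fin (M + 1), Fin (n b))).fst = ∏ _y : Fin (n b), sb Qb b := rfl
      rw [h0, Finset.prod_const, Finset.card_univ, Fintype.card_fin]
    have e1 : ∏ j : JJ g N, sb Qb (blk (bJ g N) (bK g) (Sum.inl j)) = ∏ b, (sb Qb b) ^ (N b - 2 * g b) := hsig _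
    have e2 : ∏ k : KK g, sb Qb (blk (bJ g N) (bK g) (Sum.inr (Sum.inl k))) = ∏ b, (sb Qb b) ^ (g b) := hsig _
    have e3 : ∏ k : KK g, sb Qb (blk (bJ g N) (bK g) (Sum.inr (Sum.inr k))) = ∏ b, (sb Qb b) ^ (g b) := hsig _
    rw [e1, e2, e3, ← Finset.prod_mul_distrib, ← Finset.prod_mul_distrib]
    refine Finset.prod_congr rfl fun b _ => ?_
    rw [← pow_add, ← pow_add]
    congr 1
    have := hN b
    omega

lemma wt_not_good (N : Fin (M + 1) → ℕ) (t : JJ g N ⊕ (KK g ⊕ KK g) → Tw Qb)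
    (ht : ¬ Good (blk (bJ g N) (bK g)) t) : wt (pI (qq Qb) (bJ g N) (bK g)) t = 0 := by
  unfold Good at ht
  push Not at ht
  obtain ⟨i, hi⟩ := ht
  unfold wt
  refine Finset.prod_eq_zero (mem_univ i) ?_
  unfold pI qq
  rw [if_neg hi]

/-- indicator of the product -/
noncomputable def hh (N : Fin (M + 1) → ℕ) (d : ℕ) (t : JJ g N ⊕ (KK g ⊕ KK g) → Tw Qb) : ℝ := if RR t = d then 1 else 0

lemma hh_nonneg (N : Fin (M + 1) → ℕ) (d : ℕ) (t : JJ g N ⊕ (KK g ⊕ KK g) → Tw Qb) : 0 ≤ hh N d t := by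
  unfold hh; split_ifs <;> norm_num

lemma hh_inv (N : Fin (M + 1) → ℕ) (d : ℕ) (t : JJ g N ⊕ (KK g ⊕ KK g) → Tw Qb)
    (σ : Equiv.Perm (JJ g N ⊕ (KK g ⊕ KK g))) : hh N d (t ∘ σ) = hh N d t := by
  unfold hh RR
  have : ∏ i, (((t ∘ σ) i : Tw Qb) : ℕ) = ∏ i, ((t i : Tw Qb) : ℕ) := Equiv.prod_comp σ (fun i => ((t i : Tw Qb) : ℕ))
  rw [this]

include hprime hdisj in
lemma dom_fixed (hs : ∀ b, 0 < sb Qb b) (N : Fin (M + 1) → ℕ) (hN : ∀ b, 3 * g b ≤ N b) (d : ℕ) :
    ∑ t, wt (pI (qq Qb) (bJ g N) (bK g)) t * hh N d t ≤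
      if N = nu Qb d then (∏ b, ((N b).factorial : ℝ) / (sb Qb b) ^ (N b)) / d else 0 := by
  classical
  by_cases hNd : N = nu Qb d
  · rw [if_pos hNd]
    have h1 : ∀ t : JJ g N ⊕ (KK g ⊕ KK g) → Tw Qb, wt (pI (qq Qb) (bJ g N) (bK g)) t * hh N d t =
        if Good (blk (bJ g N) (bK g)) t ∧ RR t = d then 1 / ((d : ℝ) * ∏ b, (sb Qb b) ^ (N b)) else 0 := by
      intro t
      by_cases hg : Good (blk (bJ g N) (bK g)) t
      · by_cases hd : RR t = d
        · rw [if_pos ⟨hg, hd⟩, wt_good N hN t hg, hh, if_pos hd, mul_one, hd]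
        · rw [if_neg fun h => hd h.2, hh, if_neg hd, mul_zero]
      · rw [if_neg fun h => hg h.1, wt_not_good N t hg, zero_mul]
    rw [Finset.sum_congr rfl fun t _ => h1 t, ← Finset.sum_filter, Finset.sum_const, nsmul_eq_mul]
    have h2 := good_count (g := g) hprime hdisj N d
    have h3 := Gam_card (bJ g N) (bK g) (fun b => N b - 2 * g b) g
      (fun b => card_sigma_fiber (fun b => N b - 2 * g b) b) (fun b => card_sigma_fiber g b)
    rw [h3] at h2
    have h4 : ∏ b, Nat.factorial (N b - 2 * g b + (g b + g b)) = ∏ b, (N b).factorial := by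
      refine Finset.prod_congr rfl fun b _ => ?_
      congr 1
      have := hN b
      omega
    rw [h4] at h2
    have hS : 0 < ∏ b, (sb Qb b) ^ (N b) := Finset.prod_pos fun b _ => pow_pos (hs b) _
    have h5 : (((univ.filter fun t : JJ g N ⊕ (KK g ⊕ KK g) → Tw Qb => Good (blk (bJ g N) (bK g)) t ∧ RR t = d).card : ℕ) : ℝ) ≤
        ∏ b, ((N b).factorial : ℝ) := by exact_mod_cast h2
    calc _ ≤ (∏ b, ((N b).factorial : ℝ)) * (1 / ((d : ℝ) * ∏ b, (sb Qb b) ^ (N b))) :=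
          mul_le_mul_of_nonneg_right h5 (by positivity)
      _ = _ := by
        rw [Finset.prod_div_distrib]
        rw [mul_one_div, div_div, mul_comm (d : ℝ)]
  · rw [if_neg hNd]
    refine le_of_eq (Finset.sum_eq_zero fun t _ => ?_)
    by_cases hg : Good (blk (bJ g N) (bK g)) t
    · unfold hh
      rw [if_neg, mul_zero]
      rintro rfl
      apply hNd
      funext b
      exact (nu_eq hprime hdisj N hN t hg b).symm
    · rw [wt_not_good N t hg, zero_mul]

/-- Poisson weight of the block sizes -/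
noncomputable def cc (g : Fin (M + 1) → ℕ) (Qb : Fin (M + 1) → Finset ℕ) (N : Fin (M + 1) → ℕ) : ℝ :=
  ∏ b, (if 3 * g b ≤ N b then kap (Qb b) * (sb Qb b) ^ (N b) / (N b).factorial else 0)

lemma kap_nonneg_of_prime (T : Finset ℕ) (hT : ∀ p ∈ T, p.Prime) : 0 ≤ kap T := by
  unfold kap
  refine Finset.prod_nonneg fun p hp => ?_
  have : (1 : ℝ) ≤ p := by exact_mod_cast (hT p hp).one_lt.le
  have h2 : 1 / (p : ℝ) ≤ 1 := by rw [div_le_one (by linarith)]; exact this
  linarith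

include hdisj in
lemma kap_Tw : kap (Tw Qb) = ∏ b, kap (Qb b) := by
  unfold kap
  rw [Finset.prod_biUnion]
  intro b _ b' _ hbb
  rw [Function.onFun, Finset.disjoint_left]
  intro p hp hp'
  exact hbb (hdisj _ _ _ hp hp')

include hprime hdisj in
/-- the abstract window statement -/
theorem window_abs (hg0 : 2 ≤ g 0) (hs : ∀ b, 0 < sb Qb b) (δ : ℝ) (hδ : 0 < δ) (Q : Fin (M + 1) → ℝ)
    (hQ : ∀ b y, conc (qq Qb b) (ff Qb) (2 * δ) y ≤ Q b) (mm : Fin (M + 1) → ℝ)
    (hmm : ∀ b n, g b ≤ n → ((Nat.factorial n * (Nat.factorial (g b) * Nat.factorial (g b)) : ℕ) : ℝ) / (Nat.factorial (n + (g b + g b)) : ℕ) ≤ mm b)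
    (ε : ℝ) (hε : ∀ b a, qq Qb b a ≤ ε) (R : ℝ) (hR : ∀ X : KK g → Tw Qb, (∀ k, ((X k : Tw Qb) : ℕ) ∈ Qb k.1) → SS (ff Qb) X ≤ R)
    (V C m0 c0 : ℝ) (hC : 0 < C) (hm0 : 0 ≤ m0)
    (hV : (Q 0) ^ 2 * (∑ m : Fin (M + 1), Q 0 * Q m * (2 * ∏ b : Fin (M + 1), (if b.val < m.val then mm b else 1)) +
      Q 0 * (2 * ∏ b : Fin (M + 1), mm b)) ≤ V)
    (hm : m0 ≤ (1 / (⌊R / δ⌋₊ + 1 : ℝ) ^ 2 - 3 * ((Fintype.card (KK g) : ℝ) ^ 2 * (Q 0 * (Q 0 * ε))) - 3 * (V / C)) / C)
    (Nm : ℕ) (hc0 : c0 ≤ ∑ N : Fin (M + 1) → Fin (Nm + 1), cc g Qb (fun b => (N b : ℕ))) :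
    TriSys (Tw Qb) (Real.exp δ) (c0 * m0) := by
  classical
  have hq0 : ∀ b a, 0 ≤ qq Qb b a := qq_nonneg hs
  have hq1 : ∀ b, ∑ a, qq Qb b a = 1 := qq_sum hs
  have hQ0 : ∀ b, 0 ≤ Q b := fun b => (conc_nonneg (hq0 b) _ 0).trans (hQ b 0)
  have hmm0 : ∀ b, 0 ≤ mm b := fun b => le_trans (by positivity) (hmm b (g b) le_rfl)
  have hcc0 : ∀ N, 0 ≤ cc g Qb N := by
    intro N
    unfold cc
    refine Finset.prod_nonneg fun b _ => ?_
    have h1 := kap_nonneg_of_prime (Qb b) (hprime b)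
    have h2 := hs b
    split_ifs
    · positivity
    · exact le_rfl
  let k0 : KK g := ⟨0, ⟨0, by omega⟩⟩
  let k1 : KK g := ⟨0, ⟨1, by omega⟩⟩
  have h01 : k0 ≠ k1 := by
    intro h
    simp only [k0, k1, Sigma.mk.injEq, heq_eq_eq, Fin.mk.injEq, true_and] at h
    omega
  -- second moments
  have hVN : ∀ N : Fin (M + 1) → ℕ, (∀ b, 3 * g b ≤ N b) →
      ∑ t, wt (pI (qq Qb) (bJ g N) (bK g)) t * (TT (qq Qb) (bJ g N) (bK g) (EE (ff Qb) δ) t) ^ 2 ≤ V := by
    intro N hN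
    have h1 := second_moment (bJ g N) (bK g) hq0 (EE_nonneg (ff Qb) δ) (uu (ff Qb) δ) (uu_nonneg (ff Qb) δ) (Q 0) (hQ0 0)
      (fun t => eE_le (bK g) (qq Qb) hq0 hq1 hδ.le (Q 0) (hQ 0) k0 rfl t)
    have h2 := avg_bound (f := ff Qb) (q := qq Qb) (δ := δ) (bJ g N) (bK g) (fun b => N b - 2 * g b) g
      (fun b => card_sigma_fiber (fun b => N b - 2 * g b) b) (fun b => card_sigma_fiber g b) ⟨k0, rfl⟩ hq0 hq1 hδ.le Q hQ
    have hmle : ∀ b, mmr (fun b => N b - 2 * g b) g b ≤ mm b := by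
      intro b
      unfold mmr
      refine hmm b _ ?_
      have := hN b
      show g b ≤ N b - 2 * g b
      omega
    have hmge : ∀ b, 0 ≤ mmr (fun b => N b - 2 * g b) g b := fun b => by unfold mmr; positivity
    refine h1.trans ((mul_le_mul_of_nonneg_left (h2.trans ?_) (sq_nonneg _)).trans hV)
    refine add_le_add (Finset.sum_le_sum fun m _ => ?_) ?_
    · refine mul_le_mul_of_nonneg_left (mul_le_mul_of_nonneg_left ?_ (by norm_num)) (mul_nonneg (hQ0 _) (hQ0 _))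
      refine Finset.prod_le_prod (fun b _ => ?_) (fun b _ => ?_)
      · split_ifs
        · exact hmge b
        · norm_num
      · split_ifs
        · exact hmle b
        · exact le_rfl
    · refine mul_le_mul_of_nonneg_left (mul_le_mul_of_nonneg_left ?_ (by norm_num)) (hQ0 _)
      exact Finset.prod_le_prod (fun b _ => hmge b) (fun b _ => hmle b)
  -- clean event
  have hElow : 1 / (⌊R / δ⌋₊ + 1 : ℝ) ^ 2 - 3 * ((Fintype.card (KK g) : ℝ) ^ 2 * (Q 0 * (Q 0 * ε))) ≤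
      ∑ X : KK g → Tw Qb, ∑ Y, ∑ Z, wt (fun k => qq Qb (bK g k)) X * wt (fun k => qq Qb (bK g k)) Y *
        wt (fun k => qq Qb (bK g k)) Z * EEs (ff Qb) δ X Y Z := by
    have hSS0 : ∀ X : KK g → Tw Qb, 0 ≤ SS (ff Qb) X := by
      intro X
      unfold SS ff
      exact Finset.sum_nonneg fun k _ => Real.log_natCast_nonneg _
    have hgood : ∀ X : KK g → Tw Qb, wt (fun k => qq Qb (bK g k)) X ≠ 0 → ∀ k, ((X k : Tw Qb) : ℕ) ∈ Qb k.1 := by
      intro X hX k
      by_contra h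
      apply hX
      unfold wt
      refine Finset.prod_eq_zero (mem_univ k) ?_
      unfold qq
      exact if_neg h
    have hT1 : 0 ≤ R := by
      have hsum : ∑ X : KK g → Tw Qb, wt (fun k => qq Qb (bK g k)) X ≠ 0 := by
        rw [sum_wt (fun k => hq1 _)]; norm_num
      obtain ⟨X, _, hX⟩ := Finset.exists_ne_zero_of_sum_ne_zero hsum
      exact (hSS0 X).trans (hR X (hgood X hX))
    exact EEs_lower (f := ff Qb) (p := fun k => qq Qb (bK g k)) (fun k a => hq0 _ _) (fun k => hq1 _) k0 k1 h01 hδ (Q 0) ε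
      (fun k a => hε _ _) (fun y => hQ 0 y) (fun y => hQ 0 y) R (fun X hX => ⟨hSS0 X, hR X (hgood X hX)⟩) hT1
  -- the system
  let WN : (N : Fin (M + 1) → Fin (Nm + 1)) → (JJ g (fun b => (N b : ℕ)) → Tw Qb) → (KK g → Tw Qb) → (KK g → Tw Qb) → (KK g → Tw Qb) → ℝ :=
    fun N S X Y Z => WW (qq Qb) (bJ g (fun b => (N b : ℕ))) (bK g) (EE (ff Qb) δ) (EEs (ff Qb) δ) C S X Y Z
  have hWN0 : ∀ N S X Y Z, 0 ≤ WN N S X Y Z := fun N S X Y Z => WW_nonneg _ _ hq0 (EEs_nonneg (ff Qb) δ) C hC S X Y Z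
  let Ω : Type := Σ N : (Fin (M + 1) → Fin (Nm + 1)), (JJ g (fun b => (N b : ℕ)) → Tw Qb) × ((KK g → Tw Qb) × ((KK g → Tw Qb) × (KK g → Tw Qb)))
  let w : Ω → ℝ := fun ω => cc g Qb (fun b => (ω.1 b : ℕ)) * WN ω.1 ω.2.1 ω.2.2.1 ω.2.2.2.1 ω.2.2.2.2
  let r : Fin 3 → Ω → ℕ := ![fun ω => RR (asm ω.2.1 ω.2.2.1 ω.2.2.2.1), fun ω => RR (asm ω.2.1 ω.2.2.2.2 ω.2.2.2.1),
    fun ω => RR (asm ω.2.1 ω.2.2.1 ω.2.2.2.2)]
  have hsumΩ : ∀ F : Ω → ℝ, ∑ ω, F ω = ∑ N, ∑ S, ∑ X, ∑ Y, ∑ Z, F ⟨N, (S, (X, (Y, Z)))⟩ := by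
    intro F
    rw [Fintype.sum_sigma]
    refine Finset.sum_congr rfl fun N _ => ?_
    rw [Fintype.sum_prod_type]
    refine Finset.sum_congr rfl fun S _ => ?_
    rw [Fintype.sum_prod_type]
    refine Finset.sum_congr rfl fun X _ => ?_
    rw [Fintype.sum_prod_type]
  refine ⟨Ω, inferInstance, w, r, ?_, ?_, ?_, ?_⟩
  · intro ω
    exact mul_nonneg (hcc0 _) (hWN0 _ _ _ _ _)
  · rintro ⟨N, S, X, Y, Z⟩ hw
    have hEs : EEs (ff Qb) δ X Y Z ≠ 0 := by
      intro h
      apply hw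
      simp only [w, WN, WW]
      rw [h]
      simp
    unfold EEs at hEs
    rw [ne_eq, ite_eq_right_iff, Classical.not_imp] at hEs
    obtain ⟨⟨⟨a1, a2, a3⟩, b1, b2, b3⟩, -⟩ := hEs
    have cXY := RR_coprime hprime X Y b1
    have cYZ := RR_coprime hprime Y Z b2
    have cXZ := RR_coprime hprime X Z b3
    have r0 : r 0 ⟨N, S, X, Y, Z⟩ = RR S * (RR X * RR Y) := RR_asm S X Y
    have r1 : r 1 ⟨N, S, X, Y, Z⟩ = RR S * (RR Z * RR Y) := RR_asm S Z Y
    have r2 : r 2 ⟨N, S, X, Y, Z⟩ = RR S * (RR X * RR Z) := RR_asm S X Z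
    have pS := RR_pos hprime S
    have pX := RR_pos hprime X
    have pY := RR_pos hprime Y
    have pZ := RR_pos hprime Z
    have oX := RR_one_lt hprime k0 X
    have oY := RR_one_lt hprime k0 Y
    have oZ := RR_one_lt hprime k0 Z
    have hratio : ∀ A B : KK g → Tw Qb, |SS (ff Qb) A - SS (ff Qb) B| ≤ δ → (RR A : ℝ) ≤ Real.exp δ * RR B := by
      intro A B h
      have h1 := (abs_le.1 h).2
      rw [← log_RR hprime A, ← log_RR hprime B] at h1
      have pA : (0 : ℝ) < RR A := by exact_mod_cast RR_pos hprime A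
      have pB : (0 : ℝ) < RR B := by exact_mod_cast RR_pos hprime B
      have h2 : Real.log (RR A : ℝ) ≤ Real.log (Real.exp δ * RR B) := by
        rw [Real.log_mul (Real.exp_pos _).ne' pB.ne', Real.log_exp]
        linarith
      exact (Real.log_le_log_iff pA (by positivity)).1 h2
    have e1 : (1 : ℝ) ≤ Real.exp δ := Real.one_le_exp hδ.le
    have hXY := hratio X Y a1
    have hYX := hratio Y X (by rw [abs_sub_comm]; exact a1)
    have hYZ := hratio Y Z a2
    have hZY := hratio Z Y (by rw [abs_sub_comm]; exact a2)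
    have hXZ := hratio X Z a3
    have hZX := hratio Z X (by rw [abs_sub_comm]; exact a3)
    refine ⟨?_, ?_, ?_, ?_⟩
    · intro i
      fin_cases i
      · exact RR_factored hprime _
      · exact RR_factored hprime _
      · exact RR_factored hprime _
    · have main : ∀ A B D : ℕ, (A : ℝ) ≤ Real.exp δ * B →
          ((RR S * (A * D) : ℕ) : ℝ) ≤ Real.exp δ * ((RR S * (B * D) : ℕ) : ℝ) := by
        intro A B D h
        push_cast
        have : (0 : ℝ) ≤ (RR S : ℝ) * D := by positivity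
        nlinarith
      have same : ∀ A : ℕ, (A : ℝ) ≤ Real.exp δ * A := by
        intro A
        have : (0 : ℝ) ≤ A := by positivity
        nlinarith
      intro i j
      fin_cases i <;> fin_cases j
      · exact same _
      · show ((r 0 ⟨N, S, X, Y, Z⟩ : ℕ) : ℝ) ≤ Real.exp δ * ((r 1 ⟨N, S, X, Y, Z⟩ : ℕ) : ℝ)
        rw [r0, r1]; exact main _ _ _ hXZ
      · show ((r 0 ⟨N, S, X, Y, Z⟩ : ℕ) : ℝ) ≤ Real.exp δ * ((r 2 ⟨N, S, X, Y, Z⟩ : ℕ) : ℝ)
        rw [r0, r2, mul_comm (RR X) (RR Y), mul_comm (RR X) (RR Z)]; exact main _ _ _ hYZ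
      · show ((r 1 ⟨N, S, X, Y, Z⟩ : ℕ) : ℝ) ≤ Real.exp δ * ((r 0 ⟨N, S, X, Y, Z⟩ : ℕ) : ℝ)
        rw [r0, r1]; exact main _ _ _ hZX
      · exact same _
      · show ((r 1 ⟨N, S, X, Y, Z⟩ : ℕ) : ℝ) ≤ Real.exp δ * ((r 2 ⟨N, S, X, Y, Z⟩ : ℕ) : ℝ)
        rw [r1, r2, mul_comm (RR Z) (RR Y)]; exact main _ _ _ hYX
      · show ((r 2 ⟨N, S, X, Y, Z⟩ : ℕ) : ℝ) ≤ Real.exp δ * ((r 0 ⟨N, S, X, Y, Z⟩ : ℕ) : ℝ)
        rw [r0, r2, mul_comm (RR X) (RR Y), mul_comm (RR X) (RR Z)]; exact main _ _ _ hZY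
      · show ((r 2 ⟨N, S, X, Y, Z⟩ : ℕ) : ℝ) ≤ Real.exp δ * ((r 1 ⟨N, S, X, Y, Z⟩ : ℕ) : ℝ)
        rw [r1, r2, mul_comm (RR Z) (RR Y)]; exact main _ _ _ hXY
      · exact same _
    · have cne : ∀ A B D : ℕ, 0 < D → 1 < A → Nat.Coprime A B → RR S * (A * D) ≠ RR S * (B * D) := by
        intro A B D hD hA hAB h
        have h1 := Nat.eq_of_mul_eq_mul_left pS h
        have h2 := Nat.eq_of_mul_eq_mul_right hD h1
        rw [← h2, Nat.coprime_self] at hAB
        omega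
      have n01 : r 0 ⟨N, S, X, Y, Z⟩ ≠ r 1 ⟨N, S, X, Y, Z⟩ := by
        rw [r0, r1]; exact cne _ _ _ pY oX cXZ
      have n02 : r 0 ⟨N, S, X, Y, Z⟩ ≠ r 2 ⟨N, S, X, Y, Z⟩ := by
        rw [r0, r2, mul_comm (RR X) (RR Y), mul_comm (RR X) (RR Z)]; exact cne _ _ _ pX oY cYZ
      have n12 : r 1 ⟨N, S, X, Y, Z⟩ ≠ r 2 ⟨N, S, X, Y, Z⟩ := by
        rw [r1, r2, mul_comm (RR Z) (RR Y)]; exact cne _ _ _ pZ oY cXY.symm
      intro i j hij
      fin_cases i <;> fin_cases j
      · exact absurd rfl hij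
      · exact n01
      · exact n02
      · exact n01.symm
      · exact absurd rfl hij
      · exact n12
      · exact n02.symm
      · exact n12.symm
      · exact absurd rfl hij
    · have lc : ∀ A B D : ℕ, Nat.Coprime A B → Nat.lcm (RR S * (A * D)) (RR S * (B * D)) = RR S * (A * B * D) := by
        intro A B D hAB
        rw [Nat.lcm_mul_left, Nat.lcm_mul_right, hAB.lcm_eq_mul]
      have l01 : Nat.lcm (r 0 ⟨N, S, X, Y, Z⟩) (r 1 ⟨N, S, X, Y, Z⟩) = RR S * (RR X * RR Y * RR Z) := by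
        rw [r0, r1, lc _ _ _ cXZ]; ring
      have l02 : Nat.lcm (r 0 ⟨N, S, X, Y, Z⟩) (r 2 ⟨N, S, X, Y, Z⟩) = RR S * (RR X * RR Y * RR Z) := by
        rw [r0, r2, mul_comm (RR X) (RR Y), mul_comm (RR X) (RR Z), lc _ _ _ cYZ]; ring
      have l12 : Nat.lcm (r 1 ⟨N, S, X, Y, Z⟩) (r 2 ⟨N, S, X, Y, Z⟩) = RR S * (RR X * RR Y * RR Z) := by
        rw [r1, r2, mul_comm (RR Z) (RR Y), lc _ _ _ cXY.symm]; ring
      refine ⟨RR S * (RR X * RR Y * RR Z), ?_⟩
      intro i j hij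
      fin_cases i <;> fin_cases j
      · exact absurd rfl hij
      · exact l01
      · exact l02
      · rw [Nat.lcm_comm]; exact l01
      · exact absurd rfl hij
      · exact l12
      · rw [Nat.lcm_comm]; exact l02
      · rw [Nat.lcm_comm]; exact l12
      · exact absurd rfl hij
  · -- domination
    intro i d
    rw [hsumΩ]
    have hfix : ∀ N : Fin (M + 1) → Fin (Nm + 1),
        ∑ S, ∑ X, ∑ Y, ∑ Z, (if r i ⟨N, (S, (X, (Y, Z)))⟩ = d then w ⟨N, (S, (X, (Y, Z)))⟩ else 0) ≤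
        if (fun b => (N b : ℕ)) = nu Qb d then kap (Tw Qb) / d else 0 := by
      intro N
      set N' : Fin (M + 1) → ℕ := fun b => (N b : ℕ) with hN'
      have hkap : 0 ≤ kap (Tw Qb) / (d : ℝ) := by
        refine div_nonneg (kap_nonneg_of_prime _ ?_) (by positivity)
        intro p hp
        exact prime_of_mem hprime ⟨p, hp⟩
      by_cases hN : ∀ b, 3 * g b ≤ N' b
      · have hd := WW_dom (bJ g N') (bK g) (EEs_swap13 (ff Qb) δ) (EEs_swap23 (ff Qb) δ) C hC hq0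
          (EEs_nonneg (ff Qb) δ) (EEs_le (ff Qb) δ) (hh N' d) (hh_nonneg N' d) (fun t σ _ => hh_inv N' d t σ)
        have hdf := dom_fixed (g := g) hprime hdisj hs N' hN d
        have hconv : ∑ S, ∑ X, ∑ Y, ∑ Z, (if r i ⟨N, (S, (X, (Y, Z)))⟩ = d then w ⟨N, (S, (X, (Y, Z)))⟩ else 0) ≤
            cc g Qb N' * ∑ t, wt (pI (qq Qb) (bJ g N') (bK g)) t * hh N' d t := by
          have hgen : ∀ (G : (JJ g N' → Tw Qb) → (KK g → Tw Qb) → (KK g → Tw Qb) → (KK g → Tw Qb) → ℕ)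
              (A : (JJ g N' → Tw Qb) → (KK g → Tw Qb) → (KK g → Tw Qb) → (KK g → Tw Qb) → (JJ g N' ⊕ (KK g ⊕ KK g) → Tw Qb)),
              (∀ S X Y Z, G S X Y Z = RR (A S X Y Z)) →
              (∑ S, ∑ X, ∑ Y, ∑ Z, WW (qq Qb) (bJ g N') (bK g) (EE (ff Qb) δ) (EEs (ff Qb) δ) C S X Y Z * hh N' d (A S X Y Z) ≤
                ∑ t, wt (pI (qq Qb) (bJ g N') (bK g)) t * hh N' d t) →
              ∑ S, ∑ X, ∑ Y, ∑ Z, (if G S X Y Z = d then w ⟨N, (S, (X, (Y, Z)))⟩ else 0) ≤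
                cc g Qb N' * ∑ t, wt (pI (qq Qb) (bJ g N') (bK g)) t * hh N' d t := by
            intro G A hGA hle
            refine le_trans (le_of_eq ?_) (mul_le_mul_of_nonneg_left hle (hcc0 N'))
            rw [Finset.mul_sum]
            refine Finset.sum_congr rfl fun S _ => ?_
            rw [Finset.mul_sum]
            refine Finset.sum_congr rfl fun X _ => ?_
            rw [Finset.mul_sum]
            refine Finset.sum_congr rfl fun Y _ => ?_
            rw [Finset.mul_sum]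
            refine Finset.sum_congr rfl fun Z _ => ?_
            rw [hGA]
            unfold hh
            by_cases h : RR (A S X Y Z) = d
            · rw [if_pos h, if_pos h, mul_one]
            · rw [if_neg h, if_neg h, mul_zero, mul_zero]
          fin_cases i
          · exact hgen _ (fun S X Y Z => asm S X Y) (fun S X Y Z => rfl) hd.1
          · exact hgen _ (fun S X Y Z => asm S Z Y) (fun S X Y Z => rfl) hd.2.1
          · exact hgen _ (fun S X Y Z => asm S X Z) (fun S X Y Z => rfl) hd.2.2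
        refine hconv.trans ((mul_le_mul_of_nonneg_left hdf (hcc0 N')).trans ?_)
        by_cases hnu : N' = nu Qb d
        · rw [if_pos hnu, if_pos hnu]
          unfold cc
          rw [Finset.prod_congr rfl fun b _ => if_pos (hN b), mul_div_assoc', ← Finset.prod_mul_distrib]
          refine div_le_div_of_nonneg_right (le_of_eq ?_) (by positivity)
          rw [kap_Tw hdisj]
          refine Finset.prod_congr rfl fun b _ => ?_
          have h1 : (sb Qb b) ^ (N' b) ≠ 0 := (pow_pos (hs b) _).ne'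
          have h2 : ((N' b).factorial : ℝ) ≠ 0 := by exact_mod_cast Nat.factorial_ne_zero _
          field_simp
        · rw [if_neg hnu, if_neg hnu, mul_zero]
      · have hz : cc g Qb N' = 0 := by
          push Not at hN
          obtain ⟨b, hb⟩ := hN
          unfold cc
          refine Finset.prod_eq_zero (mem_univ b) ?_
          rw [if_neg (by omega)]
        have : ∑ S, ∑ X, ∑ Y, ∑ Z, (if r i ⟨N, (S, (X, (Y, Z)))⟩ = d then w ⟨N, (S, (X, (Y, Z)))⟩ else 0) = 0 := by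
          refine Finset.sum_eq_zero fun S _ => Finset.sum_eq_zero fun X _ => Finset.sum_eq_zero fun Y _ =>
            Finset.sum_eq_zero fun Z _ => ?_
          have hw0 : w ⟨N, (S, (X, (Y, Z)))⟩ = 0 := by
            simp only [w]
            rw [show (fun b => ((N b : Fin (Nm + 1)) : ℕ)) = N' from rfl, hz, zero_mul]
          rw [hw0, ite_self]
        rw [this]
        split_ifs
        · exact hkap
        · exact le_rfl
    refine (Finset.sum_le_sum fun N _ => hfix N).trans ?_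
    have hkap : 0 ≤ kap (Tw Qb) / (d : ℝ) := by
      refine div_nonneg (kap_nonneg_of_prime _ ?_) (by positivity)
      intro p hp
      exact prime_of_mem hprime ⟨p, hp⟩
    by_cases hex : ∃ N0 : Fin (M + 1) → Fin (Nm + 1), (fun b => (N0 b : ℕ)) = nu Qb d
    · obtain ⟨N0, hN0⟩ := hex
      rw [Finset.sum_eq_single N0]
      · rw [if_pos hN0]
      · intro N _ hne
        rw [if_neg]
        intro h
        apply hne
        funext b
        apply Fin.ext
        exact (congrFun h b).trans (congrFun hN0 b).symm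
      · intro h
        exact absurd (mem_univ _) h
    · push Not at hex
      rw [Finset.sum_eq_zero fun N _ => if_neg (hex N)]
      exact hkap
  · -- mass
    rw [hsumΩ]
    have hfix : ∀ N : Fin (M + 1) → Fin (Nm + 1),
        cc g Qb (fun b => (N b : ℕ)) * m0 ≤ ∑ S, ∑ X, ∑ Y, ∑ Z, w ⟨N, (S, (X, (Y, Z)))⟩ := by
      intro N
      set N' : Fin (M + 1) → ℕ := fun b => (N b : ℕ) with hN'
      have e : ∑ S, ∑ X, ∑ Y, ∑ Z, w ⟨N, (S, (X, (Y, Z)))⟩ = cc g Qb N' *
          ∑ S, ∑ X, ∑ Y, ∑ Z, WW (qq Qb) (bJ g N') (bK g) (EE (ff Qb) δ) (EEs (ff Qb) δ) C S X Y Z := by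
        simp only [w, Finset.mul_sum]
        rfl
      rw [e]
      by_cases hN : ∀ b, 3 * g b ≤ N' b
      · refine mul_le_mul_of_nonneg_left ?_ (hcc0 N')
        have h1 := WW_mass (bJ g N') (bK g) (EE_swap13 (ff Qb) δ) (EE_swap23 (ff Qb) δ) C V hC hq0 hq1
          (EEs_nonneg (ff Qb) δ) (EEs_le (ff Qb) δ) (hVN N' hN)
        refine hm.trans (le_trans ?_ h1)
        refine div_le_div_of_nonneg_right ?_ hC.le
        linarith
      · have hz : cc g Qb N' = 0 := by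
          push Not at hN
          obtain ⟨b, hb⟩ := hN
          unfold cc
          refine Finset.prod_eq_zero (mem_univ b) ?_
          rw [if_neg (by omega)]
        rw [hz, zero_mul, zero_mul]
    refine le_trans ?_ (Finset.sum_le_sum fun N _ => hfix N)
    rw [← Finset.sum_mul]
    exact mul_le_mul_of_nonneg_right hc0 hm0

end Window

end Pool.Agent.Helper426
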