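import Mathlib
import Pool.Agent.Helper426.Window
import Pool.Agent.Helper426.Num

set_option autoImplicit false
set_option linter.unusedSectionVars false

namespace Pool.Agent.Helper426

open Finset Filter Topology

/-- Weierstrass inequality -/
lemma weier {ι : Type} (s : Finset ι) (x : ι → ℝ) (h0 : ∀ i ∈ s, 0 ≤ x i) (h1 : ∀ i ∈ s, x i ≤ 1) :
    1 - ∑ i ∈ s, x i ≤ ∏ i ∈ s, (1 - x i) := by
  classical
  induction s using Finset.induction_on with
  | empty => simp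
  | insert a s ha ih =>
    rw [Finset.sum_insert ha, Finset.prod_insert ha]
    have ih' := ih (fun i hi => h0 i (Finset.mem_insert_of_mem hi)) (fun i hi => h1 i (Finset.mem_insert_of_mem hi))
    have ha0 := h0 a (Finset.mem_insert_self _ _)
    have ha1 := h1 a (Finset.mem_insert_self _ _)
    have hs : 0 ≤ ∑ i ∈ s, x i := Finset.sum_nonneg fun i hi => h0 i (Finset.mem_insert_of_mem hi)
    have hp : 0 ≤ 1 - x a := by linarith
    nlinarith [mul_le_mul_of_nonneg_left ih' hp, mul_nonneg ha0 hs]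

/-- Euler factor lower bound -/
lemma kap_lower (T : Finset ℕ) (hT : ∀ p ∈ T, p.Prime) :
    Real.exp (-(∑ p ∈ T, (1 : ℝ) / p) - 2 * ∑ p ∈ T, (1 : ℝ) / (p : ℝ) ^ 2) ≤ kap T := by
  unfold kap
  have e : Real.exp (-(∑ p ∈ T, (1 : ℝ) / p) - 2 * ∑ p ∈ T, (1 : ℝ) / (p : ℝ) ^ 2) =
      ∏ p ∈ T, Real.exp (-((1 : ℝ) / p) - 2 * ((1 : ℝ) / (p : ℝ) ^ 2)) := by
    rw [← Real.exp_sum]
    congr 1
    rw [Finset.sum_sub_distrib, Finset.sum_neg_distrib, Finset.mul_sum]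
  rw [e]
  refine Finset.prod_le_prod (fun p _ => (Real.exp_pos _).le) (fun p hp => ?_)
  have hp2 : (2 : ℝ) ≤ p := by exact_mod_cast (hT p hp).two_le
  set x : ℝ := 1 / p with hx
  have hx0 : 0 < x := by rw [hx]; positivity
  have hx1 : x ≤ 1 / 2 := by rw [hx]; exact one_div_le_one_div_of_le (by norm_num) hp2
  have e2 : (1 : ℝ) / (p : ℝ) ^ 2 = x ^ 2 := by rw [hx]; field_simp
  rw [e2]
  have h1 : 0 < 1 - x := by linarith
  have h2 := Real.one_sub_inv_le_log_of_pos h1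
  have h3 : -x - 2 * x ^ 2 ≤ Real.log (1 - x) := by
    refine le_trans ?_ h2
    have h4 : 1 - (1 - x)⁻¹ = -x / (1 - x) := by field_simp; ring
    rw [h4, le_div_iff₀ h1]
    nlinarith
  calc Real.exp (-x - 2 * x ^ 2) ≤ Real.exp (Real.log (1 - x)) := Real.exp_le_exp.2 h3
    _ = 1 - x := Real.exp_log h1

lemma poisson_mass {M : ℕ} (g : Fin (M + 1) → ℕ) (Qb : Fin (M + 1) → Finset ℕ) (z : ℕ) (hz : 8 ≤ z)
    (hprime : ∀ b, ∀ p ∈ Qb b, p.Prime) (hgt : ∀ b, ∀ p ∈ Qb b, z < p)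
    (hdisj : ∀ b b', ∀ p, p ∈ Qb b → p ∈ Qb b' → b = b')
    (hs : ∀ b, (318 / 100 : ℝ) * g b ≤ sb Qb b) (hg : ∑ b, (996 / 1000 : ℝ) ^ (g b) ≤ 1 / 8) :
    ∃ Nm : ℕ, (1 / 2 : ℝ) ≤ ∑ N : Fin (M + 1) → Fin (Nm + 1), cc g Qb (fun b => (N b : ℕ)) := by
  classical
  have hs0 : ∀ b, 0 ≤ sb Qb b := fun b => le_trans (by positivity) (hs b)
  have hk0 : ∀ b, 0 ≤ kap (Qb b) := fun b => kap_nonneg_of_prime _ (hprime b)
  let F : Fin (M + 1) → ℕ → ℝ := fun b n => if 3 * g b ≤ n then kap (Qb b) * (sb Qb b) ^ n / n.factorial else 0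
  have hprod : ∀ Nm : ℕ, ∑ N : Fin (M + 1) → Fin (Nm + 1), cc g Qb (fun b => (N b : ℕ)) =
      ∏ b, ∑ n ∈ range (Nm + 1), F b n := by
    intro Nm
    have h1 : ∀ b, ∑ n ∈ range (Nm + 1), F b n = ∑ n : Fin (Nm + 1), F b n := fun b =>
      (Fin.sum_univ_eq_sum_range (F b) (Nm + 1)).symm
    rw [Finset.prod_congr rfl fun b _ => h1 b, Finset.prod_univ_sum, Fintype.piFinset_univ]
    rfl
  -- limits
  let ℓ : Fin (M + 1) → ℝ := fun b => kap (Qb b) * (Real.exp (sb Qb b) - ∑ n ∈ range (3 * g b), (sb Qb b) ^ n / n.factorial)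
  have hlim : ∀ b, Tendsto (fun Nm => ∑ n ∈ range (Nm + 1), F b n) atTop (𝓝 (ℓ b)) := by
    intro b
    have h1 : Tendsto (fun n => ∑ i ∈ range n, (sb Qb b) ^ i / i.factorial) atTop (𝓝 (Real.exp (sb Qb b))) := by
      have := (NormedSpace.expSeries_div_hasSum_exp (𝔸 := ℝ) (sb Qb b)).tendsto_sum_nat
      rwa [← Real.exp_eq_exp_ℝ] at this
    have h2 : Tendsto (fun n => kap (Qb b) * (∑ i ∈ range (n + 1), (sb Qb b) ^ i / i.factorial - ∑ n ∈ range (3 * g b), (sb Qb b) ^ n / n.factorial))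
        atTop (𝓝 (ℓ b)) := ((h1.comp (tendsto_add_atTop_nat 1)).sub_const _).const_mul _
    refine h2.congr' ?_
    filter_upwards [eventually_ge_atTop (3 * g b)] with n hn
    have h3 : ∑ i ∈ range (n + 1), F b i = ∑ i ∈ (range (n + 1)).filter (fun i => 3 * g b ≤ i), kap (Qb b) * (sb Qb b) ^ i / i.factorial := by
      rw [Finset.sum_filter]
    have h4 : ∑ i ∈ range (n + 1), (sb Qb b) ^ i / i.factorial = ∑ i ∈ range (3 * g b), (sb Qb b) ^ i / i.factorial +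
        ∑ i ∈ (range (n + 1)).filter (fun i => 3 * g b ≤ i), (sb Qb b) ^ i / i.factorial := by
      rw [← Finset.sum_filter_add_sum_filter_not (range (n + 1)) (fun i => 3 * g b ≤ i), add_comm]
      congr 1
      refine Finset.sum_congr ?_ fun _ _ => rfl
      ext i
      simp only [Finset.mem_filter, Finset.mem_range]
      omega
    rw [h3, h4, add_sub_cancel_left, Finset.mul_sum]
    refine Finset.sum_congr rfl fun i _ => by ring
  have hlimP : Tendsto (fun Nm => ∏ b, ∑ n ∈ range (Nm + 1), F b n) atTop (𝓝 (∏ b, ℓ b)) :=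
    tendsto_finsetProd _ fun b _ => hlim b
  have hlow : (1 / 2 : ℝ) < ∏ b, ℓ b := by
    have h1 : ∀ b, Real.exp (-2 * ∑ p ∈ Qb b, (1 : ℝ) / (p : ℝ) ^ 2) * (1 - (996 / 1000 : ℝ) ^ (g b)) ≤ ℓ b := by
      intro b
      have h2 := kap_lower (Qb b) (hprime b)
      have h3 := poisson_tail (sb Qb b) (g b) (hs b)
      have h4 : Real.exp (sb Qb b) * (1 - (996 / 1000 : ℝ) ^ (g b)) ≤
          Real.exp (sb Qb b) - ∑ n ∈ range (3 * g b), (sb Qb b) ^ n / n.factorial := by linarith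
      have h5 : (0 : ℝ) ≤ 1 - (996 / 1000 : ℝ) ^ (g b) := by
        have : (996 / 1000 : ℝ) ^ (g b) ≤ 1 := pow_le_one₀ (by norm_num) (by norm_num)
        linarith
      calc Real.exp (-2 * ∑ p ∈ Qb b, (1 : ℝ) / (p : ℝ) ^ 2) * (1 - (996 / 1000 : ℝ) ^ (g b))
          = Real.exp (-(∑ p ∈ Qb b, (1 : ℝ) / p) - 2 * ∑ p ∈ Qb b, (1 : ℝ) / (p : ℝ) ^ 2) *
              (Real.exp (sb Qb b) * (1 - (996 / 1000 : ℝ) ^ (g b))) := by
            rw [← mul_assoc, ← Real.exp_add]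
            congr 2
            unfold sb
            ring
        _ ≤ kap (Qb b) * (Real.exp (sb Qb b) * (1 - (996 / 1000 : ℝ) ^ (g b))) :=
            mul_le_mul_of_nonneg_right h2 (mul_nonneg (Real.exp_pos _).le h5)
        _ ≤ ℓ b := mul_le_mul_of_nonneg_left h4 (hk0 b)
    have h6 : ∏ b, (Real.exp (-2 * ∑ p ∈ Qb b, (1 : ℝ) / (p : ℝ) ^ 2) * (1 - (996 / 1000 : ℝ) ^ (g b))) ≤ ∏ b, ℓ b := by
      refine Finset.prod_le_prod (fun b _ => ?_) (fun b _ => h1 b)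
      have : (996 / 1000 : ℝ) ^ (g b) ≤ 1 := pow_le_one₀ (by norm_num) (by norm_num)
      exact mul_nonneg (Real.exp_pos _).le (by linarith)
    refine lt_of_lt_of_le ?_ h6
    rw [Finset.prod_mul_distrib, ← Real.exp_sum, ← Finset.mul_sum]
    have h7 : ∑ b, ∑ p ∈ Qb b, (1 : ℝ) / (p : ℝ) ^ 2 ≤ 1 / 8 := by
      have h8 : ∑ b, ∑ p ∈ Qb b, (1 : ℝ) / (p : ℝ) ^ 2 = ∑ p ∈ Tw Qb, (1 : ℝ) / (p : ℝ) ^ 2 := by
        rw [Finset.sum_biUnion]
        intro b _ b' _ hbb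
        rw [Function.onFun, Finset.disjoint_left]
        intro p hp hp'
        exact hbb (hdisj _ _ _ hp hp')
      rw [h8]
      set X : ℕ := z + ∑ p ∈ Tw Qb, p with hX
      have h9 : Tw Qb ⊆ Finset.Ioc z X := by
        intro p hp
        rw [Finset.mem_Ioc]
        constructor
        · rw [Finset.mem_biUnion] at hp
          obtain ⟨b, _, h⟩ := hp
          exact hgt b p h
        · have : p ≤ ∑ p ∈ Tw Qb, p := Finset.single_le_sum (f := fun p => p) (fun _ _ => Nat.zero_le _) hp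
          omega
      have h10 : ∑ p ∈ Tw Qb, (1 : ℝ) / (p : ℝ) ^ 2 ≤ ∑ p ∈ Finset.Ioc z X, ((p : ℝ) ^ 2)⁻¹ := by
        simp only [one_div]
        exact Finset.sum_le_sum_of_subset_of_nonneg h9 (fun p _ _ => by positivity)
      have h11 := sum_Ioc_inv_sq_le_sub (α := ℝ) (k := z) (n := X) (by omega) (by omega)
      have h12 : (z : ℝ)⁻¹ ≤ 1 / 8 := by
        rw [one_div]
        exact inv_anti₀ (by norm_num) (by exact_mod_cast hz)
      have h13 : 0 ≤ (X : ℝ)⁻¹ := by positivity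
      linarith
    have h14 : (3 / 4 : ℝ) ≤ Real.exp (-2 * ∑ b, ∑ p ∈ Qb b, (1 : ℝ) / (p : ℝ) ^ 2) := by
      have := Real.add_one_le_exp (-2 * ∑ b, ∑ p ∈ Qb b, (1 : ℝ) / (p : ℝ) ^ 2)
      linarith
    have h15 : (7 / 8 : ℝ) ≤ ∏ b, (1 - (996 / 1000 : ℝ) ^ (g b)) := by
      have := weier univ (fun b : Fin (M + 1) => (996 / 1000 : ℝ) ^ (g b)) (fun b _ => by positivity)
        (fun b _ => pow_le_one₀ (by norm_num) (by norm_num))
      linarith
    nlinarith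
  obtain ⟨Nm, hNm⟩ := (hlimP.eventually (lt_mem_nhds hlow)).exists
  exact ⟨Nm, by rw [hprod]; exact hNm.le⟩

end Pool.Agent.Helper426
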