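import Mathlib
import Pool.Agent.Helper426.Poisson

set_option autoImplicit false
set_option linter.unusedSectionVars false

namespace Pool.Agent.Helper426

open Finset Filter Topology

lemma exists_g0 : ∃ g0 : ℕ, 2 ≤ g0 ∧ (∀ g, g0 ≤ g → 250 * (g : ℝ) * (25 / 27 : ℝ) ^ g ≤ 1) ∧
    250 * (996 / 1000 : ℝ) ^ g0 ≤ 1 / 8 := by
  have h1 : Tendsto (fun n : ℕ => (n : ℝ) * (25 / 27 : ℝ) ^ n) atTop (𝓝 0) :=
    tendsto_self_mul_const_pow_of_lt_one (by norm_num) (by norm_num)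
  have h2 : Tendsto (fun n : ℕ => (996 / 1000 : ℝ) ^ n) atTop (𝓝 0) :=
    tendsto_pow_atTop_nhds_zero_of_lt_one (by norm_num) (by norm_num)
  have e1 := h1.eventually (gt_mem_nhds (show (0 : ℝ) < 1 / 250 by norm_num))
  have e2 := h2.eventually (gt_mem_nhds (show (0 : ℝ) < 1 / 2000 by norm_num))
  rw [eventually_atTop] at e1 e2
  obtain ⟨a, ha⟩ := e1
  obtain ⟨b, hb⟩ := e2
  refine ⟨max 2 (max a b), le_max_left _ _, ?_, ?_⟩
  · intro g hg
    have := ha g (le_trans (le_trans (le_max_left _ _) (le_max_right _ _)) hg)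
    linarith
  · have := hb (max 2 (max a b)) (le_trans (le_max_right _ _) (le_max_right _ _))
    linarith

lemma prod_fin_lt (M m : ℕ) (hm : m ≤ M + 1) (F : ℕ → ℝ) :
    ∏ b : Fin (M + 1), (if b.val < m then F b.val else 1) = ∏ i ∈ range m, F i := by
  rw [Fin.prod_univ_eq_prod_range (fun i => if i < m then F i else 1) (M + 1)]
  rw [← Finset.prod_filter]
  congr 1
  ext i
  simp only [Finset.mem_filter, Finset.mem_range]
  omega

/-- exponents of the boundaries -/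
def Gs (g0 M j : ℕ) : ℕ := ∑ i ∈ Finset.Ico j (M + 1), (g0 + i)

/-- boundaries -/
def xs (g0 M z j : ℕ) : ℕ := z ^ (25 ^ Gs g0 M j)

/-- blocks of primes -/
def Qs (g0 M z : ℕ) (b : Fin (M + 1)) : Finset ℕ :=
  (Finset.Ioc (xs g0 M z (b.val + 1)) (xs g0 M z b.val)).filter Nat.Prime

lemma Gs_succ (g0 M j : ℕ) (hj : j ≤ M) : Gs g0 M j = (g0 + j) + Gs g0 M (j + 1) := by
  unfold Gs
  rw [Finset.sum_eq_sum_Ico_succ_bot (by omega)]

lemma Gs_last (g0 M : ℕ) : Gs g0 M (M + 1) = 0 := by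
  unfold Gs; simp

lemma Gs_add (g0 M j : ℕ) (hj : j ≤ M + 1) : (∑ i ∈ range j, (g0 + i)) + Gs g0 M j = Gs g0 M 0 := by
  unfold Gs
  rw [Finset.range_eq_Ico, Finset.sum_Ico_consecutive _ (Nat.zero_le _) hj]

lemma Gs_anti (g0 M j j' : ℕ) (h : j ≤ j') : Gs g0 M j' ≤ Gs g0 M j := by
  unfold Gs
  exact Finset.sum_le_sum_of_subset (Finset.Ico_subset_Ico_left h)

lemma xs_step (g0 M z j : ℕ) (hj : j ≤ M) : xs g0 M z j = (xs g0 M z (j + 1)) ^ (25 ^ (g0 + j)) := by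
  unfold xs
  rw [Gs_succ g0 M j hj, ← pow_mul, pow_add, mul_comm]

lemma xs_anti (g0 M z j j' : ℕ) (hz : 1 ≤ z) (h : j ≤ j') : xs g0 M z j' ≤ xs g0 M z j := by
  unfold xs
  exact Nat.pow_le_pow_right hz (Nat.pow_le_pow_right (by norm_num) (Gs_anti g0 M j j' h))

lemma le_xs (g0 M z j : ℕ) : z ≤ xs g0 M z j := by
  unfold xs
  exact Nat.le_self_pow (by positivity) _

lemma log_xs (g0 M z j : ℕ) : Real.log (xs g0 M z j : ℝ) = 25 ^ (Gs g0 M j) * Real.log z := by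
  unfold xs
  push_cast
  rw [Real.log_pow]
  push_cast
  ring

lemma Qs_prime (g0 M z : ℕ) (b : Fin (M + 1)) (p : ℕ) (hp : p ∈ Qs g0 M z b) : p.Prime := by
  unfold Qs at hp
  exact (Finset.mem_filter.1 hp).2

lemma Qs_gt (g0 M z : ℕ) (b : Fin (M + 1)) (p : ℕ) (hp : p ∈ Qs g0 M z b) : xs g0 M z (b.val + 1) < p := by
  unfold Qs at hp
  exact (Finset.mem_Ioc.1 (Finset.mem_filter.1 hp).1).1

lemma Qs_le (g0 M z : ℕ) (b : Fin (M + 1)) (p : ℕ) (hp : p ∈ Qs g0 M z b) : p ≤ xs g0 M z b.val := by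
  unfold Qs at hp
  exact (Finset.mem_Ioc.1 (Finset.mem_filter.1 hp).1).2

lemma Qs_disj (g0 M z : ℕ) (hz : 1 ≤ z) (b b' : Fin (M + 1)) (p : ℕ) (hp : p ∈ Qs g0 M z b) (hp' : p ∈ Qs g0 M z b') : b = b' := by
  by_contra hne
  rcases lt_or_gt_of_ne hne with h | h
  · have h1 := Qs_gt g0 M z b p hp
    have h2 := Qs_le g0 M z b' p hp'
    have h3 := xs_anti g0 M z (b.val + 1) b'.val hz h
    omega
  · have h1 := Qs_gt g0 M z b' p hp'
    have h2 := Qs_le g0 M z b p hp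
    have h3 := xs_anti g0 M z (b'.val + 1) b.val hz h
    omega

/-- The window lemma. -/
theorem window (δ : ℝ) (hδ : 0 < δ) (hδ1 : δ ≤ 1) : ∃ c : ℝ, 0 < c ∧ ∀ z0 : ℕ, ∃ T : Finset ℕ,
    (∀ p ∈ T, p.Prime ∧ z0 < p) ∧ TriSys T (Real.exp δ) c := by
  obtain ⟨g0, hg2, hga, hgb⟩ := exists_g0
  obtain ⟨y0, hy2, hy⟩ := mertens_iter
  have hg0r : (2 : ℝ) ≤ g0 := by exact_mod_cast hg2
  set Cd : ℝ := Real.log 4 * Real.exp (2 * (2 * δ)) with hCd
  have hlog4 : 0 < Real.log 4 := Real.log_pos (by norm_num)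
  have hCd0 : 0 < Cd := by positivity
  set A : ℝ := Cd * 25 ^ g0 with hA
  have hA0 : 0 < A := by positivity
  set C1 : ℝ := A ^ 3 * (4 * A + 2) with hC1
  have hC10 : 0 < C1 := by positivity
  set c2 : ℝ := δ ^ 2 / (18 * g0 ^ 2) with hc2
  have hc20 : 0 < c2 := by positivity
  refine ⟨(1 / 2) * (c2 ^ 2 / (12 * C1)), by positivity, fun z0 => ?_⟩
  -- choice of z
  have hlim : Tendsto (fun n : ℕ => ((n : ℝ) + 1) ^ 4 / 2 ^ n) atTop (𝓝 0) := by
    have h1 : Tendsto (fun n : ℕ => ((n : ℝ)) ^ 4 / 2 ^ n) atTop (𝓝 0) :=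
      tendsto_pow_const_div_const_pow_of_one_lt 4 (by norm_num)
    have h2 : Tendsto (fun n : ℕ => (((n + 1 : ℕ) : ℝ)) ^ 4 / 2 ^ (n + 1)) atTop (𝓝 0) :=
      h1.comp (tendsto_add_atTop_nat 1)
    have h3 := h2.const_mul 2
    rw [mul_zero] at h3
    refine h3.congr fun n => ?_
    push_cast
    rw [pow_succ (2 : ℝ) n]
    field_simp
  set η0 : ℝ := δ ^ 2 / (54 * g0 ^ 4 * A ^ 2) with hη0
  have hη00 : 0 < η0 := by positivity
  obtain ⟨M0, hM0⟩ := eventually_atTop.1 (hlim.eventually (gt_mem_nhds hη00))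
  set z : ℕ := max (max z0 y0) (max 8 (2 ^ M0)) with hz
  have hz0 : z0 ≤ z := le_trans (le_max_left _ _) (le_max_left _ _)
  have hzy : y0 ≤ z := le_trans (le_max_right _ _) (le_max_left _ _)
  have hz8 : 8 ≤ z := le_trans (le_max_left _ _) (le_max_right _ _)
  have hzM : 2 ^ M0 ≤ z := le_trans (le_max_right _ _) (le_max_right _ _)
  set M : ℕ := Nat.log 2 z with hM
  have hM0M : M0 ≤ M := by
    rw [hM]
    exact (Nat.le_log_iff_pow_le (by norm_num) (by omega)).2 hzM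
  have hMz : 2 ^ M ≤ z := Nat.pow_log_le_self 2 (by omega)
  have hzM1 : z < 2 ^ (M + 1) := Nat.lt_pow_succ_log_self (by norm_num) z
  have hz1 : 1 ≤ z := by omega
  have hzr : (8 : ℝ) ≤ z := by exact_mod_cast hz8
  have hlz : 0 < Real.log z := Real.log_pos (by linarith)
  have hlz1 : 1 ≤ Real.log z := by
    rw [Real.le_log_iff_exp_le (by linarith)]
    have := Real.exp_one_lt_d9
    linarith
  set g : Fin (M + 1) → ℕ := fun b => g0 + b.val with hg
  set Qb := Qs g0 M z with hQb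
  set D : ℝ := Real.log (xs g0 M z 0 : ℝ) with hD
  have hgpos : ∀ b : Fin (M + 1), (1 : ℝ) ≤ g b := by
    intro b
    have : 1 ≤ g b := by simp only [hg]; omega
    exact_mod_cast this
  -- logs
  have hl : ∀ j, j ≤ M + 1 → Real.log (xs g0 M z j : ℝ) = D / 25 ^ (∑ i ∈ range j, (g0 + i)) := by
    intro j hj
    rw [hD, log_xs, log_xs, eq_div_iff (by positivity), ← Gs_add g0 M j hj, pow_add]
    ring
  have hD1 : 1 ≤ D := by
    rw [hD, log_xs]
    have : (1 : ℝ) ≤ 25 ^ (Gs g0 M 0) := one_le_pow₀ (by norm_num)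
    nlinarith
  have hD0 : 0 < D := by linarith
  have hlpos : ∀ j, 0 < Real.log (xs g0 M z j : ℝ) := by
    intro j
    rw [log_xs]
    positivity
  have hprime : ∀ b, ∀ p ∈ Qb b, p.Prime := fun b p hp => Qs_prime g0 M z b p hp
  have hdisj : ∀ b b', ∀ p, p ∈ Qb b → p ∈ Qb b' → b = b' := fun b b' p h h' => Qs_disj g0 M z hz1 b b' p h h'
  have hgt : ∀ b, ∀ p ∈ Qb b, z < p := fun b p hp => lt_of_le_of_lt (le_xs g0 M z _) (Qs_gt g0 M z b p hp)
  -- masses of blocks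
  have hs3 : ∀ b, (318 / 100 : ℝ) * g b ≤ sb Qb b := by
    intro b
    have h1 := hy (xs g0 M z (b.val + 1)) (hzy.trans (le_xs g0 M z _)) (g0 + b.val)
    rw [← xs_step g0 M z b.val (by have := b.2; omega)] at h1
    exact h1
  have hs1 : ∀ b, 1 ≤ sb Qb b := by
    intro b
    have := hs3 b
    have := hgpos b
    linarith
  have hs : ∀ b, 0 < sb Qb b := fun b => lt_of_lt_of_le one_pos (hs1 b)
  -- concentration
  have hQ : ∀ b y, conc (qq Qb b) (ff Qb) (2 * δ) y ≤ Cd / Real.log (xs g0 M z (b.val + 1) : ℝ) := by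
    intro b y
    classical
    have h1 : conc (qq Qb b) (ff Qb) (2 * δ) y =
        (∑ p ∈ (Qb b).filter (fun p : ℕ => |Real.log p - y| ≤ 2 * δ), (1 : ℝ) / p) / sb Qb b := by
      unfold conc qq ff
      rw [Finset.sum_coe_sort (Tw Qb) (fun p : ℕ => (if p ∈ Qb b then 1 / ((p : ℝ) * sb Qb b) else 0) *
        (if |Real.log (p : ℝ) - y| ≤ 2 * δ then 1 else 0))]
      rw [Finset.sum_div, Finset.sum_filter]
      have hsub : Qb b ⊆ Tw Qb := fun p hp => Finset.mem_biUnion.2 ⟨b, mem_univ b, hp⟩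
      rw [← Finset.sum_subset hsub]
      · refine Finset.sum_congr rfl fun p hp => ?_
        rw [if_pos hp]
        split_ifs
        · rw [mul_one, div_div]
        · simp
      · intro p _ hp
        rw [if_neg hp, zero_mul]
    rw [h1]
    have h2 := cheb_conc ((Qb b).filter (fun p : ℕ => |Real.log p - y| ≤ 2 * δ))
      (fun p hp => hprime b p (Finset.mem_filter.1 hp).1) (xs g0 M z (b.val + 1) : ℝ) (2 * δ) y
      (by
        have := le_xs g0 M z (b.val + 1)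
        have : (z : ℝ) ≤ xs g0 M z (b.val + 1) := by exact_mod_cast this
        linarith)
      (fun p hp => by
        have := Qs_gt g0 M z b p (Finset.mem_filter.1 hp).1
        exact_mod_cast this.le)
      (fun p hp => (Finset.mem_filter.1 hp).2)
    have h3 : 0 ≤ Cd / Real.log (xs g0 M z (b.val + 1) : ℝ) := div_nonneg hCd0.le (hlpos _).le
    rw [div_le_iff₀ (hs b)]
    refine h2.trans ?_
    have := hs1 b
    nlinarith
  -- product bounds
  set mm : Fin (M + 1) → ℝ := fun b => 5 * ((g0 + b.val : ℕ) : ℝ) / 27 ^ (g0 + b.val) with hmm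
  have hmmb : ∀ b n, g b ≤ n → ((Nat.factorial n * (Nat.factorial (g b) * Nat.factorial (g b)) : ℕ) : ℝ) / (Nat.factorial (n + (g b + g b)) : ℕ) ≤ mm b := by
    intro b n hn
    exact trinom3 (g b) n (by simp only [hg]; omega) hn
  set F : ℕ → ℝ := fun i => 5 * ((g0 + i : ℕ) : ℝ) / 27 ^ (g0 + i) with hF
  have hF0 : ∀ i, 0 ≤ F i := fun i => by simp only [hF]; positivity
  have hFa : ∀ i, F i * 25 ^ (g0 + i) ≤ 1 / 50 := by
    intro i
    have h1 := hga (g0 + i) (by omega)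
    have h2 : F i * 25 ^ (g0 + i) = (250 * ((g0 + i : ℕ) : ℝ) * (25 / 27 : ℝ) ^ (g0 + i)) / 50 := by
      simp only [hF]
      rw [div_pow]
      field_simp
      ring
    rw [h2]
    linarith
  have hFprod : ∀ m, (∏ i ∈ range m, F i) * 25 ^ (∑ i ∈ range m, (g0 + i)) ≤ (1 / 50 : ℝ) ^ m := by
    intro m
    rw [← Finset.prod_pow_eq_pow_sum, ← Finset.prod_mul_distrib]
    calc ∏ i ∈ range m, F i * 25 ^ (g0 + i) ≤ ∏ _i ∈ range m, (1 / 50 : ℝ) :=
          Finset.prod_le_prod (fun i _ => mul_nonneg (hF0 i) (by positivity)) (fun i _ => hFa i)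
      _ = (1 / 50 : ℝ) ^ m := by rw [Finset.prod_const, Finset.card_range]
  set Q : Fin (M + 1) → ℝ := fun b => Cd / Real.log (xs g0 M z (b.val + 1) : ℝ) with hQdef
  have hQ0 : Q 0 = A / D := by
    simp only [hQdef, hA]
    rw [hl _ (by simp)]
    simp only [Fin.val_zero, zero_add, Finset.sum_range_one, add_zero]
    field_simp
  have hQ0pos : 0 < Q 0 := by rw [hQ0]; positivity
  have hterm : ∀ m : Fin (M + 1), Q 0 * Q m * (2 * ∏ b : Fin (M + 1), (if b.val < m.val then mm b else 1)) ≤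
      (2 * A ^ 2 / D ^ 2) * (1 / 2) ^ m.val := by
    intro m
    have h1 : ∏ b : Fin (M + 1), (if b.val < m.val then mm b else 1) = ∏ i ∈ range m.val, F i :=
      prod_fin_lt M m.val m.2.le F
    rw [h1]
    have h2 : Q m = (Cd / D) * 25 ^ (∑ i ∈ range m.val, (g0 + i)) * 25 ^ (g0 + m.val) := by
      simp only [hQdef]
      rw [hl _ (by have := m.2; omega), Finset.sum_range_succ, pow_add (25 : ℝ) (∑ i ∈ range m.val, (g0 + i))]
      field_simp
    have h3 := hFprod m.val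
    have h4 : Q m * ∏ i ∈ range m.val, F i ≤ (A / D) * (1 / 2) ^ m.val := by
      calc Q m * ∏ i ∈ range m.val, F i = (Cd / D) * 25 ^ (g0 + m.val) * ((∏ i ∈ range m.val, F i) * 25 ^ (∑ i ∈ range m.val, (g0 + i))) := by
            rw [h2]; ring
        _ ≤ (Cd / D) * 25 ^ (g0 + m.val) * (1 / 50 : ℝ) ^ m.val := mul_le_mul_of_nonneg_left h3 (by positivity)
        _ = (A / D) * (1 / 2) ^ m.val := by
            rw [hA, pow_add, show (1 / 50 : ℝ) = (1 / 25) * (1 / 2) by norm_num, mul_pow]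
            have : (25 : ℝ) ^ m.val * (1 / 25) ^ m.val = 1 := by rw [← mul_pow]; norm_num
            calc Cd / D * (25 ^ g0 * 25 ^ m.val) * ((1 / 25) ^ m.val * (1 / 2) ^ m.val)
                = Cd / D * 25 ^ g0 * (25 ^ m.val * (1 / 25) ^ m.val) * (1 / 2) ^ m.val := by ring
              _ = Cd * 25 ^ g0 / D * (1 / 2) ^ m.val := by rw [this]; ring
    calc Q 0 * Q m * (2 * ∏ i ∈ range m.val, F i) = 2 * Q 0 * (Q m * ∏ i ∈ range m.val, F i) := by ring
      _ ≤ 2 * Q 0 * ((A / D) * (1 / 2) ^ m.val) := mul_le_mul_of_nonneg_left h4 (by linarith)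
      _ = (2 * A ^ 2 / D ^ 2) * (1 / 2) ^ m.val := by rw [hQ0]; field_simp
  have hsumterm : ∑ m : Fin (M + 1), Q 0 * Q m * (2 * ∏ b : Fin (M + 1), (if b.val < m.val then mm b else 1)) ≤
      4 * A ^ 2 / D ^ 2 := by
    refine (Finset.sum_le_sum fun m _ => hterm m).trans ?_
    rw [← Finset.mul_sum, Fin.sum_univ_eq_sum_range (fun i => (1 / 2 : ℝ) ^ i) (M + 1)]
    have h1 : ∑ i ∈ range (M + 1), (1 / 2 : ℝ) ^ i ≤ 2 := by
      rw [geom_sum_eq (by norm_num)]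
      have : (0 : ℝ) ≤ (1 / 2) ^ (M + 1) := by positivity
      rw [show (1 / 2 : ℝ) - 1 = -(1 / 2) by norm_num, div_neg, neg_le]
      rw [le_div_iff₀ (by norm_num)]
      linarith
    have h2 : (0 : ℝ) ≤ 2 * A ^ 2 / D ^ 2 := by positivity
    calc 2 * A ^ 2 / D ^ 2 * ∑ i ∈ range (M + 1), (1 / 2 : ℝ) ^ i ≤ 2 * A ^ 2 / D ^ 2 * 2 := mul_le_mul_of_nonneg_left h1 h2
      _ = 4 * A ^ 2 / D ^ 2 := by ring
  have hlastterm : Q 0 * (2 * ∏ b : Fin (M + 1), mm b) ≤ 2 * A / D ^ 2 := by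
    have h1 : ∏ b : Fin (M + 1), mm b = ∏ i ∈ range (M + 1), F i := Fin.prod_univ_eq_prod_range F (M + 1)
    have h2 := hFprod (M + 1)
    have h3 := hl (M + 1) le_rfl
    have h4 : Real.log (xs g0 M z (M + 1) : ℝ) = Real.log z := by rw [log_xs, Gs_last]; simp
    rw [h4] at h3
    have h5 : ∏ i ∈ range (M + 1), F i ≤ 1 / D := by
      have hlogz : Real.log z * (1 / 50 : ℝ) ^ (M + 1) ≤ 1 := by
        have a1 : Real.log z ≤ z := (Real.log_le_sub_one_of_pos (by linarith)).trans (by linarith)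
        have a2 : (z : ℝ) ≤ 2 ^ (M + 1) := by exact_mod_cast hzM1.le
        have a3 : (2 : ℝ) ^ (M + 1) * (1 / 50) ^ (M + 1) ≤ 1 := by
          rw [← mul_pow]
          exact pow_le_one₀ (by norm_num) (by norm_num)
        calc Real.log z * (1 / 50 : ℝ) ^ (M + 1) ≤ 2 ^ (M + 1) * (1 / 50) ^ (M + 1) :=
              mul_le_mul_of_nonneg_right (a1.trans a2) (by positivity)
          _ ≤ 1 := a3
      rw [le_div_iff₀ hD0]
      have h6 : D = Real.log z * 25 ^ (∑ i ∈ range (M + 1), (g0 + i)) := by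
        rw [h3]; field_simp
      calc (∏ i ∈ range (M + 1), F i) * D = Real.log z * ((∏ i ∈ range (M + 1), F i) * 25 ^ (∑ i ∈ range (M + 1), (g0 + i))) := by
            rw [h6]; ring
        _ ≤ Real.log z * (1 / 50 : ℝ) ^ (M + 1) := mul_le_mul_of_nonneg_left h2 hlz.le
        _ ≤ 1 := hlogz
    rw [h1]
    calc Q 0 * (2 * ∏ i ∈ range (M + 1), F i) ≤ Q 0 * (2 * (1 / D)) := by gcongr
      _ = 2 * A / D ^ 2 := by rw [hQ0]; field_simp
  have hV : (Q 0) ^ 2 * (∑ m : Fin (M + 1), Q 0 * Q m * (2 * ∏ b : Fin (M + 1), (if b.val < m.val then mm b else 1)) +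
      Q 0 * (2 * ∏ b : Fin (M + 1), mm b)) ≤ C1 / D ^ 4 := by
    have hA2 : A ^ 2 * (4 * A ^ 2 + 2 * A) = C1 := by rw [hC1]; ring
    calc _ ≤ (Q 0) ^ 2 * (4 * A ^ 2 / D ^ 2 + 2 * A / D ^ 2) :=
          mul_le_mul_of_nonneg_left (add_le_add hsumterm hlastterm) (sq_nonneg _)
      _ = C1 / D ^ 4 := by rw [hQ0, ← hA2]; field_simp
  -- size of the sums
  have hR : ∀ X : KK g → Tw Qb, (∀ k, ((X k : Tw Qb) : ℕ) ∈ Qb k.1) → SS (ff Qb) X ≤ 2 * g0 * D := by
    intro X hX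
    have h1 : SS (ff Qb) X ≤ ∑ k : KK g, D / 25 ^ (∑ i ∈ range k.1.val, (g0 + i)) := by
      unfold SS ff
      refine Finset.sum_le_sum fun k _ => ?_
      rw [← hl _ (by have := k.1.2; omega)]
      have h2 := Qs_le g0 M z k.1 _ (hX k)
      apply Real.log_le_log
      · exact_mod_cast (hprime _ _ (hX k)).pos
      · exact_mod_cast h2
    refine h1.trans ?_
    rw [Fintype.sum_sigma]
    have h3 : ∀ b : Fin (M + 1), ∑ _y : Fin (g b), D / 25 ^ (∑ i ∈ range b.val, (g0 + i)) ≤ (g0 * D) * (1 / 2) ^ b.val := by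
      intro b
      rw [Finset.sum_const, Finset.card_univ, Fintype.card_fin, nsmul_eq_mul]
      have e1 : ((g b : ℕ) : ℝ) ≤ g0 * 2 ^ b.val := by
        have : g0 + b.val ≤ g0 * 2 ^ b.val := by
          have h4 : b.val + 1 ≤ 2 ^ b.val := Nat.lt_two_pow_self
          nlinarith
        exact_mod_cast this
      have e2 : (4 : ℝ) ^ b.val ≤ 25 ^ (∑ i ∈ range b.val, (g0 + i)) := by
        have h5 : b.val ≤ ∑ i ∈ range b.val, (g0 + i) := by
          calc b.val = ∑ _i ∈ range b.val, 1 := by simp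
            _ ≤ _ := Finset.sum_le_sum fun i _ => by omega
        calc (4 : ℝ) ^ b.val ≤ 25 ^ b.val := pow_le_pow_left₀ (by norm_num) (by norm_num) _
          _ ≤ _ := pow_le_pow_right₀ (by norm_num) h5
      have e3 : (4 : ℝ) ^ b.val = 2 ^ b.val * 2 ^ b.val := by rw [← mul_pow]; norm_num
      calc ((g b : ℕ) : ℝ) * (D / 25 ^ (∑ i ∈ range b.val, (g0 + i))) ≤ (g0 * 2 ^ b.val) * (D / 4 ^ b.val) := by
            gcongr
        _ = (g0 * D) * (1 / 2) ^ b.val := by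
            rw [e3, one_div, inv_pow]
            field_simp
    calc ∑ b : Fin (M + 1), ∑ _y : Fin (g b), D / 25 ^ (∑ i ∈ range b.val, (g0 + i)) ≤ ∑ b : Fin (M + 1), (g0 * D) * (1 / 2) ^ b.val :=
          Finset.sum_le_sum fun b _ => h3 b
      _ = (g0 * D) * ∑ i ∈ range (M + 1), (1 / 2 : ℝ) ^ i := by
          rw [← Finset.mul_sum, Fin.sum_univ_eq_sum_range (fun i => (1 / 2 : ℝ) ^ i) (M + 1)]
      _ ≤ (g0 * D) * 2 := by
          refine mul_le_mul_of_nonneg_left ?_ (by positivity)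
          rw [geom_sum_eq (by norm_num)]
          have : (0 : ℝ) ≤ (1 / 2) ^ (M + 1) := by positivity
          rw [show (1 / 2 : ℝ) - 1 = -(1 / 2) by norm_num, div_neg, neg_le]
          rw [le_div_iff₀ (by norm_num)]
          linarith
      _ = 2 * g0 * D := by ring
  have hε : ∀ b a, qq Qb b a ≤ 1 / (z : ℝ) := by
    intro b a
    unfold qq
    split_ifs with h
    · have h1 : (z : ℝ) ≤ (a : ℕ) := by exact_mod_cast (hgt b _ h).le
      have h2 := hs1 b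
      apply one_div_le_one_div_of_le (by linarith)
      nlinarith
    · positivity
  have hcard : (Fintype.card (KK g) : ℝ) ≤ g0 * ((M : ℝ) + 1) ^ 2 := by
    have h1 : Fintype.card (KK g) = ∑ b : Fin (M + 1), g b := by
      rw [Fintype.card_sigma]
      simp only [Fintype.card_fin]
    have h2 : ∑ b : Fin (M + 1), g b ≤ ∑ _b : Fin (M + 1), g0 * (M + 1) := by
      refine Finset.sum_le_sum fun b _ => ?_
      have := b.2
      simp only [hg]
      nlinarith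
    rw [Finset.sum_const, Finset.card_univ, Fintype.card_fin, smul_eq_mul] at h2
    rw [h1]
    have h3 : ((∑ b : Fin (M + 1), g b : ℕ) : ℝ) ≤ (((M + 1) * (g0 * (M + 1)) : ℕ) : ℝ) := by exact_mod_cast h2
    refine h3.trans (le_of_eq ?_)
    push_cast
    ring
  -- lower bound for the event
  have hpE : c2 / D ^ 2 ≤ 1 / (⌊(2 * g0 * D) / δ⌋₊ + 1 : ℝ) ^ 2 - 3 * ((Fintype.card (KK g) : ℝ) ^ 2 * (Q 0 * (Q 0 * (1 / z)))) := by
    have h1 : (⌊(2 * g0 * D) / δ⌋₊ : ℝ) + 1 ≤ 3 * g0 * D / δ := by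
      have a1 : (⌊(2 * g0 * D) / δ⌋₊ : ℝ) ≤ (2 * g0 * D) / δ := Nat.floor_le (by positivity)
      have a2 : 1 ≤ g0 * D / δ := by
        rw [le_div_iff₀ hδ]
        nlinarith
      have a3 : 3 * g0 * D / δ = (2 * g0 * D) / δ + g0 * D / δ := by ring
      linarith
    have h2 : δ ^ 2 / (9 * g0 ^ 2 * D ^ 2) ≤ 1 / (⌊(2 * g0 * D) / δ⌋₊ + 1 : ℝ) ^ 2 := by
      have a1 : (⌊(2 * g0 * D) / δ⌋₊ + 1 : ℝ) ^ 2 ≤ (3 * g0 * D / δ) ^ 2 := by gcongr
      have a2 : δ ^ 2 / (9 * g0 ^ 2 * D ^ 2) = 1 / (3 * g0 * D / δ) ^ 2 := by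
        field_simp
        ring
      rw [a2]
      exact one_div_le_one_div_of_le (by positivity) a1
    have h3 : 3 * ((Fintype.card (KK g) : ℝ) ^ 2 * (Q 0 * (Q 0 * (1 / z)))) ≤ δ ^ 2 / (18 * g0 ^ 2 * D ^ 2) := by
      have a1 : (Fintype.card (KK g) : ℝ) ^ 2 ≤ g0 ^ 2 * ((M : ℝ) + 1) ^ 4 := by
        calc (Fintype.card (KK g) : ℝ) ^ 2 ≤ (g0 * ((M : ℝ) + 1) ^ 2) ^ 2 := by gcongr
          _ = _ := by ring
      have a2 : ((M : ℝ) + 1) ^ 4 / z ≤ η0 := by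
        have := hM0 M hM0M
        have a3 : (2 : ℝ) ^ M ≤ z := by exact_mod_cast hMz
        calc ((M : ℝ) + 1) ^ 4 / z ≤ ((M : ℝ) + 1) ^ 4 / 2 ^ M := by gcongr
          _ ≤ η0 := this.le
      rw [hQ0]
      calc 3 * ((Fintype.card (KK g) : ℝ) ^ 2 * (A / D * (A / D * (1 / z)))) ≤ 3 * ((g0 ^ 2 * ((M : ℝ) + 1) ^ 4) * (A / D * (A / D * (1 / z)))) := by
            gcongr
        _ = 3 * g0 ^ 2 * (A / D) ^ 2 * (((M : ℝ) + 1) ^ 4 / z) := by ring
        _ ≤ 3 * g0 ^ 2 * (A / D) ^ 2 * η0 := by gcongr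
        _ = δ ^ 2 / (18 * g0 ^ 2 * D ^ 2) := by
            rw [hη0]
            field_simp
            ring
    have h4 : c2 / D ^ 2 = δ ^ 2 / (9 * g0 ^ 2 * D ^ 2) - δ ^ 2 / (18 * g0 ^ 2 * D ^ 2) := by
      rw [hc2]
      field_simp
      ring
    rw [h4]
    linarith
  -- number of prime factors
  have hgsum : ∑ b, (996 / 1000 : ℝ) ^ (g b) ≤ 1 / 8 := by
    have h1 : ∑ b : Fin (M + 1), (996 / 1000 : ℝ) ^ (g b) = (996 / 1000 : ℝ) ^ g0 * ∑ i ∈ range (M + 1), (996 / 1000 : ℝ) ^ i := by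
      rw [← Fin.sum_univ_eq_sum_range (fun i => (996 / 1000 : ℝ) ^ i) (M + 1), Finset.mul_sum]
      refine Finset.sum_congr rfl fun b _ => ?_
      simp only [hg]
      rw [pow_add]
    rw [h1]
    have h2 : ∑ i ∈ range (M + 1), (996 / 1000 : ℝ) ^ i ≤ 250 := by
      rw [geom_sum_eq (by norm_num)]
      have : (0 : ℝ) ≤ (996 / 1000) ^ (M + 1) := by positivity
      rw [show (996 / 1000 : ℝ) - 1 = -(4 / 1000) by norm_num, div_neg, neg_le]
      rw [le_div_iff₀ (by norm_num)]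
      linarith
    have h3 : (0 : ℝ) ≤ (996 / 1000) ^ g0 := by positivity
    nlinarith
  obtain ⟨Nm, hNm⟩ := poisson_mass g Qb z hz8 hprime hgt hdisj hs3 hgsum
  set C : ℝ := 6 * C1 / (c2 * D ^ 2) with hC
  have hC0 : 0 < C := by positivity
  have hm : c2 ^ 2 / (12 * C1) ≤ (1 / (⌊(2 * g0 * D) / δ⌋₊ + 1 : ℝ) ^ 2 - 3 * ((Fintype.card (KK g) : ℝ) ^ 2 * (Q 0 * (Q 0 * (1 / z)))) - 3 * ((C1 / D ^ 4) / C)) / C := by
    rw [le_div_iff₀ hC0]
    have h1 : 3 * ((C1 / D ^ 4) / C) = c2 / (2 * D ^ 2) := by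
      rw [hC]
      field_simp
      ring
    have h2 : c2 ^ 2 / (12 * C1) * C = c2 / (2 * D ^ 2) := by
      rw [hC]
      field_simp
      ring
    have h3 : c2 / D ^ 2 - c2 / (2 * D ^ 2) = c2 / (2 * D ^ 2) := by
      field_simp
      ring
    rw [h1, h2]
    linarith
  refine ⟨Tw Qb, ?_, ?_⟩
  · intro p hp
    rw [Finset.mem_biUnion] at hp
    obtain ⟨b, _, h⟩ := hp
    exact ⟨hprime b p h, lt_of_le_of_lt hz0 (hgt b p h)⟩
  · exact window_abs (g := g) (Qb := Qb) hprime hdisj (by simp only [hg]; simp; exact hg2) hs δ hδ Q hQ mm hmmb (1 / z) hε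
      (2 * g0 * D) hR (C1 / D ^ 4) C (c2 ^ 2 / (12 * C1)) (1 / 2) hC0 (by positivity) hV hm Nm hNm

end Pool.Agent.Helper426
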