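import Mathlib
import Pool.Agent.Helper426.Params

set_option autoImplicit false
set_option linter.unusedSectionVars false

namespace Pool.Agent.Helper426

open Finset Filter Topology

/-- the reciprocal function as a monoid homomorphism -/
noncomputable def recip : ℕ →* ℝ where
  toFun n := (n : ℝ)⁻¹
  map_one' := by simp
  map_mul' a b := by push_cast; rw [mul_inv]

lemma kap_pos (T : Finset ℕ) (hT : ∀ p ∈ T, p.Prime) : 0 < kap T := by
  unfold kap
  refine Finset.prod_pos fun p hp => ?_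
  have : (2 : ℝ) ≤ p := by exact_mod_cast (hT p hp).two_le
  have h2 : 1 / (p : ℝ) ≤ 1 / 2 := one_div_le_one_div_of_le (by norm_num) this
  linarith

lemma hasSum_kap (T : Finset ℕ) (hT : ∀ p ∈ T, p.Prime) :
    HasSum (fun d : Nat.factoredNumbers T => kap T / ((d : ℕ) : ℝ)) 1 := by
  have h1 := (EulerProduct.summable_and_hasSum_factoredNumbers_prod_filter_prime_geometric (f := recip)
    (fun {p} hp => by
      have : (1 : ℝ) < p := by exact_mod_cast hp.one_lt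
      show ‖(p : ℝ)⁻¹‖ < 1
      rw [Real.norm_of_nonneg (by positivity)]
      exact inv_lt_one_of_one_lt₀ this) T).2
  have h2 : T.filter (fun p => p.Prime) = T := by
    ext p
    simp only [Finset.mem_filter, and_iff_left_iff_imp]
    exact hT p
  rw [h2] at h1
  have h3 := h1.mul_left (kap T)
  have h4 : kap T * ∏ p ∈ T, (1 - recip p)⁻¹ = 1 := by
    rw [Finset.prod_inv_distrib]
    have : ∏ p ∈ T, (1 - recip p) = kap T := by
      unfold kap
      refine Finset.prod_congr rfl fun p _ => ?_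
      show 1 - (p : ℝ)⁻¹ = 1 - 1 / p
      rw [one_div]
    rw [this]
    exact mul_inv_cancel₀ (kap_pos T hT).ne'
  rw [h4] at h3
  exact h3

/-- finite sums are at most one -/
lemma sum_kap_le (T : Finset ℕ) (hT : ∀ p ∈ T, p.Prime) (D : Finset ℕ) (hD : ∀ d ∈ D, d ∈ Nat.factoredNumbers T) :
    ∑ d ∈ D, kap T / (d : ℝ) ≤ 1 := by
  classical
  have h1 := hasSum_kap T hT
  have h2 : ∑ d ∈ D.attach.map ⟨fun d => (⟨d.1, hD d.1 d.2⟩ : Nat.factoredNumbers T), fun a b h => Subtype.ext (by simpa using h)⟩,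
      kap T / ((d : ℕ) : ℝ) ≤ 1 := by
    refine sum_le_hasSum _ (fun d _ => ?_) h1
    exact div_nonneg (kap_pos T hT).le (by positivity)
  rw [Finset.sum_map] at h2
  change ∑ d ∈ D.attach, kap T / ((d : ℕ) : ℝ) ≤ 1 at h2
  rwa [Finset.sum_attach D (fun d => kap T / (d : ℝ))] at h2

lemma exists_D (T : Finset ℕ) (hT : ∀ p ∈ T, p.Prime) (η : ℝ) (hη : 0 < η) (D0 : Finset ℕ)
    (hD0 : ∀ d ∈ D0, d ∈ Nat.factoredNumbers T) :
    ∃ D : Finset ℕ, D0 ⊆ D ∧ (∀ d ∈ D, d ∈ Nat.factoredNumbers T) ∧ 1 - η ≤ ∑ d ∈ D, kap T / (d : ℝ) := by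
  classical
  have h1 := hasSum_kap T hT
  obtain ⟨s, hs⟩ := (h1.eventually (lt_mem_nhds (show 1 - η < 1 by linarith))).exists
  refine ⟨D0 ∪ s.map ⟨Subtype.val, Subtype.val_injective⟩, Finset.subset_union_left, ?_, ?_⟩
  · intro d hd
    rw [Finset.mem_union] at hd
    rcases hd with hd | hd
    · exact hD0 d hd
    · rw [Finset.mem_map] at hd
      obtain ⟨a, _, rfl⟩ := hd
      exact a.2
  · have h2 : ∑ d ∈ s.map ⟨Subtype.val, Subtype.val_injective⟩, kap T / (d : ℝ) ≤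
        ∑ d ∈ D0 ∪ s.map ⟨Subtype.val, Subtype.val_injective⟩, kap T / (d : ℝ) :=
      Finset.sum_le_sum_of_subset_of_nonneg Finset.subset_union_right
        (fun d _ _ => div_nonneg (kap_pos T hT).le (by positivity))
    rw [Finset.sum_map] at h2
    exact hs.le.trans h2

/-- unique factorisation with respect to two disjoint sets of primes -/
lemma factored_unique {T1 T2 : Finset ℕ} (hdis : Disjoint T1 T2) {a a' b b' : ℕ}
    (ha : a ∈ Nat.factoredNumbers T1) (ha' : a' ∈ Nat.factoredNumbers T1) (hb : b ∈ Nat.factoredNumbers T2)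
    (hb' : b' ∈ Nat.factoredNumbers T2) (h : a * b = a' * b') : a = a' ∧ b = b' := by
  have cop : ∀ x y, x ∈ Nat.factoredNumbers T1 → y ∈ Nat.factoredNumbers T2 → Nat.Coprime x y := by
    intro x y hx hy
    refine Nat.Coprime.symm (Nat.coprime_of_dvd fun p hp hpy hpx => ?_)
    rw [Nat.mem_factoredNumbers'] at hx hy
    exact Finset.disjoint_left.1 hdis (hx p hp hpx) (hy p hp hpy)
  have h1 : a ∣ a' := (cop a b' ha hb').dvd_of_dvd_mul_right (Dvd.intro b h)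
  have h2 : a' ∣ a := (cop a' b ha' hb).dvd_of_dvd_mul_right (Dvd.intro b' h.symm)
  have h3 : a = a' := Nat.dvd_antisymm h1 h2
  refine ⟨h3, ?_⟩
  rw [← h3] at h
  exact Nat.eq_of_mul_eq_mul_left (Nat.pos_of_ne_zero (Nat.ne_zero_of_mem_factoredNumbers ha)) h

lemma factored_coprime {T1 T2 : Finset ℕ} (hdis : Disjoint T1 T2) {x y : ℕ}
    (hx : x ∈ Nat.factoredNumbers T1) (hy : y ∈ Nat.factoredNumbers T2) : Nat.Coprime x y := by
  refine Nat.Coprime.symm (Nat.coprime_of_dvd fun p hp hpy hpx => ?_)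
  rw [Nat.mem_factoredNumbers'] at hx hy
  exact Finset.disjoint_left.1 hdis (hx p hp hpx) (hy p hp hpy)

lemma factored_mul {T1 T2 : Finset ℕ} {x y : ℕ}
    (hx : x ∈ Nat.factoredNumbers T1) (hy : y ∈ Nat.factoredNumbers T2) : x * y ∈ Nat.factoredNumbers (T1 ∪ T2) :=
  Nat.mul_mem_factoredNumbers (Nat.factoredNumbers_mono Finset.subset_union_left hx)
    (Nat.factoredNumbers_mono Finset.subset_union_right hy)

lemma kap_union {T1 T2 : Finset ℕ} (hdis : Disjoint T1 T2) : kap (T1 ∪ T2) = kap T1 * kap T2 := by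
  unfold kap
  exact Finset.prod_union hdis

/-- systems of weighted triples with equal marginals -/
def TriEq (T : Finset ℕ) (lam a : ℝ) : Prop :=
  ∃ (Ω : Type) (_ : Fintype Ω) (w : Ω → ℝ) (r : Fin 3 → Ω → ℕ) (m : ℕ → ℝ),
    (∀ ω, 0 ≤ w ω) ∧
    (∀ ω, w ω ≠ 0 → (∀ i, r i ω ∈ Nat.factoredNumbers T) ∧ (∀ i j, (r i ω : ℝ) ≤ lam * r j ω) ∧
      (∀ i j, i ≠ j → r i ω ≠ r j ω) ∧ (∃ L, ∀ i j, i ≠ j → Nat.lcm (r i ω) (r j ω) = L)) ∧
    (∀ i d, ∑ ω, (if r i ω = d then w ω else 0) = m d) ∧ (∀ d, m d ≤ kap T / d) ∧ a ≤ ∑ ω, w ω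

lemma TriEq.toSys {T : Finset ℕ} {lam a : ℝ} (h : TriEq T lam a) : TriSys T lam a := by
  obtain ⟨Ω, hΩ, w, r, m, h1, h2, h3, h4, h5⟩ := h
  exact ⟨Ω, hΩ, w, r, h1, h2, fun i d => (h3 i d).trans_le (h4 d), h5⟩

lemma TriEq.mono {T : Finset ℕ} {lam a a' : ℝ} (h : TriEq T lam a) (ha : a' ≤ a) : TriEq T lam a' := by
  obtain ⟨Ω, hΩ, w, r, m, h1, h2, h3, h4, h5⟩ := h
  exact ⟨Ω, hΩ, w, r, m, h1, h2, h3, h4, ha.trans h5⟩

lemma TriSys.symm {T : Finset ℕ} {lam a : ℝ} (h : TriSys T lam a) : TriEq T lam a := by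
  obtain ⟨Ω, hΩ, w, r, h1, h2, h3, h5⟩ := h
  refine ⟨Ω × Fin 3, inferInstance, fun x => w x.1 / 3, fun i x => r (i + x.2) x.1,
    fun d => (∑ s : Fin 3, ∑ ω, (if r s ω = d then w ω else 0)) / 3, ?_, ?_, ?_, ?_, ?_⟩
  · intro x
    have := h1 x.1
    positivity
  · rintro ⟨ω, s⟩ hw
    have hw' : w ω ≠ 0 := by
      intro h0
      apply hw
      simp [h0]
    obtain ⟨a1, a2, a3, L, a4⟩ := h2 ω hw'
    refine ⟨fun i => a1 _, fun i j => a2 _ _, fun i j hij => a3 _ _ ?_, L, fun i j hij => a4 _ _ ?_⟩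
    · intro h; exact hij (add_right_cancel h)
    · intro h; exact hij (add_right_cancel h)
  · intro i d
    rw [Fintype.sum_prod_type, Finset.sum_comm]
    change _ = (∑ s : Fin 3, ∑ ω, (if r s ω = d then w ω else 0)) / 3
    rw [Finset.sum_div, ← Equiv.sum_comp (Equiv.addLeft i) (fun s : Fin 3 => (∑ ω, (if r s ω = d then w ω else 0)) / 3)]
    refine Finset.sum_congr rfl fun s _ => ?_
    rw [Finset.sum_div]
    refine Finset.sum_congr rfl fun ω _ => ?_
    change (if r (i + s) ω = d then w ω / 3 else 0) = (if r (i + s) ω = d then w ω else 0) / 3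
    split_ifs <;> simp
  · intro d
    have : ∑ s : Fin 3, ∑ ω, (if r s ω = d then w ω else 0) ≤ ∑ _s : Fin 3, kap T / d :=
      Finset.sum_le_sum fun s _ => h3 s d
    rw [Finset.sum_const, Finset.card_univ, Fintype.card_fin, nsmul_eq_mul] at this
    push_cast at this
    linarith
  · rw [Fintype.sum_prod_type]
    refine h5.trans (le_of_eq ?_)
    refine Finset.sum_congr rfl fun ω _ => ?_
    change w ω = ∑ _s : Fin 3, w ω / 3
    rw [Finset.sum_const, Finset.card_univ, Fintype.card_fin, nsmul_eq_mul]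
    push_cast
    ring

/-- transfer of sums -/
lemma transfer {Ω : Type} [Fintype Ω] (w : Ω → ℝ) (ρ : Ω → ℕ) (m : ℕ → ℝ) (D : Finset ℕ)
    (hm : ∀ d, ∑ ω, (if ρ ω = d then w ω else 0) = m d) (hD : ∀ ω, w ω ≠ 0 → ρ ω ∈ D) (φ : ℕ → ℝ) :
    ∑ ω, w ω * φ (ρ ω) = ∑ d ∈ D, m d * φ d := by
  classical
  have h1 : ∑ d ∈ D, m d * φ d = ∑ ω, ∑ d ∈ D, (if ρ ω = d then w ω else 0) * φ d := by
    rw [Finset.sum_comm]
    refine Finset.sum_congr rfl fun d _ => ?_
    rw [← hm, Finset.sum_mul]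
  rw [h1]
  refine Finset.sum_congr rfl fun ω _ => ?_
  by_cases hw : w ω = 0
  · simp [hw]
  · rw [Finset.sum_eq_single (ρ ω)]
    · rw [if_pos rfl]
    · intro d _ hne
      rw [if_neg (fun h => hne h.symm), zero_mul]
    · intro h
      exact absurd (hD ω hw) h

lemma combine {T1 T2 : Finset ℕ} (hT1 : ∀ p ∈ T1, p.Prime) (hT2 : ∀ p ∈ T2, p.Prime) (hdis : Disjoint T1 T2)
    {lam a1 a2 a : ℝ} (h1 : TriEq T1 lam a1) (h2 : TriEq T2 lam a2) (ha : a < a1 + a2 - a1 * a2) (ha1 : a1 ≤ 1) (ha2 : a2 ≤ 1) :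
    TriEq (T1 ∪ T2) lam a := by
  classical
  obtain ⟨Ω1, hΩ1, w1, r1, m1, b1, b2, b3, b4, b5⟩ := h1
  obtain ⟨Ω2, hΩ2, w2, r2, m2, c1, c2, c3, c4, c5⟩ := h2
  set η : ℝ := (a1 + a2 - a1 * a2 - a) / 2 with hη
  have hη0 : 0 < η := by rw [hη]; linarith
  obtain ⟨D1, d1a, d1b, d1c⟩ := exists_D T1 hT1 η hη0
    ((univ.filter (fun x : Fin 3 × Ω1 => w1 x.2 ≠ 0)).image (fun x => r1 x.1 x.2)) (by
      intro d hd
      rw [Finset.mem_image] at hd
      obtain ⟨⟨i, ω⟩, hx, rfl⟩ := hd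
      exact (b2 ω (Finset.mem_filter.1 hx).2).1 i)
  obtain ⟨D2, d2a, d2b, d2c⟩ := exists_D T2 hT2 η hη0
    ((univ.filter (fun x : Fin 3 × Ω2 => w2 x.2 ≠ 0)).image (fun x => r2 x.1 x.2)) (by
      intro d hd
      rw [Finset.mem_image] at hd
      obtain ⟨⟨i, ω⟩, hx, rfl⟩ := hd
      exact (c2 ω (Finset.mem_filter.1 hx).2).1 i)
  have hin1 : ∀ i ω, w1 ω ≠ 0 → r1 i ω ∈ D1 := fun i ω hw =>
    d1a (Finset.mem_image.2 ⟨(i, ω), Finset.mem_filter.2 ⟨mem_univ _, hw⟩, rfl⟩)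
  have hin2 : ∀ i ω, w2 ω ≠ 0 → r2 i ω ∈ D2 := fun i ω hw =>
    d2a (Finset.mem_image.2 ⟨(i, ω), Finset.mem_filter.2 ⟨mem_univ _, hw⟩, rfl⟩)
  have k1 := kap_pos T1 hT1
  have k2 := kap_pos T2 hT2
  have hm1 : ∀ d, 0 ≤ m1 d := by
    intro d
    rw [← b3 0 d]
    exact Finset.sum_nonneg fun ω _ => by split_ifs; exacts [b1 ω, le_rfl]
  have hm2 : ∀ d, 0 ≤ m2 d := by
    intro d
    rw [← c3 0 d]
    exact Finset.sum_nonneg fun ω _ => by split_ifs; exacts [c1 ω, le_rfl]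
  -- the new marginal
  let c : ℕ → ℕ → ℝ := fun x y => m1 x * (kap T2 / y) + (kap T1 / x - m1 x) * m2 y
  have hc : ∀ x y, c x y ≤ (kap T1 / x) * (kap T2 / y) := by
    intro x y
    have e1 := b4 x
    have e2 := c4 y
    have e3 : 0 ≤ kap T1 / x - m1 x := by linarith
    have e4 := mul_le_mul_of_nonneg_left e2 e3
    simp only [c]
    nlinarith
  let m : ℕ → ℝ := fun d => ∑ x ∈ D1, ∑ y ∈ D2, (if x * y = d then c x y else 0)
  refine ⟨(Ω1 × D2) ⊕ (D1 × Ω2), inferInstance,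
    Sum.elim (fun x => w1 x.1 * (kap T2 / ((x.2 : ℕ) : ℝ))) (fun x => (kap T1 / ((x.1 : ℕ) : ℝ) - m1 x.1) * w2 x.2),
    fun i => Sum.elim (fun x => r1 i x.1 * (x.2 : ℕ)) (fun x => (x.1 : ℕ) * r2 i x.2), m, ?_, ?_, ?_, ?_, ?_⟩
  · rintro (⟨ω, d⟩ | ⟨d, ω⟩)
    · simp only [Sum.elim_inl]
      have := b1 ω
      positivity
    · simp only [Sum.elim_inr]
      have := b4 d
      have := c1 ω
      exact mul_nonneg (by linarith) this
  · rintro (⟨ω, d⟩ | ⟨d, ω⟩) hw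
    · simp only [Sum.elim_inl] at hw ⊢
      have hw1 : w1 ω ≠ 0 := fun h => hw (by rw [h, zero_mul])
      obtain ⟨e1, e2, e3, L, e4⟩ := b2 ω hw1
      have hd := d2b d d.2
      have hd0 : 0 < (d : ℕ) := Nat.pos_of_ne_zero (Nat.ne_zero_of_mem_factoredNumbers hd)
      refine ⟨fun i => factored_mul (e1 i) hd, fun i j => ?_, fun i j hij h => ?_, L * d, fun i j hij => ?_⟩
      · push_cast
        have := e2 i j
        have hdr : (0 : ℝ) ≤ ((d : ℕ) : ℝ) := by positivity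
        calc (r1 i ω : ℝ) * ((d : ℕ) : ℝ) ≤ (lam * r1 j ω) * ((d : ℕ) : ℝ) := mul_le_mul_of_nonneg_right this hdr
          _ = lam * (r1 j ω * ((d : ℕ) : ℝ)) := by ring
      · exact e3 i j hij (Nat.eq_of_mul_eq_mul_right hd0 h)
      · rw [Nat.lcm_mul_right, e4 i j hij]
    · simp only [Sum.elim_inr] at hw ⊢
      have hw1 : w2 ω ≠ 0 := fun h => hw (by rw [h, mul_zero])
      obtain ⟨e1, e2, e3, L, e4⟩ := c2 ω hw1
      have hd := d1b d d.2
      have hd0 : 0 < (d : ℕ) := Nat.pos_of_ne_zero (Nat.ne_zero_of_mem_factoredNumbers hd)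
      refine ⟨fun i => factored_mul hd (e1 i), fun i j => ?_, fun i j hij h => ?_, d * L, fun i j hij => ?_⟩
      · push_cast
        have := e2 i j
        have hdr : (0 : ℝ) ≤ ((d : ℕ) : ℝ) := by positivity
        calc ((d : ℕ) : ℝ) * (r2 i ω : ℝ) ≤ ((d : ℕ) : ℝ) * (lam * r2 j ω) := mul_le_mul_of_nonneg_left this hdr
          _ = lam * (((d : ℕ) : ℝ) * r2 j ω) := by ring
      · exact e3 i j hij (Nat.eq_of_mul_eq_mul_left hd0 h)
      · rw [Nat.lcm_mul_left, e4 i j hij]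
  · intro i d
    rw [Fintype.sum_sum_type]
    simp only [Sum.elim_inl, Sum.elim_inr]
    rw [Fintype.sum_prod_type, Fintype.sum_prod_type]
    have eA : ∑ x : Ω1, ∑ y : D2, (if r1 i x * (y : ℕ) = d then w1 x * (kap T2 / ((y : ℕ) : ℝ)) else 0) =
        ∑ x ∈ D1, ∑ y ∈ D2, (if x * y = d then m1 x * (kap T2 / y) else 0) := by
      have t := transfer w1 (r1 i) m1 D1 (b3 i) (hin1 i) (fun e => ∑ y ∈ D2, (if e * y = d then kap T2 / (y : ℝ) else 0))
      refine Eq.trans ?_ (t.trans ?_)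
      · refine Finset.sum_congr rfl fun x _ => ?_
        rw [Finset.mul_sum]
        rw [Finset.sum_coe_sort D2 (fun y => if r1 i x * y = d then w1 x * (kap T2 / (y : ℝ)) else 0)]
        refine Finset.sum_congr rfl fun y _ => by split_ifs <;> simp
      · refine Finset.sum_congr rfl fun x _ => ?_
        rw [Finset.mul_sum]
        refine Finset.sum_congr rfl fun y _ => by split_ifs <;> simp
    have eB : ∑ x : D1, ∑ y : Ω2, (if (x : ℕ) * r2 i y = d then (kap T1 / ((x : ℕ) : ℝ) - m1 x) * w2 y else 0) =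
        ∑ x ∈ D1, ∑ y ∈ D2, (if x * y = d then (kap T1 / x - m1 x) * m2 y else 0) := by
      rw [Finset.sum_coe_sort D1 (fun x => ∑ y : Ω2, (if x * r2 i y = d then (kap T1 / (x : ℝ) - m1 x) * w2 y else 0))]
      refine Finset.sum_congr rfl fun x _ => ?_
      have t := transfer w2 (r2 i) m2 D2 (c3 i) (hin2 i) (fun e => (if x * e = d then (kap T1 / (x : ℝ) - m1 x) else 0))
      refine Eq.trans ?_ (t.trans ?_)
      · refine Finset.sum_congr rfl fun y _ => by split_ifs <;> ring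
      · refine Finset.sum_congr rfl fun y _ => by split_ifs <;> ring
    refine Eq.trans (congrArg₂ (· + ·) eA eB) ?_
    simp only [m]
    rw [← Finset.sum_add_distrib]
    refine Finset.sum_congr rfl fun x _ => ?_
    rw [← Finset.sum_add_distrib]
    refine Finset.sum_congr rfl fun y _ => ?_
    simp only [c]
    split_ifs <;> simp
  · intro d
    have e1 : m d = ∑ x ∈ (D1 ×ˢ D2).filter (fun x => x.1 * x.2 = d), c x.1 x.2 := by
      simp only [m]
      rw [Finset.sum_filter, Finset.sum_product]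
    rw [e1]
    have e2 : ((D1 ×ˢ D2).filter (fun x => x.1 * x.2 = d)).card ≤ 1 := by
      rw [Finset.card_le_one]
      rintro ⟨x, y⟩ hx ⟨x', y'⟩ hx'
      simp only [Finset.mem_filter, Finset.mem_product] at hx hx'
      have := factored_unique hdis (d1b x hx.1.1) (d1b x' hx'.1.1) (d2b y hx.1.2) (d2b y' hx'.1.2) (hx.2.trans hx'.2.symm)
      rw [this.1, this.2]
    have e3 : ∑ x ∈ (D1 ×ˢ D2).filter (fun x => x.1 * x.2 = d), c x.1 x.2 ≤
        ∑ _x ∈ (D1 ×ˢ D2).filter (fun x => x.1 * x.2 = d), kap (T1 ∪ T2) / (d : ℝ) := by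
      refine Finset.sum_le_sum fun x hx => ?_
      have h := (Finset.mem_filter.1 hx).2
      refine (hc x.1 x.2).trans (le_of_eq ?_)
      rw [kap_union hdis, ← h]
      push_cast
      rw [div_mul_div_comm]
    refine e3.trans ?_
    rw [Finset.sum_const, nsmul_eq_mul]
    have e4 : (((D1 ×ˢ D2).filter (fun x => x.1 * x.2 = d)).card : ℝ) ≤ 1 := by exact_mod_cast e2
    have e5 : 0 ≤ kap (T1 ∪ T2) / (d : ℝ) := by
      rw [kap_union hdis]
      positivity
    nlinarith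
  · rw [Fintype.sum_sum_type]
    simp only [Sum.elim_inl, Sum.elim_inr]
    rw [Fintype.sum_prod_type, Fintype.sum_prod_type]
    have eA : ∑ x : Ω1, ∑ y : D2, w1 x * (kap T2 / ((y : ℕ) : ℝ)) = (∑ x, w1 x) * ∑ y ∈ D2, kap T2 / (y : ℝ) := by
      rw [Finset.sum_mul]
      refine Finset.sum_congr rfl fun x _ => ?_
      rw [Finset.mul_sum, Finset.sum_coe_sort D2 (fun y => w1 x * (kap T2 / (y : ℝ)))]
    have t1 := transfer w1 (r1 0) m1 D1 (b3 0) (hin1 0) (fun _ => 1)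
    have t2 := transfer w2 (r2 0) m2 D2 (c3 0) (hin2 0) (fun _ => 1)
    simp only [mul_one] at t1 t2
    have eB : ∑ x : D1, ∑ y : Ω2, (kap T1 / ((x : ℕ) : ℝ) - m1 x) * w2 y =
        (∑ x ∈ D1, kap T1 / (x : ℝ) - ∑ x, w1 x) * ∑ y, w2 y := by
      rw [Finset.sum_coe_sort D1 (fun x => ∑ y : Ω2, (kap T1 / (x : ℝ) - m1 x) * w2 y), t1, ← Finset.sum_sub_distrib,
        Finset.sum_mul]
      refine Finset.sum_congr rfl fun x _ => ?_
      rw [Finset.mul_sum]
    rw [eA, eB]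
    have u1 := sum_kap_le T1 hT1 D1 d1b
    have u2 := sum_kap_le T2 hT2 D2 d2b
    have v1 : ∑ x, w1 x ≤ 1 := by
      rw [t1]
      exact (Finset.sum_le_sum fun d _ => b4 d).trans u1
    have v2 : ∑ x, w2 x ≤ 1 := by
      rw [t2]
      exact (Finset.sum_le_sum fun d _ => c4 d).trans u2
    have p1 : 0 ≤ ∑ x, w1 x := Finset.sum_nonneg fun x _ => b1 x
    have p2 : 0 ≤ ∑ x, w2 x := Finset.sum_nonneg fun x _ => c1 x
    set μ1 := ∑ x, w1 x
    set μ2 := ∑ x, w2 x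
    set s1 := ∑ x ∈ D1, kap T1 / (x : ℝ)
    set s2 := ∑ x ∈ D2, kap T2 / (x : ℝ)
    have w1' : μ1 * s2 ≥ μ1 * (1 - η) := mul_le_mul_of_nonneg_left d2c p1
    have w2' : (s1 - μ1) * μ2 ≥ (1 - η - μ1) * μ2 := mul_le_mul_of_nonneg_right (by linarith) p2
    have w3 : a1 + a2 - a1 * a2 ≤ μ1 + μ2 - μ1 * μ2 := by
      have e : (1 - μ1) * (1 - μ2) ≤ (1 - a1) * (1 - a2) :=
        mul_le_mul (by linarith) (by linarith) (by linarith) (by linarith)
      linarith
    have w4 : η * (μ1 + μ2) ≤ 2 * η := by nlinarith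
    nlinarith

/-- systems of total mass close to one -/
theorem tri_full (δ : ℝ) (hδ : 0 < δ) (hδ1 : δ ≤ 1) (η : ℝ) (hη : 0 < η) (z0 : ℕ) : ∃ T : Finset ℕ,
    (∀ p ∈ T, p.Prime ∧ z0 < p) ∧ TriEq T (Real.exp δ) (1 - η) := by
  classical
  obtain ⟨c0, hc0, hw⟩ := window δ hδ hδ1
  set c : ℝ := min c0 1 with hc
  have hcpos : 0 < c := lt_min hc0 one_pos
  have hc1 : c ≤ 1 := min_le_right _ _
  have hwin : ∀ z0 : ℕ, ∃ T : Finset ℕ, (∀ p ∈ T, p.Prime ∧ z0 < p) ∧ TriEq T (Real.exp δ) c := by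
    intro z0
    obtain ⟨T, h1, h2⟩ := hw z0
    exact ⟨T, h1, h2.symm.mono (min_le_left _ _)⟩
  have hstep : ∀ n : ℕ, ∀ z0 : ℕ, ∃ T : Finset ℕ, (∀ p ∈ T, p.Prime ∧ z0 < p) ∧ TriEq T (Real.exp δ) (1 - (1 - c / 2) ^ n) := by
    intro n
    induction n with
    | zero =>
      intro z0
      obtain ⟨T, h1, h2⟩ := hwin z0
      exact ⟨T, h1, h2.mono (by rw [pow_zero]; linarith)⟩
    | succ n ih =>
      intro z0
      obtain ⟨T1, h1, h2⟩ := ih z0
      obtain ⟨T2, h3, h4⟩ := hwin (z0 + ∑ p ∈ T1, p)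
      have hdis : Disjoint T1 T2 := by
        rw [Finset.disjoint_left]
        intro p hp hp'
        have h5 : p ≤ ∑ p ∈ T1, p := Finset.single_le_sum (f := fun p => p) (fun _ _ => Nat.zero_le _) hp
        have h6 := (h3 p hp').2
        omega
      refine ⟨T1 ∪ T2, ?_, ?_⟩
      · intro p hp
        rw [Finset.mem_union] at hp
        rcases hp with hp | hp
        · exact h1 p hp
        · exact ⟨(h3 p hp).1, by have := (h3 p hp).2; omega⟩
      · have hb : 0 < (1 - c / 2) ^ n := pow_pos (by linarith) n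
        refine combine (fun p hp => (h1 p hp).1) (fun p hp => (h3 p hp).1) hdis h2 h4 ?_ (by linarith) hc1
        have e : (1 - (1 - c / 2) ^ n) + c - (1 - (1 - c / 2) ^ n) * c = 1 - (1 - c / 2) ^ n * (1 - c) := by ring
        rw [e, pow_succ]
        nlinarith [mul_pos hb hcpos]
  have hlim : Tendsto (fun n : ℕ => (1 - c / 2) ^ n) atTop (𝓝 0) :=
    tendsto_pow_atTop_nhds_zero_of_lt_one (by linarith) (by linarith)
  obtain ⟨n, hn⟩ := (hlim.eventually (gt_mem_nhds hη)).exists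
  obtain ⟨T, h1, h2⟩ := hstep n z0
  exact ⟨T, h1, h2.mono (by linarith)⟩

end Pool.Agent.Helper426
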