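import Mathlib
import Pool.Agent.Helper426.Combine

set_option autoImplicit false
set_option linter.unusedSectionVars false

namespace Pool.Agent.Helper426

open Finset Filter Topology

/-- weighted systems of cubes indexed by a group -/
def CubeSys (G : Type) [AddCommGroup G] (T : Finset ℕ) (lam a : ℝ) : Prop :=
  ∃ (Ω : Type) (_ : Fintype Ω) (w : Ω → ℝ) (r : G → Ω → ℕ),
    (∀ ω, 0 ≤ w ω) ∧
    (∀ ω, w ω ≠ 0 → (∀ x, r x ω ∈ Nat.factoredNumbers T) ∧ (∀ x y, (r x ω : ℝ) ≤ lam * r y ω) ∧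
      (∀ x y, x ≠ y → r x ω ≠ r y ω) ∧
      (∀ x y z, x + z = y + y → Nat.lcm (r x ω) (r y ω) = Nat.lcm (r y ω) (r z ω) ∧
        Nat.lcm (r x ω) (r y ω) = Nat.lcm (r x ω) (r z ω))) ∧
    (∀ x d, ∑ ω, (if r x ω = d then w ω else 0) ≤ kap T / d) ∧ a ≤ ∑ ω, w ω

lemma cube_zero : CubeSys PUnit ∅ 1 1 := by
  refine ⟨Unit, inferInstance, fun _ => 1, fun _ _ => 1, fun _ => zero_le_one, ?_, ?_, ?_⟩
  · intro ω _
    refine ⟨fun x => ?_, fun x y => by simp, fun x y hxy => absurd rfl hxy, fun x y z _ => ⟨rfl, rfl⟩⟩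
    rw [Nat.factoredNumbers_empty]
    rfl
  · intro x d
    simp only [kap, Finset.prod_empty, Finset.univ_unique, Finset.sum_const, Finset.card_singleton, one_smul]
    split_ifs with h
    · rw [← h]; simp
    · positivity
  · simp

lemma zmod3_cases : ∀ x y z : ZMod 3, x + z = y + y → (x = y ∧ z = y) ∨ (x ≠ y ∧ y ≠ z ∧ x ≠ z) := by decide

lemma zmod3_two : ∀ x : ZMod 3, x + x = 0 → x = 0 := by decide

lemma cube_mul {G : Type} [AddCommGroup G] {T1 T2 : Finset ℕ} (hT1 : ∀ p ∈ T1, p.Prime) (hT2 : ∀ p ∈ T2, p.Prime)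
    (hdis : Disjoint T1 T2) {lam1 lam2 a1 a2 : ℝ} (hl1 : 0 ≤ lam1) (ha1 : 0 ≤ a1) (ha2 : 0 ≤ a2)
    (h1 : CubeSys G T1 lam1 a1) (h2 : TriSys T2 lam2 a2) : CubeSys (G × ZMod 3) (T1 ∪ T2) (lam1 * lam2) (a1 * a2) := by
  classical
  obtain ⟨Ω1, hΩ1, w1, r1, b1, b2, b3, b5⟩ := h1
  obtain ⟨Ω2, hΩ2, w2, r2', c1, c2, c3, c5⟩ := h2
  let r2 : ZMod 3 → Ω2 → ℕ := r2'
  have c2' : ∀ ω, w2 ω ≠ 0 → (∀ i : ZMod 3, r2 i ω ∈ Nat.factoredNumbers T2) ∧ (∀ i j : ZMod 3, (r2 i ω : ℝ) ≤ lam2 * r2 j ω) ∧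
      (∀ i j : ZMod 3, i ≠ j → r2 i ω ≠ r2 j ω) ∧ (∃ L, ∀ i j : ZMod 3, i ≠ j → Nat.lcm (r2 i ω) (r2 j ω) = L) := c2
  have c3' : ∀ (i : ZMod 3) (d : ℕ), ∑ ω, (if r2 i ω = d then w2 ω else 0) ≤ kap T2 / d := c3
  have k1 := kap_pos T1 hT1
  have k2 := kap_pos T2 hT2
  refine ⟨Ω1 × Ω2, inferInstance, fun ω => w1 ω.1 * w2 ω.2, fun x ω => r1 x.1 ω.1 * r2 x.2 ω.2, ?_, ?_, ?_, ?_⟩
  · intro ω
    exact mul_nonneg (b1 _) (c1 _)
  · rintro ⟨ω, ω'⟩ hw
    have hw1 : w1 ω ≠ 0 := fun h => hw (by simp [h])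
    have hw2 : w2 ω' ≠ 0 := fun h => hw (by simp [h])
    obtain ⟨e1, e2, e3, e4⟩ := b2 ω hw1
    obtain ⟨f1, f2, f3, L, f4⟩ := c2' ω' hw2
    have hlcm : ∀ a a' b b' : ℕ, a ∈ Nat.factoredNumbers T1 → a' ∈ Nat.factoredNumbers T1 →
        b ∈ Nat.factoredNumbers T2 → b' ∈ Nat.factoredNumbers T2 → Nat.lcm (a * b) (a' * b') = Nat.lcm a a' * Nat.lcm b b' := by
      intro a a' b b' ha ha' hb hb'
      have cab := factored_coprime hdis ha hb
      have cab' := factored_coprime hdis ha hb'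
      have ca'b := factored_coprime hdis ha' hb
      have ca'b' := factored_coprime hdis ha' hb'
      have hl1 : Nat.Coprime (Nat.lcm a a') (Nat.lcm b b') := by
        have u1 : Nat.Coprime (a * a') (b * b') :=
          Nat.Coprime.mul_left (Nat.Coprime.mul_right cab cab') (Nat.Coprime.mul_right ca'b ca'b')
        exact (u1.coprime_dvd_left (Nat.lcm_dvd_mul a a')).coprime_dvd_right (Nat.lcm_dvd_mul b b')
      refine Nat.dvd_antisymm ?_ ?_
      · refine Nat.lcm_dvd ?_ ?_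
        · exact Nat.mul_dvd_mul (Nat.dvd_lcm_left _ _) (Nat.dvd_lcm_left _ _)
        · exact Nat.mul_dvd_mul (Nat.dvd_lcm_right _ _) (Nat.dvd_lcm_right _ _)
      · refine hl1.mul_dvd_of_dvd_of_dvd ?_ ?_
        · exact Nat.lcm_dvd ((Nat.dvd_mul_right a b).trans (Nat.dvd_lcm_left _ _))
            ((Nat.dvd_mul_right a' b').trans (Nat.dvd_lcm_right _ _))
        · exact Nat.lcm_dvd ((Nat.dvd_mul_left b a).trans (Nat.dvd_lcm_left _ _))
            ((Nat.dvd_mul_left b' a').trans (Nat.dvd_lcm_right _ _))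
    refine ⟨fun x => factored_mul (e1 _) (f1 _), ?_, ?_, ?_⟩
    · rintro ⟨x, s⟩ ⟨y, t⟩
      push_cast
      have g1 := e2 x y
      have g2 := f2 s t
      have g3 : (0 : ℝ) ≤ r2 s ω' := by positivity
      have g4 : 0 ≤ lam1 * (r1 y ω : ℝ) := by positivity
      calc (r1 x ω : ℝ) * (r2 s ω' : ℝ) ≤ (lam1 * r1 y ω) * (lam2 * r2 t ω') :=
            mul_le_mul g1 g2 g3 g4
        _ = lam1 * lam2 * (r1 y ω * r2 t ω') := by ring
    · rintro ⟨x, s⟩ ⟨y, t⟩ hne h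
      have := factored_unique hdis (e1 x) (e1 y) (f1 s) (f1 t) h
      apply hne
      by_cases hxy : x = y
      · by_cases hst : s = t
        · rw [hxy, hst]
        · exact absurd this.2 (f3 s t hst)
      · exact absurd this.1 (e3 x y hxy)
    · rintro ⟨x, s⟩ ⟨y, t⟩ ⟨z, u⟩ hxyz
      rw [Prod.mk_add_mk, Prod.mk_add_mk, Prod.mk.injEq] at hxyz
      obtain ⟨g1, g2⟩ := e4 x y z hxyz.1
      have g3 : Nat.lcm (r2 s ω') (r2 t ω') = Nat.lcm (r2 t ω') (r2 u ω') ∧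
          Nat.lcm (r2 s ω') (r2 t ω') = Nat.lcm (r2 s ω') (r2 u ω') := by
        rcases zmod3_cases s t u hxyz.2 with ⟨rfl, rfl⟩ | ⟨h1, h2, h3⟩
        · exact ⟨rfl, rfl⟩
        · rw [f4 s t h1, f4 t u h2, f4 s u h3]
          exact ⟨rfl, rfl⟩
      constructor
      · show Nat.lcm (r1 x ω * r2 s ω') (r1 y ω * r2 t ω') = Nat.lcm (r1 y ω * r2 t ω') (r1 z ω * r2 u ω')
        rw [hlcm _ _ _ _ (e1 x) (e1 y) (f1 s) (f1 t), hlcm _ _ _ _ (e1 y) (e1 z) (f1 t) (f1 u), g1, g3.1]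
      · show Nat.lcm (r1 x ω * r2 s ω') (r1 y ω * r2 t ω') = Nat.lcm (r1 x ω * r2 s ω') (r1 z ω * r2 u ω')
        rw [hlcm _ _ _ _ (e1 x) (e1 y) (f1 s) (f1 t), hlcm _ _ _ _ (e1 x) (e1 z) (f1 s) (f1 u), g2, g3.2]
  · rintro ⟨x, s⟩ d
    rw [Fintype.sum_prod_type]
    change ∑ ω, ∑ ω', (if r1 x ω * r2 s ω' = d then w1 ω * w2 ω' else 0) ≤ _
    set m1 : ℕ → ℝ := fun d => ∑ ω, (if r1 x ω = d then w1 ω else 0) with hm1
    set m2 : ℕ → ℝ := fun d => ∑ ω, (if r2 s ω = d then w2 ω else 0) with hm2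
    have hm1n : ∀ d, 0 ≤ m1 d := fun d => Finset.sum_nonneg fun ω _ => by split_ifs; exacts [b1 ω, le_rfl]
    have hm2n : ∀ d, 0 ≤ m2 d := fun d => Finset.sum_nonneg fun ω _ => by split_ifs; exacts [c1 ω, le_rfl]
    let D1 : Finset ℕ := (univ.filter fun ω => w1 ω ≠ 0).image (r1 x)
    let D2 : Finset ℕ := (univ.filter fun ω => w2 ω ≠ 0).image (r2 s)
    have hD1 : ∀ ω, w1 ω ≠ 0 → r1 x ω ∈ D1 := fun ω h => Finset.mem_image_of_mem _ (Finset.mem_filter.2 ⟨mem_univ _, h⟩)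
    have hD2 : ∀ ω, w2 ω ≠ 0 → r2 s ω ∈ D2 := fun ω h => Finset.mem_image_of_mem _ (Finset.mem_filter.2 ⟨mem_univ _, h⟩)
    have hD1f : ∀ d ∈ D1, d ∈ Nat.factoredNumbers T1 := by
      intro d hd
      obtain ⟨ω, hω, rfl⟩ := Finset.mem_image.1 hd
      exact (b2 ω (Finset.mem_filter.1 hω).2).1 x
    have hD2f : ∀ d ∈ D2, d ∈ Nat.factoredNumbers T2 := by
      intro d hd
      obtain ⟨ω, hω, rfl⟩ := Finset.mem_image.1 hd
      exact (c2' ω (Finset.mem_filter.1 hω).2).1 s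
    have e1 : ∑ ω, ∑ ω', (if r1 x ω * r2 s ω' = d then w1 ω * w2 ω' else 0) =
        ∑ e ∈ D1, ∑ f ∈ D2, (if e * f = d then m1 e * m2 f else 0) := by
      have t1 := transfer w1 (r1 x) m1 D1 (fun _ => rfl) hD1 (fun e => ∑ ω', (if e * r2 s ω' = d then w2 ω' else 0))
      refine Eq.trans ?_ (t1.trans ?_)
      · refine Finset.sum_congr rfl fun ω _ => ?_
        rw [Finset.mul_sum]
        refine Finset.sum_congr rfl fun ω' _ => by split_ifs <;> simp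
      · refine Finset.sum_congr rfl fun e _ => ?_
        have t2 := transfer w2 (r2 s) m2 D2 (fun _ => rfl) hD2 (fun f => if e * f = d then 1 else 0)
        rw [show ∑ ω', (if e * r2 s ω' = d then w2 ω' else 0) = ∑ ω, w2 ω * (if e * r2 s ω = d then 1 else 0) from
          Finset.sum_congr rfl fun ω' _ => by split_ifs <;> simp, t2, Finset.mul_sum]
        refine Finset.sum_congr rfl fun f _ => by split_ifs <;> simp
    rw [e1]
    have e2 : ∑ e ∈ D1, ∑ f ∈ D2, (if e * f = d then m1 e * m2 f else 0) =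
        ∑ x ∈ (D1 ×ˢ D2).filter (fun x => x.1 * x.2 = d), m1 x.1 * m2 x.2 := by
      rw [Finset.sum_filter, Finset.sum_product]
    rw [e2]
    have e3 : ((D1 ×ˢ D2).filter (fun x => x.1 * x.2 = d)).card ≤ 1 := by
      rw [Finset.card_le_one]
      rintro ⟨x, y⟩ hx ⟨x', y'⟩ hx'
      simp only [Finset.mem_filter, Finset.mem_product] at hx hx'
      have := factored_unique hdis (hD1f x hx.1.1) (hD1f x' hx'.1.1) (hD2f y hx.1.2) (hD2f y' hx'.1.2) (hx.2.trans hx'.2.symm)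
      rw [this.1, this.2]
    have e4 : ∑ x ∈ (D1 ×ˢ D2).filter (fun x => x.1 * x.2 = d), m1 x.1 * m2 x.2 ≤
        ∑ _x ∈ (D1 ×ˢ D2).filter (fun x => x.1 * x.2 = d), kap (T1 ∪ T2) / (d : ℝ) := by
      refine Finset.sum_le_sum fun y hy => ?_
      have h := (Finset.mem_filter.1 hy).2
      have h3 : m1 y.1 ≤ kap T1 / y.1 := b3 x y.1
      have h4 : m2 y.2 ≤ kap T2 / y.2 := c3' s y.2
      refine (mul_le_mul h3 h4 (hm2n _) (by positivity)).trans (le_of_eq ?_)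
      rw [kap_union hdis, ← h]
      push_cast
      rw [div_mul_div_comm]
    refine e4.trans ?_
    rw [Finset.sum_const, nsmul_eq_mul]
    have e5 : (((D1 ×ˢ D2).filter (fun x => x.1 * x.2 = d)).card : ℝ) ≤ 1 := by exact_mod_cast e3
    have e6 : 0 ≤ kap (T1 ∪ T2) / (d : ℝ) := by
      rw [kap_union hdis]
      positivity
    nlinarith
  · rw [Fintype.sum_prod_type]
    change a1 * a2 ≤ ∑ ω, ∑ ω', w1 ω * w2 ω'
    rw [← Finset.sum_mul_sum]
    exact mul_le_mul b5 c5 ha2 (ha1.trans b5)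

/-- cube systems of large dimension -/
theorem cube_exists (δ : ℝ) (hδ : 0 < δ) (hδ1 : δ ≤ 1) (η : ℝ) (hη : 0 < η) (hη1 : η ≤ 1) (n : ℕ) :
    ∃ (G : Type) (_ : AddCommGroup G) (_ : Fintype G) (_ : DecidableEq G) (T : Finset ℕ),
      Fintype.card G = 3 ^ n ∧ (∀ x : G, x + x = 0 → x = 0) ∧ (∀ p ∈ T, p.Prime) ∧
      CubeSys G T (Real.exp δ ^ n) ((1 - η) ^ n) := by
  induction n with
  | zero =>
    refine ⟨PUnit, inferInstance, inferInstance, inferInstance, ∅, by simp, fun x _ => rfl, by simp, ?_⟩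
    rw [pow_zero, pow_zero]
    exact cube_zero
  | succ n ih =>
    obtain ⟨G, i1, i2, i3, T, h1, h2, h3, h4⟩ := ih
    obtain ⟨T', h5, h6⟩ := tri_full δ hδ hδ1 η hη (∑ p ∈ T, p)
    have hdis : Disjoint T T' := by
      rw [Finset.disjoint_left]
      intro p hp hp'
      have h5' : p ≤ ∑ p ∈ T, p := Finset.single_le_sum (f := fun p => p) (fun _ _ => Nat.zero_le _) hp
      have h6' := (h5 p hp').2
      omega
    refine ⟨G × ZMod 3, inferInstance, inferInstance, inferInstance, T ∪ T', ?_, ?_, ?_, ?_⟩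
    · rw [Fintype.card_prod, h1, ZMod.card, pow_succ]
    · rintro ⟨x, s⟩ hx
      rw [Prod.mk_add_mk, Prod.mk_eq_zero] at hx
      rw [h2 x hx.1, zmod3_two s hx.2]
      rfl
    · intro p hp
      rw [Finset.mem_union] at hp
      rcases hp with hp | hp
      · exact h3 p hp
      · exact (h5 p hp).1
    · rw [pow_succ, pow_succ]
      exact cube_mul h3 (fun p hp => (h5 p hp).1) hdis (pow_nonneg (Real.exp_pos _).le n)
        (pow_nonneg (by linarith) n) (by linarith) h4 h6.toSys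

end Pool.Agent.Helper426
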