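import Mathlib
import Pool.Agent.Helper426.Cube

/-!
Overview of the proof of the statement on three elements with equal pairwise least common multiples.

* `Window.lean`, `Params.lean`: for every `δ` there is `c > 0` such that beyond every `z` there is a finite set
  `T` of primes carrying a weighted system of triples `(r 0, r 1, r 2)` of integers composed of primes of `T`, the three
  pairwise least common multiples being equal, the ratios at most `exp δ`, total weight at least `c`, and each of the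
  three marginals bounded by the natural density `kap T / d`.  The triples are `S X Y`, `S Z Y`, `S X Z` with
  `X, Y, Z` pairwise coprime of nearly the same size; the truncation of the weights by the average over permutations of
  the prime factors needs a second moment estimate (`Sym.lean`, `Second.lean`, `Lower.lean`).
* `Combine.lean`: systems on disjoint sets of primes are combined, so the total weight can be made close to one.
* `Cube.lean`: products of such systems give systems indexed by the group of exponent three of any dimension.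
* `Final.lean`: averaging over the integers up to `N` and the theorem of Roth for finite abelian groups
  (in Mathlib) give the result.
-/

set_option autoImplicit false
set_option linter.unusedSectionVars false

namespace Pool.Agent.Helper426

open Finset Filter Topology

/-- number of integers up to `n` coprime to `P` -/
def cnt (P n : ℕ) : ℕ := ((Finset.Icc 1 n).filter (fun s => Nat.Coprime P s)).card

lemma cnt_upper (P n : ℕ) (hP : P ≠ 0) : (cnt P n : ℝ) ≤ (Nat.totient P : ℝ) * ((n : ℝ) / P + 1) := by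
  have h1 := Nat.Ico_filter_coprime_le (a := P) 1 n hP
  have h2 : Finset.Ico 1 (1 + n) = Finset.Icc 1 n := by
    ext x
    simp only [Finset.mem_Ico, Finset.mem_Icc]
    omega
  rw [h2] at h1
  unfold cnt
  have h3 : (((Finset.Icc 1 n).filter (fun s => Nat.Coprime P s)).card : ℝ) ≤ ((Nat.totient P * (n / P + 1) : ℕ) : ℝ) := by
    exact_mod_cast h1
  refine h3.trans ?_
  push_cast
  have h4 : ((n / P : ℕ) : ℝ) ≤ (n : ℝ) / P := Nat.cast_div_le
  gcongr

lemma cnt_block (P k : ℕ) : Nat.totient P * k ≤ ((Finset.Ico 1 (1 + P * k)).filter (fun s => Nat.Coprime P s)).card := by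
  induction k with
  | zero => simp
  | succ k ih =>
    have h1 : Finset.Ico 1 (1 + P * (k + 1)) = Finset.Ico 1 (1 + P * k) ∪ Finset.Ico (1 + P * k) ((1 + P * k) + P) := by
      ext x
      simp only [Finset.mem_Ico, Finset.mem_union]
      rw [mul_add, mul_one]
      omega
    rw [h1, Finset.filter_union, Finset.card_union_of_disjoint, Nat.filter_coprime_Ico_eq_totient]
    · rw [mul_add, mul_one]
      omega
    · rw [Finset.disjoint_left]
      intro x hx hx'
      simp only [Finset.mem_filter, Finset.mem_Ico] at hx hx'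
      omega

lemma cnt_lower (P n : ℕ) (hP : 0 < P) : (Nat.totient P : ℝ) * ((n : ℝ) / P - 1) ≤ cnt P n := by
  have h1 := cnt_block P (n / P)
  have h2 : ((Finset.Ico 1 (1 + P * (n / P))).filter (fun s => Nat.Coprime P s)).card ≤ cnt P n := by
    unfold cnt
    refine Finset.card_le_card (Finset.filter_subset_filter _ ?_)
    intro x hx
    simp only [Finset.mem_Ico, Finset.mem_Icc] at hx ⊢
    have := Nat.mul_div_le n P
    omega
  have h3 : ((Nat.totient P * (n / P) : ℕ) : ℝ) ≤ cnt P n := by exact_mod_cast h1.trans h2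
  refine le_trans ?_ h3
  push_cast
  have h4 : (n : ℝ) / P - 1 ≤ ((n / P : ℕ) : ℝ) := by
    have := Nat.lt_floor_add_one ((n : ℝ) / P)
    rw [Nat.floor_div_natCast, Nat.floor_natCast] at this
    linarith
  gcongr

lemma totient_kap (T : Finset ℕ) (hT : ∀ p ∈ T, p.Prime) :
    (Nat.totient (∏ p ∈ T, p) : ℝ) = kap T * ((∏ p ∈ T, p : ℕ) : ℝ) := by
  have h1 := Nat.totient_eq_mul_prod_factors (∏ p ∈ T, p)
  rw [Nat.primeFactors_prod hT] at h1
  have h2 : ((Nat.totient (∏ p ∈ T, p) : ℚ) : ℝ) = (((∏ p ∈ T, p : ℕ) : ℚ) * ∏ p ∈ T, (1 - (p : ℚ)⁻¹) : ℚ) := by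
    exact_mod_cast congrArg (fun q : ℚ => (q : ℝ)) h1
  push_cast at h2
  push_cast
  rw [h2, mul_comm]
  congr 1
  unfold kap
  refine Finset.prod_congr rfl fun p _ => ?_
  rw [one_div]

theorem averaging {G : Type} [AddCommGroup G] [Fintype G] [DecidableEq G] (T : Finset ℕ) (hT : ∀ p ∈ T, p.Prime)
    (ε : ℝ) (hε : 0 < ε) (hε1 : ε ≤ 1) (htwo : ∀ x : G, x + x = 0 → x = 0)
    (hroth : cornersTheoremBound (ε / 16) ≤ Fintype.card G) (hsys : CubeSys G T 2 (1 - ε / 4)) :
    ∃ N₀ : ℕ, ∀ N : ℕ, N₀ ≤ N → ∀ A : Finset ℕ, A ⊆ Finset.Icc 1 N → ε * (N : ℝ) ≤ (A.card : ℝ) →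
        ∃ a ∈ A, ∃ b ∈ A, ∃ c ∈ A, a ≠ b ∧ b ≠ c ∧ a ≠ c ∧
          Nat.lcm a b = Nat.lcm b c ∧ Nat.lcm a b = Nat.lcm a c := by
  classical
  obtain ⟨Ω, hΩ, w, r, b1, b2, b3, b5⟩ := hsys
  set P : ℕ := ∏ p ∈ T, p with hP
  have hP0 : 0 < P := Nat.pos_of_ne_zero (Finset.prod_ne_zero_iff.2 fun p hp => (hT p hp).ne_zero)
  have hPr : (0 : ℝ) < P := by exact_mod_cast hP0
  set κ : ℝ := kap T with hκ
  have hκ0 : 0 < κ := kap_pos T hT
  have htot : (Nat.totient P : ℝ) = κ * P := totient_kap T hT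
  set B : ℕ := ∑ x, ∑ ω, r x ω with hB
  have hrB : ∀ x ω, r x ω ≤ B := by
    intro x ω
    have h1 : r x ω ≤ ∑ ω, r x ω := Finset.single_le_sum (f := fun ω => r x ω) (fun _ _ => Nat.zero_le _) (mem_univ ω)
    have h2 : ∑ ω, r x ω ≤ B := Finset.single_le_sum (f := fun x => ∑ ω, r x ω) (fun _ _ => Nat.zero_le _) (mem_univ x)
    exact h1.trans h2
  refine ⟨⌈8 * (P + 1) * (B + 1) / ε⌉₊ + 1, fun N hN A hA hAc => ?_⟩
  have hN1 : 8 * ((P : ℝ) + 1) * (B + 1) ≤ ε * N := by
    have h1 : (8 * ((P : ℝ) + 1) * (B + 1) / ε) ≤ N := by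
      refine (Nat.le_ceil _).trans ?_
      exact_mod_cast (Nat.le_succ _).trans hN
    rw [div_le_iff₀ hε] at h1
    linarith
  have hNpos : (0 : ℝ) < N := by
    have h0 : (0 : ℝ) < 8 * ((P : ℝ) + 1) * (B + 1) := by positivity
    by_contra h
    push Not at h
    nlinarith
  -- the sets of cofactors
  let S : ℕ → Finset ℕ := fun d => (Finset.Icc 1 (N / d)).filter (fun s => Nat.Coprime P s)
  have hcop : ∀ d ∈ Nat.factoredNumbers T, ∀ s, Nat.Coprime P s → Nat.Coprime d s := by
    intro d hd s hs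
    refine Nat.Coprime.symm (Nat.coprime_of_dvd fun p hp hps hpd => ?_)
    rw [Nat.mem_factoredNumbers'] at hd
    have h1 := hd p hp hpd
    have h2 : p ∣ P := Finset.dvd_prod_of_mem (fun p => p) h1
    exact hp.one_lt.ne' (Nat.eq_one_of_dvd_coprimes hs h2 hps)
  have hN8 : ∀ d, d ≤ B → ((P : ℝ) + 1) * d ≤ ε / 8 * N := by
    intro d hd
    have h1 : (d : ℝ) ≤ B := by exact_mod_cast hd
    have h2 : ((P : ℝ) + 1) * d ≤ ((P : ℝ) + 1) * (B + 1) := by gcongr; linarith
    linarith
  have hSlow : ∀ d, 0 < d → d ≤ B → 1 - ε / 8 ≤ (d : ℝ) / (κ * N) * (S d).card := by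
    intro d hd hdB
    have hdr : (0 : ℝ) < d := by exact_mod_cast hd
    have h1 := cnt_lower P (N / d) hP0
    rw [htot] at h1
    have h2 : ((N : ℝ) / d) - 1 ≤ ((N / d : ℕ) : ℝ) := by
      have := Nat.lt_floor_add_one ((N : ℝ) / d)
      rw [Nat.floor_div_natCast, Nat.floor_natCast] at this
      linarith
    have h3 : κ * ((N : ℝ) / d - 1 - P) ≤ (S d).card := by
      refine le_trans ?_ h1
      have e : κ * P * (((N / d : ℕ) : ℝ) / P - 1) = κ * (((N / d : ℕ) : ℝ) - P) := by field_simp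
      rw [e]
      exact mul_le_mul_of_nonneg_left (by linarith) hκ0.le
    have h4 : (d : ℝ) / (κ * N) * (κ * ((N : ℝ) / d - 1 - P)) ≤ (d : ℝ) / (κ * N) * (S d).card :=
      mul_le_mul_of_nonneg_left h3 (by positivity)
    refine le_trans ?_ h4
    have e : (d : ℝ) / (κ * N) * (κ * ((N : ℝ) / d - 1 - P)) = 1 - (((P : ℝ) + 1) * d) / N := by
      field_simp
      ring
    rw [e]
    have h5 : (((P : ℝ) + 1) * d) / N ≤ ε / 8 := by
      rw [div_le_iff₀ hNpos]
      exact hN8 d hdB
    linarith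
  -- claim for each group element
  have hmass1 : ∑ ω, w ω ≤ 1 := by
    let x : G := 0
    let m : ℕ → ℝ := fun d => ∑ ω, (if r x ω = d then w ω else 0)
    let D : Finset ℕ := (univ.filter fun ω => w ω ≠ 0).image (r x)
    have hD : ∀ ω, w ω ≠ 0 → r x ω ∈ D := fun ω h => Finset.mem_image_of_mem _ (Finset.mem_filter.2 ⟨mem_univ _, h⟩)
    have hDf : ∀ d ∈ D, d ∈ Nat.factoredNumbers T := by
      intro d hd
      obtain ⟨ω, hω, rfl⟩ := Finset.mem_image.1 hd
      exact (b2 ω (Finset.mem_filter.1 hω).2).1 x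
    have t := transfer w (r x) m D (fun _ => rfl) hD (fun _ => 1)
    simp only [mul_one] at t
    rw [t]
    exact (Finset.sum_le_sum fun d _ => b3 x d).trans (sum_kap_le T hT D hDf)
  have hkey : ∀ x : G, 5 * ε / 8 ≤ ∑ ω, w ω * ((r x ω : ℝ) / (κ * N) * ((S (r x ω)).filter (fun s => s * r x ω ∈ A)).card) := by
    intro x
    let m : ℕ → ℝ := fun d => ∑ ω, (if r x ω = d then w ω else 0)
    let D : Finset ℕ := (univ.filter fun ω => w ω ≠ 0).image (r x)
    have hD : ∀ ω, w ω ≠ 0 → r x ω ∈ D := fun ω h => Finset.mem_image_of_mem _ (Finset.mem_filter.2 ⟨mem_univ _, h⟩)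
    have hDf : ∀ d ∈ D, d ∈ Nat.factoredNumbers T := by
      intro d hd
      obtain ⟨ω, hω, rfl⟩ := Finset.mem_image.1 hd
      exact (b2 ω (Finset.mem_filter.1 hω).2).1 x
    have hDpos : ∀ d ∈ D, 0 < d := fun d hd => Nat.pos_of_ne_zero (Nat.ne_zero_of_mem_factoredNumbers (hDf d hd))
    have t := transfer w (r x) m D (fun _ => rfl) hD (fun d => (d : ℝ) / (κ * N) * ((S d).filter (fun s => s * d ∉ A)).card)
    have hbad : ∑ ω, w ω * ((r x ω : ℝ) / (κ * N) * ((S (r x ω)).filter (fun s => s * r x ω ∉ A)).card) ≤ 1 - ε := by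
      rw [t]
      have h1 : ∀ d ∈ D, m d * ((d : ℝ) / (κ * N) * ((S d).filter (fun s => s * d ∉ A)).card) ≤
          (1 / N : ℝ) * ((S d).filter (fun s => s * d ∉ A)).card := by
        intro d hd
        have hdr : (0 : ℝ) < d := by exact_mod_cast hDpos d hd
        have h2 : m d ≤ κ / d := b3 x d
        have h3 : m d * ((d : ℝ) / (κ * N)) ≤ 1 / N := by
          calc m d * ((d : ℝ) / (κ * N)) ≤ (κ / d) * ((d : ℝ) / (κ * N)) := mul_le_mul_of_nonneg_right h2 (by positivity)
            _ = 1 / N := by field_simp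
        rw [← mul_assoc]
        exact mul_le_mul_of_nonneg_right h3 (by positivity)
      refine (Finset.sum_le_sum h1).trans ?_
      rw [← Finset.mul_sum]
      have h4 : ∑ d ∈ D, ((S d).filter (fun s => s * d ∉ A)).card ≤ (Finset.Icc 1 N \ A).card := by
        have h5 : ∑ d ∈ D, ((S d).filter (fun s => s * d ∉ A)).card =
            (D.sigma fun d => (S d).filter (fun s => s * d ∉ A)).card := (Finset.card_sigma _ _).symm
        rw [h5]
        refine Finset.card_le_card_of_injOn (fun y => y.2 * y.1) ?_ ?_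
        · rintro ⟨d, s⟩ hy
          simp only [Finset.coe_sigma, Set.mem_sigma_iff, Finset.mem_coe, Finset.mem_filter, S, Finset.mem_Icc] at hy
          simp only [Finset.coe_sdiff, Finset.coe_Icc, Set.mem_sdiff, Set.mem_Icc, Finset.mem_coe]
          have hd := hDpos d hy.1
          have hs1 := hy.2.1.1.1
          have hs2 := hy.2.1.1.2
          rw [Nat.le_div_iff_mul_le hd] at hs2
          exact ⟨⟨Nat.mul_pos hs1 hd, hs2⟩, hy.2.2⟩
        · rintro ⟨d, s⟩ hy ⟨d', s'⟩ hy' h
          simp only [Finset.coe_sigma, Set.mem_sigma_iff, Finset.mem_coe, Finset.mem_filter, S, Finset.mem_Icc] at hy hy'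
          simp only at h
          have c1 := hcop d (hDf d hy.1) s' hy'.2.1.2
          have c2 := hcop d' (hDf d' hy'.1) s hy.2.1.2
          have e1 : d ∣ d' := by
            have : d ∣ s' * d' := Dvd.intro_left s h
            exact c1.dvd_of_dvd_mul_left this
          have e2 : d' ∣ d := by
            have : d' ∣ s * d := Dvd.intro_left s' h.symm
            exact c2.dvd_of_dvd_mul_left this
          have e3 : d = d' := Nat.dvd_antisymm e1 e2
          subst e3
          have e4 : s = s' := Nat.eq_of_mul_eq_mul_right (hDpos d hy.1) h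
          rw [e4]
      have h6 : ((∑ d ∈ D, ((S d).filter (fun s => s * d ∉ A)).card : ℕ) : ℝ) ≤ N - ε * N := by
        have h7 : (Finset.Icc 1 N \ A).card = N - A.card := by
          rw [Finset.card_sdiff_of_subset hA, Nat.card_Icc]
          omega
        have h8 : A.card ≤ N := by
          have := Finset.card_le_card hA
          rw [Nat.card_Icc] at this
          omega
        have h9 : ((∑ d ∈ D, ((S d).filter (fun s => s * d ∉ A)).card : ℕ) : ℝ) ≤ ((N - A.card : ℕ) : ℝ) := by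
          rw [← h7]; exact_mod_cast h4
        rw [Nat.cast_sub h8] at h9
        linarith
      push_cast at h6
      calc (1 / N : ℝ) * ∑ d ∈ D, (((S d).filter (fun s => s * d ∉ A)).card : ℝ) ≤ (1 / N : ℝ) * (N - ε * N) :=
            mul_le_mul_of_nonneg_left h6 (by positivity)
        _ = 1 - ε := by field_simp
    have hall : (1 - ε / 8) * (1 - ε / 4) ≤ ∑ ω, w ω * ((r x ω : ℝ) / (κ * N) * (S (r x ω)).card) := by
      have h1 : ∀ ω, w ω * (1 - ε / 8) ≤ w ω * ((r x ω : ℝ) / (κ * N) * (S (r x ω)).card) := by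
        intro ω
        by_cases hw : w ω = 0
        · rw [hw, zero_mul, zero_mul]
        · exact mul_le_mul_of_nonneg_left (hSlow _ (Nat.pos_of_ne_zero (Nat.ne_zero_of_mem_factoredNumbers ((b2 ω hw).1 x))) (hrB x ω)) (b1 ω)
      refine le_trans ?_ (Finset.sum_le_sum fun ω _ => h1 ω)
      rw [← Finset.sum_mul, mul_comm]
      exact mul_le_mul_of_nonneg_right b5 (by linarith)
    have hsplit : ∀ ω, w ω * ((r x ω : ℝ) / (κ * N) * (S (r x ω)).card) =
        w ω * ((r x ω : ℝ) / (κ * N) * ((S (r x ω)).filter (fun s => s * r x ω ∈ A)).card) +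
        w ω * ((r x ω : ℝ) / (κ * N) * ((S (r x ω)).filter (fun s => s * r x ω ∉ A)).card) := by
      intro ω
      have h1 := Finset.card_filter_add_card_filter_not (s := S (r x ω)) (fun s => s * r x ω ∈ A)
      have h2 : ((S (r x ω)).card : ℝ) = (((S (r x ω)).filter (fun s => s * r x ω ∈ A)).card : ℝ) +
          (((S (r x ω)).filter (fun s => s * r x ω ∉ A)).card : ℝ) := by exact_mod_cast h1.symm
      rw [h2]
      ring
    rw [Finset.sum_congr rfl fun ω _ => hsplit ω, Finset.sum_add_distrib] at hall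
    nlinarith
  -- choose a configuration
  set F : Ω → ℝ := fun ω => ∑ x : G, (r x ω : ℝ) / (κ * N) * ((S (r x ω)).filter (fun s => s * r x ω ∈ A)).card with hF
  have hGpos : (0 : ℝ) < Fintype.card G := by exact_mod_cast Fintype.card_pos
  have hsumF : (Fintype.card G : ℝ) * (5 * ε / 8) ≤ ∑ ω, w ω * F ω := by
    have h1 : ∑ ω, w ω * F ω = ∑ x : G, ∑ ω, w ω * ((r x ω : ℝ) / (κ * N) * ((S (r x ω)).filter (fun s => s * r x ω ∈ A)).card) := by
      rw [Finset.sum_comm]
      refine Finset.sum_congr rfl fun ω _ => ?_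
      rw [hF, Finset.mul_sum]
    rw [h1]
    calc (Fintype.card G : ℝ) * (5 * ε / 8) = ∑ _x : G, (5 * ε / 8) := by
          rw [Finset.sum_const, Finset.card_univ, nsmul_eq_mul]
      _ ≤ _ := Finset.sum_le_sum fun x _ => hkey x
  obtain ⟨ω, hw, hFω⟩ : ∃ ω, w ω ≠ 0 ∧ (ε / 2) * Fintype.card G < F ω := by
    by_contra hcon
    push Not at hcon
    have h1 : ∑ ω, w ω * F ω ≤ ∑ ω, w ω * ((ε / 2) * Fintype.card G) := by
      refine Finset.sum_le_sum fun ω _ => ?_
      by_cases hw : w ω = 0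
      · rw [hw, zero_mul, zero_mul]
      · exact mul_le_mul_of_nonneg_left (hcon ω hw) (b1 ω)
    rw [← Finset.sum_mul] at h1
    have h2 : (∑ ω, w ω) * ((ε / 2) * Fintype.card G) ≤ 1 * ((ε / 2) * Fintype.card G) :=
      mul_le_mul_of_nonneg_right hmass1 (by positivity)
    have h3 : 0 < ε * Fintype.card G := by positivity
    linarith
  obtain ⟨e1, e2, e3, e4⟩ := b2 ω hw
  have hrpos : ∀ x, 0 < r x ω := fun x => Nat.pos_of_ne_zero (Nat.ne_zero_of_mem_factoredNumbers (e1 x))
  set ρ : ℕ := r 0 ω with hρ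
  have hρ0 : 0 < ρ := hrpos 0
  have hρr : (0 : ℝ) < ρ := by exact_mod_cast hρ0
  let U : Finset ℕ := (Finset.Icc 1 (2 * N / ρ)).filter (fun s => Nat.Coprime P s)
  have hUcard : (U.card : ℝ) ≤ 4 * κ * N / ρ := by
    have h1 := cnt_upper P (2 * N / ρ) hP0.ne'
    rw [htot] at h1
    have h2 : ((2 * N / ρ : ℕ) : ℝ) ≤ (2 * N : ℝ) / ρ := by
      have := @Nat.cast_div_le ℝ _ _ _ (2 * N) ρ
      push_cast at this
      exact this
    have h3 : (P : ℝ) ≤ 2 * N / ρ := by
      rw [le_div_iff₀ hρr]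
      have h4 := hN8 ρ (hrB 0 ω)
      nlinarith
    have e : κ * P * (((2 * N / ρ : ℕ) : ℝ) / P + 1) = κ * (((2 * N / ρ : ℕ) : ℝ) + P) := by field_simp
    rw [e] at h1
    refine h1.trans ?_
    calc κ * (((2 * N / ρ : ℕ) : ℝ) + P) ≤ κ * ((2 * N : ℝ) / ρ + 2 * N / ρ) := by gcongr
      _ = 4 * κ * N / ρ := by ring
  have hcount : ∑ x : G, (((S (r x ω)).filter (fun s => s * r x ω ∈ A)).card : ℝ) ≤
      ∑ s ∈ U, ((univ.filter fun x : G => s * r x ω ∈ A).card : ℝ) := by
    have h1 : ∀ x : G, (((S (r x ω)).filter (fun s => s * r x ω ∈ A)).card : ℝ) ≤ ∑ s ∈ U, (if s * r x ω ∈ A then (1 : ℝ) else 0) := by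
      intro x
      have h2 : ((S (r x ω)).filter (fun s => s * r x ω ∈ A)) ⊆ U.filter (fun s => s * r x ω ∈ A) := by
        intro s hs
        simp only [Finset.mem_filter, S, U, Finset.mem_Icc] at hs ⊢
        refine ⟨⟨⟨hs.1.1.1, ?_⟩, hs.1.2⟩, hs.2⟩
        rw [Nat.le_div_iff_mul_le hρ0]
        have h3 := hs.1.1.2
        rw [Nat.le_div_iff_mul_le (hrpos x)] at h3
        have h4 : (ρ : ℝ) ≤ 2 * r x ω := e2 0 x
        have h5 : ρ ≤ 2 * r x ω := by exact_mod_cast h4
        nlinarith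
      have h3 := Finset.card_le_card h2
      have h4 : ((U.filter (fun s => s * r x ω ∈ A)).card : ℝ) = ∑ s ∈ U, (if s * r x ω ∈ A then (1 : ℝ) else 0) := by
        rw [Finset.sum_ite, Finset.sum_const_zero, add_zero, Finset.sum_const, nsmul_eq_mul, mul_one]
      rw [← h4]
      exact_mod_cast h3
    refine (Finset.sum_le_sum fun x _ => h1 x).trans ?_
    rw [Finset.sum_comm]
    refine Finset.sum_le_sum fun s _ => ?_
    rw [Finset.sum_ite, Finset.sum_const_zero, add_zero, Finset.sum_const, nsmul_eq_mul, mul_one]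
  have hFle : F ω ≤ (2 * ρ / (κ * N)) * ∑ x : G, (((S (r x ω)).filter (fun s => s * r x ω ∈ A)).card : ℝ) := by
    rw [hF, Finset.mul_sum]
    refine Finset.sum_le_sum fun x _ => ?_
    refine mul_le_mul_of_nonneg_right ?_ (by positivity)
    exact div_le_div_of_nonneg_right (e2 x 0) (by positivity)
  obtain ⟨s, hsU, hsc⟩ : ∃ s ∈ U, (ε / 16) * Fintype.card G ≤ ((univ.filter fun x : G => s * r x ω ∈ A).card : ℝ) := by
    by_contra hcon
    push Not at hcon
    have h1 : ∑ s ∈ U, ((univ.filter fun x : G => s * r x ω ∈ A).card : ℝ) ≤ ∑ _s ∈ U, (ε / 16) * Fintype.card G :=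
      Finset.sum_le_sum fun s hs => (hcon s hs).le
    rw [Finset.sum_const, nsmul_eq_mul] at h1
    have h2 : (U.card : ℝ) * ((ε / 16) * Fintype.card G) ≤ (4 * κ * N / ρ) * ((ε / 16) * Fintype.card G) :=
      mul_le_mul_of_nonneg_right hUcard (by positivity)
    have h3 : (2 * ρ / (κ * N)) * ∑ x : G, (((S (r x ω)).filter (fun s => s * r x ω ∈ A)).card : ℝ) ≤
        (2 * ρ / (κ * N)) * ((4 * κ * N / ρ) * ((ε / 16) * Fintype.card G)) :=
      mul_le_mul_of_nonneg_left (hcount.trans (h1.trans h2)) (by positivity)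
    have h4 : (2 * ρ / (κ * N)) * ((4 * κ * N / ρ) * ((ε / 16) * Fintype.card G)) = (ε / 2) * Fintype.card G := by
      field_simp
      ring
    linarith
  have hs1 : 1 ≤ s := by
    simp only [U, Finset.mem_filter, Finset.mem_Icc] at hsU
    exact hsU.1.1
  have hnot := roth_3ap_theorem (ε / 16) (by positivity) hroth (univ.filter fun x : G => s * r x ω ∈ A) hsc
  unfold ThreeAPFree at hnot
  push Not at hnot
  obtain ⟨x, hx, y, hy, z, hz, hxyz, hne⟩ := hnot
  simp only [Finset.coe_filter, Finset.mem_univ, true_and, Set.mem_ofPred_eq] at hx hy hz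
  have hyz : y ≠ z := by
    intro h
    rw [← h] at hxyz
    exact hne (add_right_cancel hxyz)
  have hxz : x ≠ z := by
    intro h
    rw [← h] at hxyz
    have h1 : (x - y) + (x - y) = 0 := by
      have : (x - y) + (x - y) = (x + x) - (y + y) := by abel
      rw [this, hxyz, sub_self]
    exact hne (sub_eq_zero.1 (htwo _ h1))
  have hs0 : 0 < s := hs1
  obtain ⟨l1, l2⟩ := e4 x y z hxyz
  refine ⟨s * r x ω, hx, s * r y ω, hy, s * r z ω, hz, ?_, ?_, ?_, ?_, ?_⟩
  · exact fun h => e3 x y hne (Nat.eq_of_mul_eq_mul_left hs0 h)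
  · exact fun h => e3 y z hyz (Nat.eq_of_mul_eq_mul_left hs0 h)
  · exact fun h => e3 x z hxz (Nat.eq_of_mul_eq_mul_left hs0 h)
  · rw [Nat.lcm_mul_left, Nat.lcm_mul_left, l1]
  · rw [Nat.lcm_mul_left, Nat.lcm_mul_left, l2]

theorem main_thm :
    ∀ ε : ℝ, 0 < ε → ∃ N₀ : ℕ, ∀ N : ℕ, N₀ ≤ N →
      ∀ A : Finset ℕ, A ⊆ Finset.Icc 1 N → ε * (N : ℝ) ≤ (A.card : ℝ) →
        ∃ a ∈ A, ∃ b ∈ A, ∃ c ∈ A, a ≠ b ∧ b ≠ c ∧ a ≠ c ∧
          Nat.lcm a b = Nat.lcm b c ∧ Nat.lcm a b = Nat.lcm a c := by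
  intro ε0 hε0
  set ε : ℝ := min ε0 1 with hε
  have hεpos : 0 < ε := lt_min hε0 one_pos
  have hε1 : ε ≤ 1 := min_le_right _ _
  set n : ℕ := cornersTheoremBound (ε / 16) + 1 with hn
  have hn3 : cornersTheoremBound (ε / 16) ≤ 3 ^ n := by
    have h1 : n < 3 ^ n := Nat.lt_pow_self (by norm_num)
    omega
  have hnr : (1 : ℝ) ≤ n := by exact_mod_cast (by omega : 1 ≤ n)
  set δ : ℝ := 1 / (2 * n) with hδ
  have hδ0 : 0 < δ := by positivity
  have hδ1 : δ ≤ 1 := by
    rw [hδ, div_le_one (by positivity)]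
    linarith
  set η : ℝ := ε / (4 * n) with hη
  have hη0 : 0 < η := by positivity
  have hη1 : η ≤ 1 := by
    rw [hη, div_le_one (by positivity)]
    linarith
  obtain ⟨G, i1, i2, i3, T, hcard, htwo, hT, hsys⟩ := cube_exists δ hδ0 hδ1 η hη0 hη1 n
  have hlam : Real.exp δ ^ n ≤ 2 := by
    rw [← Real.exp_nat_mul, hδ]
    have h1 : (n : ℝ) * (1 / (2 * n)) = 1 / 2 := by field_simp
    rw [h1]
    have h2 : Real.exp (1 / 2) * Real.exp (1 / 2) < 2.7182818286 := by
      rw [← Real.exp_add, show (1 / 2 : ℝ) + 1 / 2 = 1 by norm_num]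
      exact Real.exp_one_lt_d9
    nlinarith [Real.exp_pos (1 / 2)]
  have hmass : 1 - ε / 4 ≤ (1 - η) ^ n := by
    have h1 := one_add_mul_le_pow (a := -η) (by linarith) n
    have h2 : (1 : ℝ) + n * (-η) = 1 - ε / 4 := by
      rw [hη]
      field_simp
      try ring
    have h3 : (1 + -η : ℝ) = 1 - η := by ring
    rw [h2, h3] at h1
    exact h1
  have hsys' : CubeSys G T 2 (1 - ε / 4) := by
    obtain ⟨Ω, hΩ, w, r, b1, b2, b3, b5⟩ := hsys
    refine ⟨Ω, hΩ, w, r, b1, ?_, b3, hmass.trans b5⟩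
    intro ω hw
    obtain ⟨e1, e2, e3, e4⟩ := b2 ω hw
    refine ⟨e1, fun x y => (e2 x y).trans ?_, e3, e4⟩
    exact mul_le_mul_of_nonneg_right hlam (by positivity)
  obtain ⟨N₀, hN₀⟩ := averaging T hT ε hεpos hε1 htwo (by rw [hcard]; exact hn3) hsys'
  refine ⟨N₀, fun N hN A hA hAc => hN₀ N hN A hA ?_⟩
  refine le_trans ?_ hAc
  exact mul_le_mul_of_nonneg_right (min_le_left _ _) (by positivity)

end Pool.Agent.Helper426
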